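import Pool.Agent.Q44.LD.Stm
import Pool.Agent.Q44.JQ.X.Out
import Pool.Agent.TH841.NF.One
import Pool.Agent.Y723.QT.Rf

/-!
# Project LD: moments and laws on finite probability spaces; multiquadratic fields
-/

set_option autoImplicit false
set_option linter.unusedVariables false

namespace Q44.LD

open Finset Module
open Q44.JQ Q44.JQ.X
open Pool.Agent.Y723.PT (tw)
open Pool.Agent.TH841.SH.D (Sha)
open Pool.Agent.Y667.SX (Sel2H)
open scoped Classical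

/-- LD-UNI: if the moments are close to the limit moments then the means of all functions of at most exponential
growth are close to their limits. Proof (`S_MOM` as hypothesis: `theorem t_UNI (h : S_MOM) : S_UNI`). Let
`C ≤ 2 ^ a`, `μ = a * #κ + 1`. (1) Tails of the given vectors: `2 ^ (r μ) ≤ 4 ∏_{i < μ} (2 ^ r - 2 ^ i) + 2 ^ (μ ^ 2)`
for all `r` (for `r < μ` the product is 0, for `r ≥ μ` use `∏_{j=1}^{μ} (1 - 2 ^ (-j)) ≥ 1/4`), so that the mean of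
`2 ^ (μ e_k)` is bounded by a constant for every `k` (moments with `m = Pi.single k μ`), and if some coordinate is
`≥ K` then `C ^ (1 + ∑ k, e_k) ≤ 2 ^ a * 2 ^ (-K) * ∑ k, 2 ^ (μ e_k)` (`Q44.JQ.X.prod_le_sum` in
Pool/Agent/Q44/JQ/X/MomC.lean). (2) The same for the limit law (its moments are finite:
`Q44.JQ.X.mom_law` in Pool/Agent/Q44/JQ/X/MomA.lean, or summability of `2 ^ (μ e) * law2 e`). (3) On the box
`r_k < K` use `S_MOM` for each of the finitely many vectors `r`. -/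
def S_UNI : Prop := ∀ (κ : Type) [Fintype κ] (c : κ → ZMod 2) (C η : ℝ), 1 ≤ C → 0 < η →
  ∃ (M : ℕ) (δ : ℝ), 0 < δ ∧ ∀ (Ω : Type) [Fintype Ω] [Nonempty Ω] (e : Ω → κ → ℕ),
    (∀ w k, ((e w k : ℕ) : ZMod 2) = c k) →
    (∀ m : κ → ℕ, (∀ k, m k ≤ M) →
      |(∑ w, ∏ k, ∏ i ∈ range (m k), ((2 : ℝ) ^ e w k - 2 ^ i)) / Fintype.card Ω -
        ∏ k, (2 : ℝ) ^ (m k * (m k + 1) / 2)| ≤ δ) →
    ∀ f : (κ → ℕ) → ℝ, (∀ r, |f r| ≤ C ^ (1 + ∑ k, r k)) →
      |(∑ w, f (e w)) / Fintype.card Ω - ∑' r : κ → ℕ, f r * ∏ k, lawc (c k) (r k)| ≤ η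

/-- the number `r` in `#Sel_2 = 2 ^ (2 + r)` for the twist by `D` -/
noncomputable def wr (a : Fin 3 → ℤ) (D : ℤ) : ℕ := sr (cv (tw D a))

/-- the facts on the twists over the rationals -/
def Fct (a : Fin 3 → ℤ) : Prop := ∀ D : ℤ, D ≠ 0 →
  Nat.card (Sel2H (cv (tw D a))) = 2 ^ (2 + wr a D) ∧
  Finite {x : Sha (cv (tw D a)) // x + x = 0} ∧
  2 ^ Module.finrank ℤ (cv (tw D a)).toAffine.Point * Nat.card {x : Sha (cv (tw D a)) // x + x = 0} =
    2 ^ wr a D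

/-- LD-FLD: the curve over the field generated by the square roots of the `d i`. Proof: `one_field` of
Pool/Agent/TH841/NF/One.lean with `N T = 2 ^ wr a (d₀ * ∏ i ∈ T, d i)` (the hypotheses `Bd` from `Fct`, note
`cv (tw D a) = Sh (D ^ 2 * cA a) (D ^ 3 * cB a)`: `Q44.JQ.X.cA_tw`, `cB_tw` in Pool/Agent/Q44/JQ/X/MomC.lean;
finitely generated: `Pool.Agent.W307.RG.fin_tw`, see `Pool.Agent.Q1.RS.mq_bd` in Pool/Agent/Q1/RS/MQ.lean and
the end of Pool/Agent/Results/MP_78d38b_nt/FieldsAlongSequences.lean for `bdd_of`, `crk_mem`). If all the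
numbers are 0: `Sha[2] = 0` and rank 0 over the rationals; `Pool.Agent.Y723.QT.base_kl`, `f2_iff` as in
Pool/Agent/Q283/J2/Field.lean lines 55 to 90 (theorem on `F2` and `Kl`); the group of the points over `F` is finite
because it is finitely generated of rank 0 (`rk = 0` from the first part; finitely generated: Mordell over number
fields in the libraries, or `Pool.Agent.Y687.MQ.mq_zero`-like theorems, or every point has a multiple in the sum of the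
twists and torsion is finite). -/
def S_FLD : Prop := ∀ (a : Fin 3 → ℤ), Function.Injective a → a 0 + a 1 + a 2 = 0 → Fct a →
  ∀ (n : ℕ) (d₀ : ℤ) (d : Fin n → ℤ), d₀ ≠ 0 → (∀ i, d i ≠ 0) → ∀ (F : Type) [Field F] [NumberField F],
  Pool.Agent.TH841.NF.Gen F d →
  BddAbove {q | Pool.Agent.TH841.NF.D.HasDiv
    (Pool.Agent.TH841.NF.EF (d₀ ^ 2 * cA a) (d₀ ^ 3 * cB a) F) q} ∧
  Pool.Agent.TH841.NF.D.rk (Pool.Agent.TH841.NF.EF (d₀ ^ 2 * cA a) (d₀ ^ 3 * cB a) F) +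
    Pool.Agent.TH841.NF.D.crk (Pool.Agent.TH841.NF.EF (d₀ ^ 2 * cA a) (d₀ ^ 3 * cB a) F) ≤
      ∑ S : Finset (Fin n), wr a (d₀ * ∏ i ∈ S, d i) ∧
  ((∀ S : Finset (Fin n), wr a (d₀ * ∏ i ∈ S, d i) = 0) →
    Finite (Pool.Agent.TH841.NF.EF (d₀ ^ 2 * cA a) (d₀ ^ 3 * cB a) F).toAffine.Point ∧
    Pool.Agent.Y723.QT.F2 (Pool.Agent.TH841.NF.D.Sha
      (Pool.Agent.TH841.NF.EF (d₀ ^ 2 * cA a) (d₀ ^ 3 * cB a) F)) ∧
    Pool.Agent.Y723.QT.Kl (Pool.Agent.TH841.NF.D.Sha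
      (Pool.Agent.TH841.NF.EF (d₀ ^ 2 * cA a) (d₀ ^ 3 * cB a) F)) n)

end Q44.LD
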