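import Pool.Agent.Q44.LD.FactsA
import Pool.Agent.Q24.LD.CRD
import Pool.Agent.Q285.LD.UNI

/-!
# Project LD: all the facts
-/

set_option autoImplicit false

namespace Q44.LD.F

open Q44.JQ Q44.LD Q44.JQ.X

theorem crd : S_CRD := Pool.Agent.Q24.LD.t_CRD Q58.LD.t_PROBF Pool.Agent.Q299.JQ.t_ORT

theorem uni : S_UNI := Pool.Agent.Q285.LD.t_UNI Pool.Agent.Q81.JQ.t_MOM

theorem factsZ : FactsZ := ⟨factsY, divm crd, uni⟩

end Q44.LD.F
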