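import Pool.Agent.Q154.LD.FLD

/-!
# Project LD: stability of the rank and of the finiteness of Sha over multiquadratic fields
-/

set_option autoImplicit false
set_option linter.unusedVariables false

namespace Q44.LD

open Q44.JQ Q44.JQ.X
open Pool.Agent.Y723.PT (tw)
open Pool.Agent.TH841.NF (EF Gen one_field tor2)
open Pool.Agent.W307.RT (Sh)
open Pool.Agent.TH841.NF.D (HasDiv rk crk)
open Pool.Agent.Y723.QT (F2 Kl)
open Pool.Agent.Q154.LD (cv_tw disc_tw kl_zero sha_zero)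

open scoped Classical in
/-- the rank over the field is at most the sum of the ranks of the twists -/
theorem rk_sum {F : Type} [Field F] [NumberField F] {s : ℕ} {d : Fin s → ℤ}
    (hF : Gen F d) (hd : ∀ i, d i ≠ 0) {A B : ℤ} (hD : 4 * A ^ 3 + 27 * B ^ 2 ≠ 0)
    (hfg : ∀ T : Finset (Fin s), Module.Finite ℤ (Sh ((∏ i ∈ T, d i) ^ 2 * A)
      ((∏ i ∈ T, d i) ^ 3 * B)).toAffine.Point) :
    rk (EF A B F) ≤ ∑ T : Finset (Fin s), Module.finrank ℤ
      (Sh ((∏ i ∈ T, d i) ^ 2 * A) ((∏ i ∈ T, d i) ^ 3 * B)).toAffine.Point := by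
  obtain ⟨x, hx, hgen⟩ := hF
  have h3 := Pool.Agent.W307.RS.mq2 F s x d hx hd hgen A B hD
  have h4 : ∀ T : Finset (Fin s), Module.rank ℤ
      (Sh ((∏ i ∈ T, d i) ^ 2 * A) ((∏ i ∈ T, d i) ^ 3 * B)).toAffine.Point =
      ((Module.finrank ℤ (Sh ((∏ i ∈ T, d i) ^ 2 * A)
        ((∏ i ∈ T, d i) ^ 3 * B)).toAffine.Point : ℕ) : Cardinal) := by
    intro T
    have := hfg T
    exact (Module.finrank_eq_rank ℤ _).symm
  have h6 : ∑ T : Finset (Fin s), Module.rank ℤ (Sh ((∏ i ∈ T, d i) ^ 2 * A)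
      ((∏ i ∈ T, d i) ^ 3 * B)).toAffine.Point =
      ((∑ T : Finset (Fin s), Module.finrank ℤ (Sh ((∏ i ∈ T, d i) ^ 2 * A)
      ((∏ i ∈ T, d i) ^ 3 * B)).toAffine.Point : ℕ) : Cardinal) := by
    rw [Nat.cast_sum]
    exact Finset.sum_congr rfl fun T _ => h4 T
  exact Module.finrank_le_of_rank_le (h3.trans (le_of_eq h6))

/-- the rank is at most the Selmer rank -/
theorem rk_wr {a : Fin 3 → ℤ} (hF : Fct a) {D : ℤ} (hD : D ≠ 0) :
    Module.finrank ℤ (cv (tw D a)).toAffine.Point ≤ wr a D := by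
  obtain ⟨-, h2, h3⟩ := hF D hD
  refine (Nat.pow_dvd_pow_iff_le_right (le_refl 2)).1 ?_
  exact Dvd.intro _ h3

/-- **Stability.** -/
theorem base_stab {a : Fin 3 → ℤ} (hinj : Function.Injective a) (hsum : a 0 + a 1 + a 2 = 0)
    (hF : Fct a) {D : ℤ} (hD : D ≠ 0) {n : ℕ} {d : Fin n → ℤ} (hd : ∀ i, d i ≠ 0)
    (F : Type) [Field F] [NumberField F] (hG : Gen F d)
    (h : ∀ T : Finset (Fin n), T.Nonempty → wr a (D * ∏ i ∈ T, d i) = 0) :
    rk (EF (D ^ 2 * cA a) (D ^ 3 * cB a) F) = Module.finrank ℤ (cv (tw D a)).toAffine.Point ∧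
    (F2 (Pool.Agent.TH841.NF.D.Sha (EF (D ^ 2 * cA a) (D ^ 3 * cB a) F)) ↔
      F2 (Pool.Agent.TH841.SH.D.Sha (cv (tw D a)))) := by
  have hE : 4 * cA a ^ 3 + 27 * cB a ^ 2 ≠ 0 := disc_ne hsum hinj
  have he := poly_eq hsum
  have hEd : 4 * (D ^ 2 * cA a) ^ 3 + 27 * (D ^ 3 * cB a) ^ 2 ≠ 0 := disc_tw hD hE
  have hroot : (D * a 0) ^ 3 + (D ^ 2 * cA a) * (D * a 0) + D ^ 3 * cB a = 0 := by
    have h3 := he (a 0)
    rw [sub_self, zero_mul, zero_mul] at h3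
    linear_combination D ^ 3 * h3
  have hp : ∀ T : Finset (Fin n), D * ∏ i ∈ T, d i ≠ 0 := fun T =>
    mul_ne_zero hD (Finset.prod_ne_zero_iff.2 fun i _ => hd i)
  have e2 : ∀ T : Finset (Fin n), (∏ i ∈ T, d i) ^ 2 * (D ^ 2 * cA a) =
      (D * ∏ i ∈ T, d i) ^ 2 * cA a := fun T => by ring
  have e3 : ∀ T : Finset (Fin n), (∏ i ∈ T, d i) ^ 3 * (D ^ 3 * cB a) =
      (D * ∏ i ∈ T, d i) ^ 3 * cB a := fun T => by ring
  have etf := Pool.Agent.Y723.QT.tf_EF (F := F) hEd hroot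
  obtain ⟨-, hft, -⟩ := hF D hD
  refine ⟨le_antisymm ?_ ?_, ?_, ?_⟩
  · refine (rk_sum hG hd hEd fun T => ?_).trans (le_of_eq ?_)
    · rw [e2, e3]
      exact Pool.Agent.W307.RG.fin_tw hE he (hp T)
    · rw [Finset.sum_eq_single ∅]
      · rw [e2, e3, ← cv_tw, Finset.prod_empty, mul_one]
      · intro T _ hT
        rw [e2, e3, ← cv_tw]
        have h1 := rk_wr hF (hp T)
        rw [h T (Finset.nonempty_iff_ne_empty.2 hT)] at h1
        exact Nat.le_zero.1 h1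
      · intro h1
        exact absurd (Finset.mem_univ _) h1
  · have h1 := Pool.Agent.Y723.QT.rk_ge (F := F) hEd hroot
    rw [cv_tw]
    exact h1
  · intro h1
    obtain ⟨m, hm⟩ := (Pool.Agent.Y723.QT.f2_iff etf).1 h1
    refine (Pool.Agent.Y723.QT.f2_iff hft).2 ⟨m + Module.finrank ℚ F, ?_⟩
    rw [cv_tw]
    exact Pool.Agent.Y723.QT.base_back hm
  · intro h1
    obtain ⟨m, hm⟩ := (Pool.Agent.Y723.QT.f2_iff hft).1 h1
    refine (Pool.Agent.Y723.QT.f2_iff etf).2 ⟨n + m, ?_⟩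
    obtain ⟨x, hx, hgen⟩ := hG
    refine Pool.Agent.Y723.QT.base_kl (r := x) (d := fun i => (d i : ℚ)) (fun i => ?_)
        (fun i => by exact_mod_cast hd i) hgen fun T => ?_
    · rw [hx i, map_intCast]
    · rw [Pool.Agent.TH841.NF.tw_Sh, e2, e3]
      rcases T.eq_empty_or_nonempty with rfl | hT
      · rw [Finset.prod_empty, mul_one, ← cv_tw]
        exact hm
      · exact (kl_zero (sha_zero hF (hp T) (h T hT))).mono (Nat.zero_le m)

end Q44.LD
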