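import Pool.Agent.Q44.LD.Tup

/-!
# Project LD: the law in one class of tuples of divisors
-/

set_option autoImplicit false
set_option linter.unusedSectionVars false
set_option linter.unusedVariables false

open scoped Classical

namespace Q44.LD

open Finset Module Filter
open Pool.Agent.Y703.CQ (nr)
open Pool.Agent.TH344.JG (LocJ SelJ PR df)
open Pool.Agent.Y723.PT (tw)
open Q44.JQ hiding cnt
open Q44.JQ.W Q44.JQ.M Q44.JQ.X
open Q155.NL (Alm alm_mono)

variable {T : Finset ℕ} {κ N : Type} [Fintype κ] [Fintype N] {G : Gx T κ N} {L : LB T}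

/-- the class of the form -/
noncomputable def Gx.gf (G : Gx T κ N) (x : N → Cl T) (k : κ) : Option T → ZMod 2 :=
  ∑ i, G.I k i • (x i).1

/-- the label of the form -/
noncomputable def Gx.rf (G : Gx T κ N) (x : N → Cl T) (k : κ) : Option T → ZMod 2 :=
  ∑ i, G.I k i • (x i).2

/-- the parity -/
noncomputable def Gx.Lo.pi (P : G.Lo L) (x : N → Cl T) (k : κ) : ZMod 2 :=
  ((finrank (ZMod 2) (P.d k (G.gf x k) (G.rf x k)).pm : ℕ) : ZMod 2)

/-- the data for the form `m` -/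
noncomputable def Gx.Lo.D (P : G.Lo L) (x : N → Cl T) (m : G.M) (k : {k // G.f k = m}) :
    Dj (Option T) (G.cu L (∑ i, m.1 i • (x i).1) k.1).V :=
  P.d k.1 (∑ i, m.1 i • (x i).1) (∑ i, m.1 i • (x i).2)

theorem frV (hOMV : S_OMV) (γ : Option T → ZMod 2) (k : κ) :
    finrank (ZMod 2) (G.cu L γ k).V = 2 := by
  rw [(hOMV T (G.cu L γ k) ⊥).2.2.2.1]
  show 2 * (G.c k).g = 2
  rw [G.g1]

theorem ev_iff (P : G.Lo L) (hOMV : S_OMV) {S : Finset ℕ} (hS : ∀ p ∈ S, p.Prime ∧ p ∉ T)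
    (x : N → Cl T) (r : κ → ℕ) (τ : S → N → ZMod 2)
    (hτ : lbs (fun p : S => lbl T p) τ = fun i => (x i).2) :
    EvS (M := G.M) (κ := fun m => {k // G.f k = m})
      (V := fun m k => (G.cu L (∑ i, m.1 i • (x i).1) k.1).V)
      Subtype.val (P.D x) (fun m k => r k.1) S τ ↔
    ∀ k, (SelJ (tw (pf (G.I k) fun i => tt (x i).1 fun p => τ p i) (G.c k).a)).ncard =
      2 ^ (2 + r k) := by
  have h1 : ∀ k, (SelJ (tw (pf (G.I k) fun i => tt (x i).1 fun p => τ p i) (G.c k).a)).ncard =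
      2 ^ (2 + r k) ↔ finrank (ZMod 2) (Sel (P.d k (∑ i, G.I k i • (x i).1)
        (∑ i, G.I k i • (x i).2))
        (fun a b : {x : S // act (M := G.M) Subtype.val τ (G.f k) x} => nr (a : S) (b : S))
        (fun a => lbl T (a : S))) = 2 + r k := by
    intro k
    have h2 := (P.sel2 hS k (fun i => (x i).1) τ (act (M := G.M) Subtype.val τ (G.f k))
      fun y => Iff.rfl).2
    rw [hτ] at h2
    rw [h2]
    exact Nat.pow_right_inj (le_refl 2)
  constructor
  · intro h k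
    rw [h1]
    have h2 := h (G.f k) ⟨k, rfl⟩
    rw [frV hOMV] at h2
    exact h2
  · rintro h m ⟨k, rfl⟩
    have h2 := (h1 k).1 (h k)
    rw [frV hOMV]
    exact h2

theorem lim_eq (P : G.Lo L) (x : N → Cl T) (r : κ → ℕ) :
    Lim (M := G.M) (κ := fun m => {k // G.f k = m})
      (V := fun m k => (G.cu L (∑ i, m.1 i • (x i).1) k.1).V) (P.D x) (fun m k => r k.1) =
    ∏ k, lawc (P.pi x k) (r k) := by
  unfold Lim
  have h1 : ∀ m : G.M, ∀ k : {k // G.f k = m},
      lawc ((finrank (ZMod 2) (P.D x m k).pm : ℕ) : ZMod 2) (r k.1) = lawc (P.pi x k.1) (r k.1) := by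
    rintro m ⟨k, rfl⟩
    rfl
  have h2 : ∀ m : G.M, ∏ k : {k // G.f k = m},
      lawc ((finrank (ZMod 2) (P.D x m k).pm : ℕ) : ZMod 2) (r k.1) =
      ∏ k : {k // G.f k = m}, lawc (P.pi x k.1) (r k.1) := fun m =>
    Finset.prod_congr rfl fun k _ => h1 m k
  rw [Finset.prod_congr rfl fun m _ => h2 m]
  exact Fintype.prod_fiberwise G.f fun k => lawc (P.pi x k) (r k)

/-- **The law in one class.** -/
theorem Gx.Lo.alm (P : G.Lo L) (hDIV : S_DIV) (hADJ0 : S_ADJ0) (hISO1 : S_ISO1) (hOMV : S_OMV)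
    (x : N → Cl T) (r : κ → ℕ) {ε : ℝ} (hε : 0 < ε) :
    Alm Squarefree fun D : ℕ =>
      |(Nat.card {t : N → ℤ // InC T x (D : ℤ) t ∧
          ∀ k, (SelJ (tw (pf (G.I k) t) (G.c k).a)).ncard = 2 ^ (2 + r k)} : ℝ) -
        (∏ k, lawc (P.pi x k) (r k)) * (Nat.card {t : N → ℤ // InC T x (D : ℤ) t ∧ True} : ℝ)| ≤
      ε * (Nat.card {t : N → ℤ // InC T x (D : ℤ) t ∧ True} : ℝ) := by
  have hC : (0 : ℝ) < Fintype.card (N → Option T → ZMod 2) := by
    exact_mod_cast Fintype.card_pos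
  have : ∀ (m : G.M) (k : {k // G.f k = m}),
      Nontrivial (G.cu L (∑ i, m.1 i • (x i).1) k.1).V := fun m k => (hOMV T _ ⊥).2.2.2.2
  have h1 := alm_law (M := G.M) (κ := fun m => {k // G.f k = m})
      (V := fun m k => (G.cu L (∑ i, m.1 i • (x i).1) k.1).V) L hDIV (e := Subtype.val)
      Subtype.val_injective (fun m h => by
        obtain ⟨k, hk⟩ := m.2
        exact G.I0 k (hk.trans h))
      (ρ := fun i => (x i).2) (D := P.D x) (fun m k => rfl) (fun m k => P.ok _ _ _)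
      (fun m => (G.F m).adj L hADJ0 hISO1 hOMV (∑ i, m.1 i • (x i).1)
        fun k => P.𝓛 (∑ i, m.1 i • (x i).1) k.1 (∑ i, m.1 i • (x i).2))
      (fun m k => r k.1) (div_pos hε hC)
  refine alm_mono (alm_all L h1) fun D hD hTP => ?_
  obtain ⟨hφ, hTP⟩ := hTP
  rw [lim_eq] at hTP
  by_cases hx : ∀ i, Uo (x i).1 ∣ (D : ℤ)
  · have hS := pf_S L hD
    have e1 := card_tup L hD x hx fun t =>
      ∀ k, (SelJ (tw (pf (G.I k) t) (G.c k).a)).ncard = 2 ^ (2 + r k)
    have e2 := card_tup L hD x hx fun t => True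
    have e3 : Nat.card {τ : (nD T (D : ℤ)).primeFactors → N → ZMod 2 //
        lbs (fun p : (nD T (D : ℤ)).primeFactors => lbl T p) τ = (fun i => (x i).2) ∧
        ∀ k, (SelJ (tw (pf (G.I k) fun i => tt (x i).1 fun p => τ p i) (G.c k).a)).ncard =
          2 ^ (2 + r k)} =
        Nat.card {τ : (nD T (D : ℤ)).primeFactors → N → ZMod 2 //
        lbs (fun p : (nD T (D : ℤ)).primeFactors => lbl T p) τ = (fun i => (x i).2) ∧
        EvS (M := G.M) (κ := fun m => {k // G.f k = m})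
          (V := fun m k => (G.cu L (∑ i, m.1 i • (x i).1) k.1).V)
          Subtype.val (P.D x) (fun m k => r k.1) (nD T (D : ℤ)).primeFactors τ} := by
      refine Nat.card_congr (Equiv.subtypeEquivRight fun τ => ?_)
      exact and_congr_right fun hτ => (ev_iff P hOMV hS x r τ hτ).symm
    have e4 : Nat.card {τ : (nD T (D : ℤ)).primeFactors → N → ZMod 2 //
        lbs (fun p : (nD T (D : ℤ)).primeFactors => lbl T p) τ = (fun i => (x i).2) ∧ True} =
        Nat.card {τ : (nD T (D : ℤ)).primeFactors → N → ZMod 2 //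
        lbs (fun p : (nD T (D : ℤ)).primeFactors => lbl T p) τ = (fun i => (x i).2)} := by
      refine Nat.card_congr (Equiv.subtypeEquivRight fun τ => ?_)
      exact and_iff_left trivial
    rw [e1, e2, e3, e4]
    refine hTP.trans ?_
    have h5 := card_lbs hφ (fun i => (x i).2)
    calc _ ≤ ε / (Fintype.card (N → Option T → ZMod 2) : ℝ) *
        ((Fintype.card (N → Option T → ZMod 2) : ℝ) *
        (Nat.card {τ : (nD T (D : ℤ)).primeFactors → N → ZMod 2 //
        lbs (fun p : (nD T (D : ℤ)).primeFactors => lbl T p) τ = (fun i => (x i).2)} : ℝ)) :=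
          mul_le_mul_of_nonneg_left h5 (div_pos hε hC).le
      _ = _ := by
        field_simp
  · have h6 : ∀ Q : (N → ℤ) → Prop, Nat.card {t : N → ℤ // InC T x (D : ℤ) t ∧ Q t} = 0 := by
      intro Q
      have : IsEmpty {t : N → ℤ // InC T x (D : ℤ) t ∧ Q t} :=
        ⟨fun t => no_tup L hD x hx t.1 t.2.1⟩
      exact Nat.card_of_isEmpty
    rw [h6, h6]
    simp

end Q44.LD
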