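import Pool.Agent.Q44.LD.NatM
import Pool.Agent.Q44.LD.Cls

/-!
# Project LD: the moments in one class of tuples of divisors
-/

set_option autoImplicit false
set_option linter.unusedSectionVars false
set_option linter.unusedVariables false

open scoped Classical

namespace Q44.LD

open Finset Module Filter
open Pool.Agent.Y703.CQ (nr)
open Pool.Agent.TH344.JG (LocJ SelJ PR df)
open Pool.Agent.Y723.PT (tw)
open Q44.JQ hiding cnt
open Q44.JQ.W Q44.JQ.M Q44.JQ.X
open Q155.NL (Alm alm_mono)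

variable {T : Finset ℕ} {κ N : Type} [Fintype κ] [Fintype N] {G : Gx T κ N} {L : LB T}

/-- the tuples of the class are the families with the given labels -/
theorem equiv_tup (L : LB T) {D : ℕ} (hD : Squarefree D) (x : N → Cl T)
    (hx : ∀ i, Uo (x i).1 ∣ (D : ℤ)) :
    ∃ E : {τ : (nD T (D : ℤ)).primeFactors → N → ZMod 2 //
        lbs (fun p : (nD T (D : ℤ)).primeFactors => lbl T p) τ = (fun i => (x i).2)} ≃
        {t : N → ℤ // InC T x (D : ℤ) t},
      ∀ τ, (E τ).1 = fun i => tt (x i).1 fun p => τ.1 p i := by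
  have hb : Function.Bijective (fun τ : {τ : (nD T (D : ℤ)).primeFactors → N → ZMod 2 //
        lbs (fun p : (nD T (D : ℤ)).primeFactors => lbl T p) τ = (fun i => (x i).2)} =>
      (⟨fun i => tt (x i).1 fun p => τ.1 p i, fun i => ⟨tt_dvd L hD (hx i) _, by
        rw [(cl_tt L (pf_S L hD) (x i).1 fun p => τ.1 p i).2.2]
        exact Prod.ext rfl (congrFun τ.2 i)⟩⟩ : {t : N → ℤ // InC T x (D : ℤ) t})) := by
    constructor
    · intro τ τ' h
      refine Subtype.ext (funext fun p => funext fun i => ?_)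
      have h1 := congrFun (congrArg Subtype.val h) i
      exact congrFun (tt_inj L (pf_S L hD) h1) p
    · rintro ⟨t, ht⟩
      have h1 := fun i => tt_sur L hD (ht i).1
      choose σ h2 h3 _h4 using h1
      have h5 : ∀ i, (ct (t i) : Option T → ZMod 2) = (x i).1 := fun i => congrArg Prod.fst (ht i).2
      have h6 : (fun i => tt (x i).1 fun p => σ i p) = t := by
        funext i
        have := h2 i
        rw [h5 i] at this
        exact this
      refine ⟨⟨fun p i => σ i p, ?_⟩, Subtype.ext h6⟩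
      funext i
      show ∑ p, σ i p • lbl T p = (x i).2
      rw [← h3 i, (ht i).2]
  exact ⟨Equiv.ofBijective _ hb, fun τ => rfl⟩

/-- the product of the factorial moments for a tuple -/
noncomputable def XT (G : Gx T κ N) (μ : κ → ℕ) (t : N → ℤ) : ℝ :=
  ∏ k, ∏ i ∈ range (μ k), (((SelJ (tw (pf (G.I k) t) (G.c k).a)).ncard : ℝ) / 4 - 2 ^ i)

theorem XS_XT (P : G.Lo L) (hOMV : S_OMV) {S : Finset ℕ} (hS : ∀ p ∈ S, p.Prime ∧ p ∉ T)
    (x : N → Cl T) (μ : κ → ℕ) (τ : S → N → ZMod 2)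
    (hτ : lbs (fun p : S => lbl T p) τ = fun i => (x i).2) :
    XS (M := G.M) (κ := fun m => {k // G.f k = m})
      (V := fun m k => (G.cu L (∑ i, m.1 i • (x i).1) k.1).V)
      Subtype.val (P.D x) (fun m k => μ k.1) S τ = XT G μ fun i => tt (x i).1 fun p => τ p i := by
  have h0 : ∀ k, ((SelJ (tw (pf (G.I k) fun i => tt (x i).1 fun p => τ p i) (G.c k).a)).ncard : ℝ) / 4 =
      (Nat.card (Sel (P.d k (∑ i, G.I k i • (x i).1) (∑ i, G.I k i • (x i).2))
        (fun a b : {x : S // act (M := G.M) Subtype.val τ (G.f k) x} => nr (a : S) (b : S))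
        (fun a => lbl T (a : S))) : ℝ) /
      (Nat.card (G.cu L (∑ i, G.I k i • (x i).1) k).V : ℝ) := by
    intro k
    have h2 := (P.sel2 hS k (fun i => (x i).1) τ (act (M := G.M) Subtype.val τ (G.f k))
      fun y => Iff.rfl).2
    rw [hτ] at h2
    have h3 : Nat.card (G.cu L (∑ i, G.I k i • (x i).1) k).V = 4 := by
      rw [Module.natCard_eq_pow_finrank (K := ZMod 2), Nat.card_zmod, frV hOMV]
      norm_num
    have h4 : Nat.card (Sel (P.d k (∑ i, G.I k i • (x i).1) (∑ i, G.I k i • (x i).2))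
        (fun a b : {x : S // act (M := G.M) Subtype.val τ (G.f k) x} => nr (a : S) (b : S))
        (fun a => lbl T (a : S))) =
        (SelJ (tw (pf (G.I k) fun i => tt (x i).1 fun p => τ p i) (G.c k).a)).ncard := by
      rw [h2, Module.natCard_eq_pow_finrank (K := ZMod 2), Nat.card_zmod]
    rw [h4, h3]
    norm_num
  unfold XT XS
  have h1 : ∀ m : G.M, ∀ k : {k // G.f k = m},
      (∏ i ∈ range (μ k.1), ((Nat.card (Sel (P.D x m k)
        (fun a b : {x : S // act (M := G.M) Subtype.val τ m x} => nr (a : S) (b : S))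
        (fun a : {x : S // act (M := G.M) Subtype.val τ m x} => lbl T (a : S))) : ℝ) /
        (Nat.card (G.cu L (∑ i, m.1 i • (x i).1) k.1).V : ℝ) - 2 ^ i)) =
      ∏ i ∈ range (μ k.1),
        (((SelJ (tw (pf (G.I k.1) fun i => tt (x i).1 fun p => τ p i) (G.c k.1).a)).ncard : ℝ) / 4 -
          2 ^ i) := by
    rintro m ⟨k, rfl⟩
    refine Finset.prod_congr rfl fun i _ => ?_
    rw [h0 k]
    rfl
  rw [Finset.prod_congr rfl fun m _ => Finset.prod_congr rfl fun k _ => h1 m k]
  exact Fintype.prod_fiberwise G.f fun k => ∏ i ∈ range (μ k),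
        (((SelJ (tw (pf (G.I k) fun i => tt (x i).1 fun p => τ p i) (G.c k).a)).ncard : ℝ) / 4 -
          2 ^ i)

theorem LM_eq (G : Gx T κ N) (μ : κ → ℕ) :
    LM (M := G.M) (κ := fun m => {k // G.f k = m}) (fun m k => μ k.1) =
      ∏ k, (2 : ℝ) ^ (μ k * (μ k + 1) / 2) := by
  unfold LM
  exact Fintype.prod_fiberwise G.f fun k => (2 : ℝ) ^ (μ k * (μ k + 1) / 2)

/-- **The moments in one class.** -/
theorem Gx.Lo.almM (P : G.Lo L) (hDIV : S_DIVM) (hADJ0 : S_ADJ0) (hISO1 : S_ISO1) (hOMV : S_OMV)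
    (x : N → Cl T) (μ : κ → ℕ) {ε : ℝ} (hε : 0 < ε) :
    Alm Squarefree fun D : ℕ => ∀ [Fintype {t : N → ℤ // InC T x (D : ℤ) t}],
      |∑ t : {t : N → ℤ // InC T x (D : ℤ) t}, (XT G μ t.1 - ∏ k, (2 : ℝ) ^ (μ k * (μ k + 1) / 2))| ≤
        ε * Fintype.card {t : N → ℤ // InC T x (D : ℤ) t} := by
  have hC : (0 : ℝ) < Fintype.card (N → Option T → ZMod 2) := by
    exact_mod_cast Fintype.card_pos
  have : ∀ (m : G.M) (k : {k // G.f k = m}),
      Nontrivial (G.cu L (∑ i, m.1 i • (x i).1) k.1).V := fun m k => (hOMV T _ ⊥).2.2.2.2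
  have h1 := alm_mom (M := G.M) (κ := fun m => {k // G.f k = m})
      (V := fun m k => (G.cu L (∑ i, m.1 i • (x i).1) k.1).V) L hDIV (e := Subtype.val)
      Subtype.val_injective (fun m h => by
        obtain ⟨k, hk⟩ := m.2
        exact G.I0 k (hk.trans h))
      (ρ := fun i => (x i).2) (D := P.D x) (fun m k => rfl) (fun m k => P.ok _ _ _)
      (fun m => (G.F m).adj L hADJ0 hISO1 hOMV (∑ i, m.1 i • (x i).1)
        fun k => P.𝓛 (∑ i, m.1 i • (x i).1) k.1 (∑ i, m.1 i • (x i).2))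
      (fun m k => μ k.1) (div_pos hε hC)
  refine alm_mono (alm_all L h1) fun D hD hTP => ?_
  obtain ⟨hφ, hTP⟩ := hTP
  intro iF
  by_cases hx : ∀ i, Uo (x i).1 ∣ (D : ℤ)
  · have hS := pf_S L hD
    obtain ⟨E, hE⟩ := equiv_tup L hD x hx
    have e1 : ∑ τ ∈ (univ : Finset ((nD T (D : ℤ)).primeFactors → N → ZMod 2)).filter
        (fun τ => lbs (fun x : (nD T (D : ℤ)).primeFactors => lbl T x) τ = fun i => (x i).2),
        (XS (M := G.M) (κ := fun m => {k // G.f k = m})
          (V := fun m k => (G.cu L (∑ i, m.1 i • (x i).1) k.1).V)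
          Subtype.val (P.D x) (fun m k => μ k.1) (nD T (D : ℤ)).primeFactors τ -
          LM (M := G.M) (κ := fun m => {k // G.f k = m}) (fun m k => μ k.1)) =
        ∑ t : {t : N → ℤ // InC T x (D : ℤ) t},
          (XT G μ t.1 - ∏ k, (2 : ℝ) ^ (μ k * (μ k + 1) / 2)) := by
      rw [← Equiv.sum_comp E, Finset.sum_subtype _ (p := fun τ =>
        lbs (fun p : (nD T (D : ℤ)).primeFactors => lbl T p) τ = (fun i => (x i).2))
        (fun τ => by rw [mem_filter]; exact ⟨fun h => h.2, fun h => ⟨mem_univ _, h⟩⟩)]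
      refine Finset.sum_congr rfl fun τ _ => ?_
      rw [hE, XS_XT P hOMV hS x μ τ.1 τ.2, LM_eq]
    rw [← e1]
    refine hTP.trans ?_
    have h5 := card_lbs hφ (fun i => (x i).2)
    have e4 : Fintype.card {t : N → ℤ // InC T x (D : ℤ) t} =
        Nat.card {τ : (nD T (D : ℤ)).primeFactors → N → ZMod 2 //
        lbs (fun p : (nD T (D : ℤ)).primeFactors => lbl T p) τ = (fun i => (x i).2)} := by
      rw [← Nat.card_eq_fintype_card]
      exact (Nat.card_congr E).symm
    rw [e4]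
    calc _ ≤ ε / (Fintype.card (N → Option T → ZMod 2) : ℝ) *
        ((Fintype.card (N → Option T → ZMod 2) : ℝ) *
        (Nat.card {τ : (nD T (D : ℤ)).primeFactors → N → ZMod 2 //
        lbs (fun p : (nD T (D : ℤ)).primeFactors => lbl T p) τ = (fun i => (x i).2)} : ℝ)) :=
          mul_le_mul_of_nonneg_left h5 (div_pos hε hC).le
      _ = _ := by
        field_simp
  · have hem : IsEmpty {t : N → ℤ // InC T x (D : ℤ) t} :=
      ⟨fun t => no_tup L hD x hx t.1 t.2⟩
    rw [Finset.sum_of_isEmpty, abs_zero]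
    positivity

end Q44.LD
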