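import Pool.Agent.Q44.LD.Out

/-!
# Project LD: the classes of tuples of divisors have the same number of elements
-/

set_option autoImplicit false
set_option linter.unusedSectionVars false
set_option linter.unusedVariables false

open scoped Classical

namespace Q44.LD

open Finset Module Filter Topology
open Q44.JQ hiding cnt
open Q155.NL (Alm alm_mono alm_finset)

/-- all labels occur among the primes of `D` outside `T` -/
def Lbd (T : Finset ℕ) (D : ℕ) : Prop :=
  ∀ φ : Option T → ZMod 2, ∃ p ∈ (nD T (D : ℤ)).primeFactors, lbl T p = φ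

theorem alm_lbd {T : Finset ℕ} (L : LB T) (hDIV : S_DIVM) : Alm Squarefree (Lbd T) := by
  have h1 := alm_mom (N := Empty) (M := Empty) (κ := fun _ => Empty) (V := fun _ _ => ZMod 2) L hDIV
    (e := fun m => m.elim) (fun m => m.elim) (fun m => m.elim) (ρ := fun i => i.elim)
    (D := fun m => m.elim) (fun m => m.elim) (fun m => m.elim) (fun m => m.elim)
    (fun m => m.elim) (ε := 1) one_pos
  exact alm_mono (alm_all L h1) fun D _ h => h.1

/-- the number of the families with given labels -/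
theorem card_lbs_eq {T : Finset ℕ} {N : Type} [Fintype N] {S : Finset ℕ}
    (hφ : ∀ φ : Option T → ZMod 2, ∃ p ∈ S, lbl T p = φ) (ρ : N → Option T → ZMod 2) :
    Nat.card {τ : S → N → ZMod 2 // lbs (fun p : S => lbl T p) τ = ρ} *
      2 ^ (Fintype.card N * (T.card + 1)) = 2 ^ (Fintype.card N * S.card) := by
  have hadd : ∀ τ τ' : S → N → ZMod 2, lbs (fun p : S => lbl T p) (τ + τ') =
      lbs (fun p : S => lbl T p) τ + lbs (fun p : S => lbl T p) τ' := by
    intro τ τ'
    funext i
    show ∑ p : S, (τ p i + τ' p i) • lbl T p = ∑ p : S, τ p i • lbl T p + ∑ p : S, τ' p i • lbl T p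
    rw [← Finset.sum_add_distrib]
    exact Finset.sum_congr rfl fun p _ => add_smul _ _ _
  have hsur : ∀ ρ' : N → Option T → ZMod 2, ∃ τ : S → N → ZMod 2,
      lbs (fun p : S => lbl T p) τ = ρ' := by
    intro ρ'
    choose p hp hl using fun i => hφ (ρ' i)
    refine ⟨fun q i => if (q : ℕ) = p i then 1 else 0, funext fun i => ?_⟩
    show ∑ q : S, (if (q : ℕ) = p i then (1 : ZMod 2) else 0) • lbl T q = ρ' i
    rw [Finset.sum_eq_single (⟨p i, hp i⟩ : S)]
    · rw [if_pos rfl, one_smul]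
      exact hl i
    · intro q _ hq
      rw [if_neg fun h => hq (Subtype.ext h), zero_smul]
    · intro h
      exact absurd (mem_univ _) h
  have hle : ∀ ρ₁ ρ₂ : N → Option T → ZMod 2,
      (univ.filter fun τ : S → N → ZMod 2 => lbs (fun p : S => lbl T p) τ = ρ₁).card ≤
      (univ.filter fun τ : S → N → ZMod 2 => lbs (fun p : S => lbl T p) τ = ρ₂).card := by
    intro ρ₁ ρ₂
    obtain ⟨τ₀, h3⟩ := hsur (ρ₂ - ρ₁)
    refine Finset.card_le_card_of_injOn (fun τ => τ + τ₀) ?_ (fun a _ b _ h => add_right_cancel h)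
    intro τ hτ
    have h4 := (mem_filter.1 hτ).2
    refine mem_filter.2 ⟨mem_univ _, ?_⟩
    rw [hadd, h4, h3]
    abel
  have h1 : Fintype.card (S → N → ZMod 2) = 2 ^ (Fintype.card N * S.card) := by
    rw [Fintype.card_fun, Fintype.card_fun, ZMod.card, Fintype.card_coe, pow_mul]
  have h2 : (univ : Finset (S → N → ZMod 2)).card =
      (univ : Finset (N → Option T → ZMod 2)).card *
        (univ.filter fun τ : S → N → ZMod 2 => lbs (fun p : S => lbl T p) τ = ρ).card := by
    rw [Finset.card_eq_sum_card_fiberwise (f := fun τ : S → N → ZMod 2 =>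
      lbs (fun p : S => lbl T p) τ) (t := univ) (fun _ _ => Finset.mem_coe.2 (mem_univ _)), ← smul_eq_mul]
    exact Finset.sum_const_nat fun ρ' _ => le_antisymm (hle _ _) (hle _ _)
  have h3 : Nat.card {τ : S → N → ZMod 2 // lbs (fun p : S => lbl T p) τ = ρ} =
      (univ.filter fun τ : S → N → ZMod 2 => lbs (fun p : S => lbl T p) τ = ρ).card := by
    rw [Nat.card_eq_fintype_card, Fintype.card_subtype]
  have h4 : Fintype.card (N → Option T → ZMod 2) = 2 ^ (Fintype.card N * (T.card + 1)) := by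
    rw [Fintype.card_fun, Fintype.card_fun, ZMod.card, Fintype.card_option, Fintype.card_coe,
      ← pow_mul, mul_comm]
  rw [card_univ, card_univ, h1, h4] at h2
  rw [h3, h2, mul_comm]

/-- the number of the divisors of a squarefree integer -/
theorem card_div {D : ℕ} (hD : Squarefree D) : D.divisors.card = 2 ^ D.primeFactors.card := by
  rw [Nat.card_divisors hD.ne_zero, Finset.prod_congr rfl (g := fun _ => 2), Finset.prod_const]
  intro p hp
  have h1 := hD.natFactorization_le_one p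
  have h2 := (Nat.prime_of_mem_primeFactors hp).factorization_pos_of_dvd hD.ne_zero
    (Nat.dvd_of_mem_primeFactors hp)
  omega

variable {T : Finset ℕ} (L : LB T)

include L

/-- the primes of `D` inside and outside `T` -/
theorem card_pf {D : ℕ} (hD : Squarefree D) :
    (nD T (D : ℤ)).primeFactors.card + (T.filter fun l => l ∣ D).card = D.primeFactors.card := by
  obtain ⟨g1, g2, g3⟩ := L.dec (Int.squarefree_natCast.2 hD)
  obtain ⟨u1, u2, -⟩ := L.uo (ct (D : ℤ))
  have h1 : Disjoint (nD T (D : ℤ)).primeFactors (T.filter fun l => l ∣ D) := by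
    rw [Finset.disjoint_left]
    intro p hp hp'
    exact g3 p (mem_filter.1 hp').1 (Nat.dvd_of_mem_primeFactors hp)
  rw [← Finset.card_union_of_disjoint h1]
  congr 1
  ext p
  rw [Finset.mem_union, mem_filter]
  constructor
  · rintro (hp | ⟨hp, hd⟩)
    · have hp' := Nat.prime_of_mem_primeFactors hp
      refine Nat.mem_primeFactors.2 ⟨hp', ?_, hD.ne_zero⟩
      refine Int.natCast_dvd_natCast.1 ?_
      rw [g1]
      exact (Int.natCast_dvd_natCast.2 (Nat.dvd_of_mem_primeFactors hp)).mul_left _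
    · exact Nat.mem_primeFactors.2 ⟨L.pr p hp, hd, hD.ne_zero⟩
  · intro hp
    have hp' := Nat.prime_of_mem_primeFactors hp
    have hd := Nat.dvd_of_mem_primeFactors hp
    have h2 : (p : ℤ) ∣ (D : ℤ) := Int.natCast_dvd_natCast.2 hd
    rw [g1] at h2
    rcases (Nat.prime_iff_prime_int.1 hp').dvd_or_dvd h2 with h | h
    · exact Or.inr ⟨u2 p hp' h, hd⟩
    · exact Or.inl (Nat.mem_primeFactors.2 ⟨hp', Int.natCast_dvd_natCast.1 h, g2.ne_zero⟩)

/-- the condition for the existence of divisors in the class -/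
theorem uo_dvd {D : ℕ} (hD : Squarefree D) {z : ℤ} (hz : Squarefree z) :
    Uo (ct z : Option T → ZMod 2) ∣ (D : ℤ) ↔ ∀ l ∈ T, (l : ℤ) ∣ z → l ∣ D := by
  obtain ⟨u1, u2, u3⟩ := L.uo (ct z)
  have hval : ∀ t : T, (((t : ℕ) : ℤ) ∣ Uo (ct z : Option T → ZMod 2) ↔ ((t : ℕ) : ℤ) ∣ z) := by
    intro t
    refine val_eq (L.pr t t.2) u1 hz ?_
    rw [← ct_some, ← ct_some, u3]
  constructor
  · intro h l hl hd
    exact Int.natCast_dvd_natCast.1 (((hval ⟨l, hl⟩).2 hd).trans h)
  · intro h
    refine L.Udvd (Int.squarefree_natCast.2 hD) _ fun t ht => ?_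
    exact Int.natCast_dvd_natCast.2 (h t t.2 ((hval t).1 ht))

/-- **The number of the tuples in a class.** -/
theorem tp_card (hLSQ : S_LSQ) {n : ℕ} {D : ℕ} (hD : Squarefree D) (hφ : Lbd T D)
    {t₀ : Fin n → ℤ} (h₀ : ∀ i, Squarefree (t₀ i))
    (hx : ∀ i, ∀ l ∈ T, (l : ℤ) ∣ t₀ i → l ∣ D) :
    (Tp T t₀ D).ncard * 2 ^ (n * (T.card + 2 + (T.filter fun l => l ∣ D).card)) =
      (2 * D.divisors.card) ^ n := by
  have hx' : ∀ i, Uo (ct (t₀ i) : Option T → ZMod 2) ∣ (D : ℤ) := fun i =>
    (uo_dvd L hD (h₀ i)).2 (hx i)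
  have h1 := card_tup L hD (fun i => clD T (t₀ i)) hx' fun _ => True
  have h2 := card_lbs_eq (T := T) (N := Fin n) hφ fun i => (clD T (t₀ i)).2
  have h3 : (Tp T t₀ D).ncard = Nat.card {τ : (nD T (D : ℤ)).primeFactors → Fin n → ZMod 2 //
      lbs (fun p : (nD T (D : ℤ)).primeFactors => lbl T p) τ = (fun i => (clD T (t₀ i)).2)} := by
    rw [← Nat.card_coe_set_eq]
    have h4 : Nat.card (Tp T t₀ D) = Nat.card {t : Fin n → ℤ //
        InC T (fun i => clD T (t₀ i)) (D : ℤ) t ∧ True} := by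
      refine Nat.card_congr (Equiv.subtypeEquivRight fun t => ?_)
      rw [and_true]
      exact tp_iff L hLSQ hD h₀ t
    rw [h4, h1]
    exact Nat.card_congr (Equiv.subtypeEquivRight fun τ => ⟨fun h => h.1, fun h => ⟨h, trivial⟩⟩)
  rw [h3, card_div hD, ← card_pf L hD]
  rw [Fintype.card_fin] at h2
  calc _ = (Nat.card {τ : (nD T (D : ℤ)).primeFactors → Fin n → ZMod 2 //
      lbs (fun p : (nD T (D : ℤ)).primeFactors => lbl T p) τ = (fun i => (clD T (t₀ i)).2)} *
      2 ^ (n * (T.card + 1))) * 2 ^ (n * (1 + (T.filter fun l => l ∣ D).card)) := by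
        rw [mul_assoc, ← pow_add]
        congr 2
        ring
    _ = 2 ^ (n * (nD T (D : ℤ)).primeFactors.card) *
        2 ^ (n * (1 + (T.filter fun l => l ∣ D).card)) := by rw [h2]
    _ = _ := by
      rw [← pow_add, ← pow_succ', ← pow_mul]
      congr 1
      ring

/-- the class is not empty if and only if the bad primes of the representatives divide `D` -/
theorem tp_ne (hLSQ : S_LSQ) {n : ℕ} {D : ℕ} (hD : Squarefree D) (hφ : Lbd T D)
    {t₀ : Fin n → ℤ} (h₀ : ∀ i, Squarefree (t₀ i)) :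
    (Tp T t₀ D).Nonempty ↔ ∀ i, ∀ l ∈ T, (l : ℤ) ∣ t₀ i → l ∣ D := by
  constructor
  · rintro ⟨t, ht⟩ i
    rw [← uo_dvd L hD (h₀ i)]
    by_contra hc
    exact no_tup L hD (fun i => clD T (t₀ i)) (fun h => hc (h i)) t ((tp_iff L hLSQ hD h₀ t).1 ht)
  · intro h
    have h1 := tp_card L hLSQ hD hφ h₀ h
    have h2 : 0 < (2 * D.divisors.card) ^ n := by
      have : 0 < D.divisors.card := Finset.card_pos.2 ⟨1, Nat.one_mem_divisors.2 hD.ne_zero⟩
      positivity
    rw [← h1] at h2
    exact Set.nonempty_of_ncard_ne_zero (Nat.pos_of_mul_pos_right h2).ne'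

end Q44.LD
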