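import Pool.Agent.Q44.LD.ClsM
import Pool.Agent.Q44.LD.StmC

/-!
# Project LD: the explicit families
-/

set_option autoImplicit false
set_option linter.unusedSectionVars false
set_option linter.unusedVariables false

open scoped Classical

namespace Q44.LD

open Finset Module Filter
open Pool.Agent.Y703.CQ (nr)
open Pool.Agent.TH344.JG (LocJ SelJ PR df)
open Pool.Agent.Y723.PT (tw)
open Q44.JQ hiding cnt
open Q44.JQ.W Q44.JQ.M Q44.JQ.X
open Q155.NL (Alm alm_mono alm_finset)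
open Pool.Agent.TH841.SH.D (Sha)
open Pool.Agent.Y667.SX (Sel2H)

/-- the families with forms and explicit hypotheses -/
structure Ef (κ N : Type) where
  a : κ → Fin 3 → ℤ
  ha : ∀ k, Function.Injective (a k)
  h0 : ∀ k, a k 0 + a k 1 + a k 2 = 0
  c4 : ∀ k i j l, i ≠ j → i ≠ l → j ≠ l → ∀ s : ℤ, (a k i - a k j) * (a k i - a k l) ≠ s ^ 2
  I : κ → N → ZMod 2
  I0 : ∀ k, I k ≠ 0
  ne : ∀ k l, k ≠ l → I k = I l → ∀ σ : Equiv.Perm (Fin 3), ∃ i j, i ≠ j ∧
    ∀ s : ℤ, (a k i - a k j) * (a l (σ i) - a l (σ j)) ≠ s ^ 2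
  T : Finset ℕ
  hT : TS T
  sup : ∀ k i j, i ≠ j → ∀ p : ℕ, p.Prime → (p : ℤ) ∣ a k i - a k j → p ∈ T

variable {κ N : Type} [Fintype κ] [Fintype N] (E : Ef κ N)

/-- the curves -/
def Ef.cr (k : κ) : Cr E.T where
  g := 1
  hg := le_rfl
  a := E.a k
  inj := E.ha k
  supp := E.sup k

theorem Ef.ne0 (k : κ) {i j : Fin 3} (h : i ≠ j) : E.a k i - E.a k j ≠ 0 :=
  sub_ne_zero.2 fun h' => h (E.ha k h')

/-- the data -/
noncomputable def Ef.Gx (hB : S_IRRB) (L : LB E.T) : Gx E.T κ N where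
  c := E.cr
  I := E.I
  I0 := E.I0
  g1 := fun _ => rfl
  irr := fun k => by
    refine hB E.T (E.cr k) rfl ?_
    intro i j l hij hil hjl hct
    have h1 : (ct ((E.a k i - E.a k j) * (E.a k i - E.a k l)) : Option E.T → ZMod 2) = 0 := by
      rw [L.ct_mul _ _ (E.ne0 k hij) (E.ne0 k hil)]
      have : (ct (E.a k i - E.a k j) : Option E.T → ZMod 2) = ct (E.a k i - E.a k l) := hct
      rw [this]
      exact add_self_lab _
    obtain ⟨s, hs⟩ := sq_of_ct L (mul_ne_zero (E.ne0 k hij) (E.ne0 k hil)) (fun p hp hd => by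
      rcases (Nat.prime_iff_prime_int.1 hp).dvd_or_dvd hd with h | h
      · exact E.sup k i j hij p hp h
      · exact E.sup k i l hil p hp h) h1
    exact E.c4 k i j l hij hil hjl s hs
  ne := fun k l hkl hI => by
    rintro ⟨σ, hσ⟩
    obtain ⟨i, j, hij, h⟩ := E.ne k l hkl hI σ
    have hij' : σ i ≠ σ j := fun h' => hij (σ.injective h')
    have h1 : (ct ((E.a k i - E.a k j) * (E.a l (σ i) - E.a l (σ j))) : Option E.T → ZMod 2) = 0 := by
      rw [L.ct_mul _ _ (E.ne0 k hij) (E.ne0 l hij')]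
      have : (ct (E.a k i - E.a k j) : Option E.T → ZMod 2) = ct (E.a l (σ i) - E.a l (σ j)) :=
        hσ i j hij
      rw [this]
      exact add_self_lab _
    obtain ⟨s, hs⟩ := sq_of_ct L (mul_ne_zero (E.ne0 k hij) (E.ne0 l hij')) (fun p hp hd => by
      rcases (Nat.prime_iff_prime_int.1 hp).dvd_or_dvd hd with h | h
      · exact E.sup k i j hij p hp h
      · exact E.sup l (σ i) (σ j) hij' p hp h) h1
    exact h s hs

/-- the facts -/
structure FactsZ : Prop extends FactsY where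
  divm : S_DIVM
  uni : S_UNI

/-! ### The Selmer ranks -/

variable {E} {L : LB E.T} {hB : S_IRRB}

/-- a squarefree integer as the integer of a family of primes -/
theorem tt_of {T : Finset ℕ} (L : LB T) {t : ℤ} (ht : Squarefree t) {S : Finset ℕ}
    (hS : (nD T t).primeFactors ⊆ S) :
    tt (ct t : Option T → ZMod 2) (fun p : S => if (p : ℕ) ∈ (nD T t).primeFactors
      then (1 : ZMod 2) else 0) = t := by
  obtain ⟨t1, t2, t3⟩ := L.dec ht
  have h1 : acS (fun p : S => if (p : ℕ) ∈ (nD T t).primeFactors then (1 : ZMod 2) else 0) =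
      (nD T t).primeFactors := by
    ext p
    rw [mem_acS]
    constructor
    · rintro ⟨h, h'⟩
      by_contra hc
      exact h' (if_neg hc)
    · intro h
      refine ⟨hS h, ?_⟩
      show (if p ∈ (nD T t).primeFactors then (1 : ZMod 2) else 0) ≠ 0
      rw [if_pos h]
      exact one_ne_zero
  rw [tt_eq, h1, Nat.prod_primeFactors_of_squarefree t2]
  exact t1.symm

theorem nD_prime {T : Finset ℕ} (L : LB T) {t : ℤ} (ht : Squarefree t) :
    ∀ p ∈ (nD T t).primeFactors, p.Prime ∧ p ∉ T := by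
  obtain ⟨g1, g2, g3⟩ := L.dec ht
  exact fun p hp => ⟨Nat.prime_of_mem_primeFactors hp, fun h =>
    g3 p h (Nat.dvd_of_mem_primeFactors hp)⟩

/-- an integer different from zero is a squarefree integer times a square -/
theorem sq_dec {D : ℤ} (hD : D ≠ 0) : ∃ q w : ℤ, Squarefree q ∧ w ≠ 0 ∧ D = q * w ^ 2 := by
  obtain ⟨a, b, h1, h2⟩ := Nat.sq_mul_squarefree D.natAbs
  have hb : b ≠ 0 := by
    rintro rfl
    rw [zero_pow (by norm_num), zero_mul] at h1
    exact hD (Int.natAbs_eq_zero.1 h1.symm)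
  refine ⟨D.sign * a, b, ?_, Int.natCast_ne_zero.2 hb, ?_⟩
  · rw [← Int.squarefree_natAbs, Int.natAbs_mul, Int.natAbs_sign_of_ne_zero hD, one_mul,
      Int.natAbs_natCast]
    exact h2
  · have h3 : ((b : ℤ)) ^ 2 * a = D.natAbs := by exact_mod_cast h1
    calc D = D.sign * (D.natAbs : ℤ) := (Int.sign_mul_natAbs D).symm
      _ = _ := by
        rw [← h3]
        ring

/-- the facts on the twists over the rationals -/
theorem fct (P : (E.Gx hB L).Lo L) (hELL : S_ELL) (k : κ) :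
    ∀ D : ℤ, D ≠ 0 → (SelJ (tw D (E.a k))).ncard = 2 ^ (2 + wr (E.a k) D) ∧
      Finite (Sel2H (cv (tw D (E.a k)))) ∧
      Nat.card (Sel2H (cv (tw D (E.a k)))) = 2 ^ (2 + wr (E.a k) D) ∧
      Finite {x : Sha (cv (tw D (E.a k))) // x + x = 0} ∧
      2 ^ Module.finrank ℤ (cv (tw D (E.a k))).toAffine.Point *
        Nat.card {x : Sha (cv (tw D (E.a k))) // x + x = 0} = 2 ^ wr (E.a k) D := by
  intro D hD
  obtain ⟨q, w, hq, hw, he⟩ := sq_dec hD
  have h1 := P.sel1 (nD_prime L hq) k (ct q) (fun p : (nD E.T q).primeFactors =>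
    if (p : ℕ) ∈ (nD E.T q).primeFactors then (1 : ZMod 2) else 0) _ (fun x => Iff.rfl)
  rw [tt_of L hq (Finset.Subset.refl _)] at h1
  have h2 : SelJ (tw D (E.a k)) = SelJ (tw q (E.a k)) := by
    rw [he]
    exact selJ_sq hw
  have h3 : (SelJ (tw D (E.a k))).Finite := by
    rw [h2]
    exact h1.1
  have h4 : ∃ d, (SelJ (tw D (E.a k))).ncard = 2 ^ d := by
    rw [h2]
    exact ⟨_, h1.2⟩
  obtain ⟨d, hd⟩ := h4
  obtain ⟨r, b1, b2, b3, b4, b5⟩ := sel_eq hELL (tw_sum (E.h0 k) D)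
    (Pool.Agent.Y723.PT.tw_inj hD (E.ha k)) h3 hd
  have b6 : wr (E.a k) D = r := sr_eq b3
  rw [b6]
  exact ⟨by rw [hd, b1], b2, b3, b4, b5⟩

/-- the Selmer ranks of the tuple -/
noncomputable def Ef.w (E : Ef κ N) (t : N → ℤ) (k : κ) : ℕ := wr (E.a k) (pf (E.I k) t)

theorem pf_ne {J : N → ZMod 2} {t : N → ℤ} (ht : ∀ i, t i ≠ 0) : pf J t ≠ 0 := by
  unfold pf
  refine Finset.prod_ne_zero_iff.2 fun i _ => ?_
  split_ifs
  · exact one_ne_zero
  · exact ht i

/-- the parity of the Selmer ranks depends on the class only -/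
theorem par_tup (P : (E.Gx hB L).Lo L) (hELL : S_ELL) (hPAR0 : S_PAR0) {t : N → ℤ}
    (ht : ∀ i, Squarefree (t i)) {x : N → Cl E.T} (hx : ∀ i, clD E.T (t i) = x i) (k : κ) :
    ((E.w t k : ℕ) : ZMod 2) = P.pi x k := by
  set S : Finset ℕ := univ.biUnion fun i => (nD E.T (t i)).primeFactors with hS
  have hSp : ∀ p ∈ S, p.Prime ∧ p ∉ E.T := by
    intro p hp
    obtain ⟨i, -, hp⟩ := Finset.mem_biUnion.1 hp
    exact nD_prime L (ht i) p hp
  have hsub : ∀ i, (nD E.T (t i)).primeFactors ⊆ S := fun i =>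
    Finset.subset_biUnion_of_mem (fun i => (nD E.T (t i)).primeFactors) (mem_univ i)
  obtain ⟨τ, hτ⟩ : ∃ τ : S → N → ZMod 2, ∀ p i, τ p i =
      if (p : ℕ) ∈ (nD E.T (t i)).primeFactors then (1 : ZMod 2) else 0 := ⟨_, fun _ _ => rfl⟩
  have h1 : ∀ i, tt (x i).1 (fun p => τ p i) = t i := by
    intro i
    have h2 : (fun p : S => τ p i) = fun p : S => if (p : ℕ) ∈ (nD E.T (t i)).primeFactors
        then (1 : ZMod 2) else 0 := funext fun p => hτ p i
    rw [h2, ← hx i]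
    exact tt_of L (ht i) (hsub i)
  have h2 : lbs (fun p : S => lbl E.T p) τ = fun i => (x i).2 := by
    funext i
    have h3 := (cl_tt L hSp (x i).1 fun p => τ p i).2.2
    rw [h1 i, hx i] at h3
    exact (congrArg Prod.snd h3).symm
  obtain ⟨Q, hQ⟩ : ∃ Q : S → Prop, ∀ y, Q y ↔ (∑ i, (E.Gx hB L).I k i * τ y i) ≠ 0 :=
    ⟨_, fun _ => Iff.rfl⟩
  have h3 := P.sel2 hSp k (fun i => (x i).1) τ Q hQ
  rw [h2] at h3
  have h4 : (fun i => tt (x i).1 fun p => τ p i) = t := funext h1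
  have h5 : (SelJ (tw (pf (E.I k) t) (E.a k))).ncard = 2 ^ finrank (ZMod 2)
      (Sel (P.d k ((E.Gx hB L).gf x k) ((E.Gx hB L).rf x k))
        (fun a b : {y : S // Q y} => nr (a : S) (b : S))
        (fun a => lbl E.T (a : S))) := by
    have h6 := h3.2
    rw [h4] at h6
    exact h6
  have hne : pf (E.I k) t ≠ 0 := pf_ne fun i => (ht i).ne_zero
  rw [(fct P hELL k _ hne).1] at h5
  have h6 := Nat.pow_right_injective (le_refl 2) h5
  have h7 := P.par hPAR0 hSp k ((E.Gx hB L).gf x k) ((E.Gx hB L).rf x k)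
    Q
  have h8 : ((2 + wr (E.a k) (pf (E.I k) t) : ℕ) : ZMod 2) = P.pi x k := by
    rw [h6]
    exact h7
  rw [Nat.cast_add] at h8
  have : ((2 : ℕ) : ZMod 2) = 0 := by decide
  rw [this, zero_add] at h8
  exact h8

end Q44.LD
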