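import Pool.Agent.Q44.JQ.X.Facts
import Pool.Agent.Q44.LD.Ex
import Pool.Agent.Q182.LD.DIVM
import Pool.Agent.Q58.LD.COL2
import Pool.Agent.Q58.LD.PROBF
import Pool.Agent.Q203.LD.UNL
import Pool.Agent.Q234.LD.NF

/-!
# Project LD: the facts proved by the members of the project
-/

set_option autoImplicit false

namespace Q44.LD.F

open Q44.JQ Q44.LD

theorem lamf : S_LAMF :=
  Pool.Agent.Q182.LD.t_LAMF Q58.LD.t_PROBF Pool.Agent.Q234.LD.t_NF Pool.Agent.Q203.LD.t_UNL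
    Q44.JQ.F.lam2 Q182.JQ.t_PROB Pool.Agent.Q87.JQ.t_NMAX Pool.Agent.Q299.JQ.t_ORT Q44.JQ.F.eu

theorem divm (h : S_CRD) : S_DIVM :=
  Pool.Agent.Q182.LD.t_DIVM lamf Q44.JQ.F.lam2 Pool.Agent.Q225.JQ.t_SS2 Pool.Agent.Q81.JQ.t_CNT
    Pool.Agent.Q81.JQ.t_PI Q58.LD.t_COL2 h

end Q44.LD.F
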