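import Pool.Agent.Q44.LD.Num

/-!
# Integrals for the product of the laws
-/

set_option autoImplicit false
set_option linter.unusedSectionVars false

open scoped Classical Topology

namespace Q44.LD

open Finset Filter
open Pool.Agent.Q269.MF (bet)
open Q44.JQ Q44.JQ.M Q44.JQ.X

variable {κ κ' : Type} [Fintype κ] [Fintype κ']

theorem tsum_reindex (σ : κ ≃ κ') (c : κ' → ZMod 2) (f : (κ → ℕ) → ℝ) :
    ∑' e : κ' → ℕ, f (fun k => e (σ k)) * ∏ k', lawc (c k') (e k') =
      ∑' e : κ → ℕ, f e * ∏ k, lawc (c (σ k)) (e k) := by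
  rw [← (Equiv.arrowCongr σ (Equiv.refl ℕ)).tsum_eq]
  refine tsum_congr fun e => ?_
  congr 1
  · congr 1
    funext k
    show e (σ.symm (σ k)) = e k
    rw [σ.symm_apply_apply]
  · rw [← Equiv.prod_comp σ]
    refine Finset.prod_congr rfl fun k _ => ?_
    show lawc (c (σ k)) (e (σ.symm (σ k))) = _
    rw [σ.symm_apply_apply]

theorem hasSum_prodg {f : κ → ℕ → ℝ} (h0 : ∀ j e, 0 ≤ f j e) {s : κ → ℝ} (hs : ∀ j, HasSum (f j) (s j))
    (hp : ∀ j, 0 < s j) : HasSum (fun e : κ → ℕ => ∏ j, f j (e j)) (∏ j, s j) := by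
  have h1 := (hasSum_prod (f := fun j e => f j e / s j) (fun j e => div_nonneg (h0 j e) (hp j).le)
    fun j => by
      have := (hs j).div_const (s j)
      rwa [div_self (hp j).ne'] at this).mul_left (∏ j, s j)
  rw [mul_one] at h1
  have h2 : (fun e : κ → ℕ => ∏ j, f j (e j)) = fun e => (∏ j, s j) * ∏ j, f j (e j) / s j := by
    funext e
    rw [Finset.prod_div_distrib, mul_div_cancel₀]
    exact Finset.prod_ne_zero_iff.2 fun j _ => (hp j).ne'
  rw [h2]
  exact h1

/-- the probability of zero -/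
theorem tsum_z (c : κ → ZMod 2) :
    ∑' e : κ → ℕ, (if ∀ k, e k = 0 then (1 : ℝ) else 0) * ∏ k, lawc (c k) (e k) =
      if ∀ k, c k = 0 then bet ^ Fintype.card κ else 0 := by
  rw [tsum_eq_single 0]
  · rw [if_pos (show ∀ k : κ, (0 : κ → ℕ) k = 0 from fun k => rfl), one_mul]
    have h1 : ∀ k, lawc (c k) ((0 : κ → ℕ) k) = if c k = 0 then bet else 0 := by
      intro k
      show lawc (c k) 0 = _
      rw [lawc_ce, ce_vals.1, mul_one]
      by_cases h : c k = 0
      · rw [h]
        rfl
      · rw [if_neg h, if_neg fun h' => h h'.symm]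
    rw [Finset.prod_congr rfl fun k _ => h1 k]
    split_ifs with h
    · rw [Finset.prod_congr rfl fun k _ => if_pos (h k), Finset.prod_const, card_univ]
    · push Not at h
      obtain ⟨k, hk⟩ := h
      exact Finset.prod_eq_zero (mem_univ k) (if_neg hk)
  · intro e he
    have h1 : ¬ ∀ k, e k = 0 := fun h => he (funext h)
    rw [if_neg h1, zero_mul]

theorem mom_pos (j : ℕ) : (0 : ℝ) < ∏ i ∈ range j, (1 + (2 : ℝ) ^ (i + 1)) :=
  Finset.prod_pos fun i _ => by positivity

/-- the exponential moments -/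
theorem hasSum_ex (c : κ → ZMod 2) (j : ℕ) :
    HasSum (fun e : κ → ℕ => (2 : ℝ) ^ (j * ∑ k, e k) * ∏ k, lawc (c k) (e k))
      ((∏ i ∈ range j, (1 + (2 : ℝ) ^ (i + 1))) ^ Fintype.card κ) := by
  have h1 := hasSum_prodg (κ := κ) (f := fun k e => lawc (c k) e * ((2 : ℝ) ^ e) ^ j)
    (fun k e => mul_nonneg (lawc_nonneg _ _) (by positivity)) (fun k => mom_law (c k) j)
    fun k => mom_pos j
  rw [Finset.prod_const, card_univ] at h1
  have h2 : (fun e : κ → ℕ => (2 : ℝ) ^ (j * ∑ k, e k) * ∏ k, lawc (c k) (e k)) =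
      fun e => ∏ k, lawc (c k) (e k) * ((2 : ℝ) ^ e k) ^ j := by
    funext e
    rw [Finset.prod_mul_distrib, mul_comm]
    congr 1
    rw [Finset.prod_pow, Finset.prod_pow_eq_pow_sum, ← pow_mul, mul_comm]
  rw [h2]
  exact h1

theorem mc_pos (c : ZMod 2) : 0 < mc c := by
  have h1 : ∀ e : ℕ, 0 ≤ lawc c e * e := fun e => mul_nonneg (lawc_nonneg _ _) (Nat.cast_nonneg _)
  obtain ⟨z0, z1, z2, -⟩ := zm
  have hz : ∀ x : ZMod 2, x = 0 ∨ x = 1 := by decide
  have h := hz c
  rcases h with rfl | rfl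
  · refine (summable_mc 0).tsum_pos h1 2 ?_
    rw [lawc_ce, z2, if_pos rfl]
    have := bet_pos
    have := ve_pos 2
    positivity
  · refine (summable_mc 1).tsum_pos h1 1 ?_
    rw [lawc_ce, z1, if_pos rfl]
    have := bet_pos
    have := ve_pos 1
    positivity

/-- the mean of the sum -/
theorem hasSum_mn (c : κ → ZMod 2) :
    HasSum (fun e : κ → ℕ => ((∑ k, e k : ℕ) : ℝ) * ∏ k, lawc (c k) (e k)) (∑ k, mc (c k)) := by
  have h1 : ∀ k : κ, HasSum (fun e : κ → ℕ => (e k : ℝ) * ∏ l, lawc (c l) (e l)) (mc (c k)) := by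
    intro k
    have h2 := hasSum_prodg (κ := κ) (f := fun l e => if l = k then lawc (c l) e * e else lawc (c l) e)
      (s := fun l => if l = k then mc (c l) else 1)
      (fun l e => by
        split_ifs
        · exact mul_nonneg (lawc_nonneg _ _) (Nat.cast_nonneg _)
        · exact lawc_nonneg _ _)
      (fun l => by
        by_cases h : l = k
        · simp only [if_pos h]
          exact (summable_mc (c l)).hasSum
        · simp only [if_neg h]
          exact hasSum_lawc (c l))
      (fun l => by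
        split_ifs
        · exact mc_pos _
        · exact one_pos)
    rw [Finset.prod_ite_eq' univ k, if_pos (mem_univ k)] at h2
    have h3 : (fun e : κ → ℕ => (e k : ℝ) * ∏ l, lawc (c l) (e l)) = fun e =>
        ∏ l, if l = k then lawc (c l) (e l) * (e l : ℝ) else lawc (c l) (e l) := by
      funext e
      have h4 : ∀ l, (if l = k then lawc (c l) (e l) * (e l : ℝ) else lawc (c l) (e l)) =
          (if l = k then (e l : ℝ) else 1) * lawc (c l) (e l) := by
        intro l
        split_ifs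
        · rw [mul_comm]
        · rw [one_mul]
      rw [Finset.prod_congr rfl fun l _ => h4 l, Finset.prod_mul_distrib,
        Finset.prod_ite_eq' univ k, if_pos (mem_univ k)]
    rw [h3]
    exact h2
  have h3 := hasSum_sum fun k (_ : k ∈ (univ : Finset κ)) => h1 k
  have h4 : (fun e : κ → ℕ => ((∑ k, e k : ℕ) : ℝ) * ∏ k, lawc (c k) (e k)) =
      fun e => ∑ k, (e k : ℝ) * ∏ l, lawc (c l) (e l) := by
    funext e
    rw [← Finset.sum_mul]
    push_cast
    rfl
  rw [h4]
  exact h3

end Q44.LD
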