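import Pool.Agent.Q44.LD.One
import Pool.Agent.Q44.LD.Lw

/-!
# Project LD: families with an arbitrary finite set of indices
-/

set_option autoImplicit false
set_option linter.unusedSectionVars false
set_option linter.unusedVariables false

open scoped Classical

namespace Q44.LD

open Finset Module Filter Topology
open Q44.JQ hiding cnt
open Q44.JQ.W Q44.JQ.M Q44.JQ.X
open Pool.Agent.Q269.MF (bet)

section general

variable {κ : Type} [Fintype κ] {n : ℕ}

/-- the vector of the Selmer ranks -/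
noncomputable def wk (a : κ → Fin 3 → ℤ) (I : κ → Finset (Fin n)) (t : Fin n → ℤ) (k : κ) :
    ℕ := wr (a k) (∏ i ∈ I k, t i)

/-- the statement for one integer `D` -/
def Gk (a : κ → Fin 3 → ℤ) (I : κ → Finset (Fin n)) (S : Finset ℕ) (C ε : ℝ) (D : ℕ) : Prop :=
  ∀ t₀ : Fin n → ℤ, (∀ i, Squarefree (t₀ i)) → (Tp S t₀ D).Nonempty → ∀ f : (κ → ℕ) → ℝ,
    (∀ e, |f e| ≤ C ^ (1 + ∑ k, e k)) → |mean (Tp S t₀ D) (fun t => f (wk a I t)) -
      ∑' e : κ → ℕ, f e * ∏ k, lawc ((wk a I t₀ k : ℕ) : ZMod 2) (e k)| ≤ ε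

theorem gk_of {m : ℕ} (σ : κ ≃ Fin m) {a : κ → Fin 3 → ℤ} {I : κ → Finset (Fin n)} {S : Finset ℕ}
    {C ε : ℝ} {D : ℕ} (h : Gd (fun k => a (σ.symm k)) (fun k => I (σ.symm k)) S C ε D) :
    Gk a I S C ε D := by
  intro t₀ h₀ hne f hf
  have h1 := h t₀ h₀ hne (fun e => f fun T => e (σ T)) fun e => by
    refine (hf _).trans (le_of_eq ?_)
    rw [Equiv.sum_comp σ e]
  rw [tsum_reindex σ] at h1
  have h4 : ∀ (t : Fin n → ℤ) (k : κ), wv (fun k => a (σ.symm k)) (fun k => I (σ.symm k)) t (σ k) =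
      wk a I t k := by
    intro t k
    show wr (a (σ.symm (σ k))) (∏ i ∈ I (σ.symm (σ k)), t i) = wk a I t k
    rw [Equiv.symm_apply_apply]
    rfl
  have h2 : (fun t : Fin n → ℤ => f fun T => wv (fun k => a (σ.symm k))
      (fun k => I (σ.symm k)) t (σ T)) = fun t => f (wk a I t) := by
    funext t
    congr 1
    funext T
    exact h4 t T
  have h3 : ∀ e : κ → ℕ, ∏ T, lawc ((wv (fun k => a (σ.symm k))
      (fun k => I (σ.symm k)) t₀ (σ T) : ℕ) : ZMod 2) (e T) =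
      ∏ T, lawc ((wk a I t₀ T : ℕ) : ZMod 2) (e T) := by
    intro e
    refine Finset.prod_congr rfl fun T _ => ?_
    rw [h4]
  rw [h2, tsum_congr fun e => by rw [h3 e]] at h1
  exact h1

end general

/-- the data of one curve -/
structure Vone (a : Fin 3 → ℤ) (S : Finset ℕ) : Prop where
  ha : Function.Injective a
  h0 : a 0 + a 1 + a 2 = 0
  c4 : ∀ i j l, i ≠ j → i ≠ l → j ≠ l → ∀ s : ℤ, (a i - a j) * (a i - a l) ≠ s ^ 2
  pr : ∀ p ∈ S, p.Prime
  two : 2 ∈ S
  sup : ∀ i j, i ≠ j → ∀ p : ℕ, p.Prime → (p : ℤ) ∣ a i - a j → p ∈ S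

/-- the nonempty subsets -/
abbrev Ne (n : ℕ) : Type := {T : Finset (Fin n) // T.Nonempty}

theorem card_Ne (n : ℕ) : Fintype.card (Ne n) = 2 ^ n - 1 := by
  rw [Fintype.card_subtype]
  have h1 : (univ.filter fun T : Finset (Fin n) => T.Nonempty) = univ.erase ∅ := by
    ext T
    rw [mem_filter, mem_erase, Finset.nonempty_iff_ne_empty]
    tauto
  rw [h1, card_erase_of_mem (mem_univ _), card_univ, Fintype.card_finset, Fintype.card_fin]

/-- the numbering of the nonempty subsets -/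
noncomputable def nbf (n : ℕ) : Ne n ≃ Fin (2 ^ n - 1) := Fintype.equivFinOfCardEq (card_Ne n)

theorem Vone.val {a : Fin 3 → ℤ} {S : Finset ℕ} (h : Vone a S) (n : ℕ) :
    Val (fun _ : Fin (2 ^ n - 1) => a) (fun k => ((nbf n).symm k).1) S where
  ha := fun _ => h.ha
  h0 := fun _ => h.h0
  c4 := fun _ => h.c4
  I0 := fun k => ((nbf n).symm k).2
  ne := fun k l hkl hI => absurd ((nbf n).symm.injective (Subtype.ext hI)) hkl
  pr := h.pr
  two := h.two
  sup := fun _ => h.sup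

/-- the case of one curve and one form -/
theorem Vone.val1 {a : Fin 3 → ℤ} {S : Finset ℕ} (h : Vone a S) :
    Val (fun _ : Fin 1 => a) (fun _ => ({0} : Finset (Fin 1))) S where
  ha := fun _ => h.ha
  h0 := fun _ => h.h0
  c4 := fun _ => h.c4
  I0 := fun k => Finset.singleton_nonempty _
  ne := fun k l hkl hI => absurd (Subsingleton.elim k l) hkl
  pr := h.pr
  two := h.two
  sup := fun _ => h.sup

/-- the vector of the Selmer ranks of the nontrivial twists for the multiquadratic field -/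
noncomputable def wT {n : ℕ} (a : Fin 3 → ℤ) (t : Fin n → ℤ) (T : Ne n) : ℕ :=
  wr a (∏ i ∈ T.1, t i)

/-- the statement for one integer `D` -/
def Gm (a : Fin 3 → ℤ) (n : ℕ) (S : Finset ℕ) (C ε : ℝ) (D : ℕ) : Prop :=
  Gk (fun _ : Ne n => a) (fun T => T.1) S C ε D

theorem gm_of {a : Fin 3 → ℤ} {n : ℕ} {S : Finset ℕ} {C ε : ℝ} {D : ℕ}
    (h : Gd (fun _ : Fin (2 ^ n - 1) => a) (fun k => ((nbf n).symm k).1) S C ε D) : Gm a n S C ε D :=
  gk_of (nbf n) h

end Q44.LD
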