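import Pool.Agent.Q44.LD.Sgn
import Pool.Agent.Q44.LD.Fam

/-!
# Project LD: the parity of the Selmer rank changes with the sign, for integers
-/

set_option autoImplicit false
set_option linter.unusedSectionVars false
set_option linter.unusedVariables false

open scoped Classical

namespace Q44.LD

open Finset Module Filter
open Pool.Agent.Y703.CQ (nr)
open Pool.Agent.TH344.JG (LocJ SelJ PR df)
open Pool.Agent.Y723.PT (tw)
open Q44.JQ hiding cnt
open Q44.JQ.W Q44.JQ.M Q44.JQ.X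

theorem Gx.exLo2 {T : Finset ℕ} {κ N : Type} [Fintype κ] [Fintype N] (G : Gx T κ N) (L : LB T)
    (hARXE : S_ARXE) : ∃ P : G.Lo L, ∀ γ k ρ y, y ∈ P.𝓛 γ k ρ ↔ (G.cu L γ k).Lc ℝ ρ y ∧
      ∀ p ∈ T, (G.cu L γ k).Lp p ρ y := by
  have h1 := fun (γ : Option T → ZMod 2) (k : κ) => hARXE T L.pr L.two (G.cu L γ k) (G.g1 k)
  choose 𝓛 hO hm hS using h1
  exact ⟨⟨𝓛, hO, hS⟩, hm⟩

/-- the facts on the sign -/
structure FactsS : Prop where
  lag3 : S_LAG3
  rsgn : S_RSGN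
  neg : S_NEG
  loci : S_LOCI

/-- the class with the other sign -/
def flip {S : Finset ℕ} (x : Cl S) : Cl S := (x.1 + en S, x.2 + en S)

theorem flip_flip {S : Finset ℕ} (x : Cl S) : flip (flip x) = x := by
  have key : ∀ a b : ZMod 2, a + b + b = a := by decide
  refine Prod.ext (funext fun o => ?_) (funext fun o => ?_)
  · exact key _ _
  · exact key _ _

/-- **The parity changes with the sign.** -/
theorem par_flip (H : FactsZ) (HS : FactsS) {a : Fin 3 → ℤ} {S : Finset ℕ} (hv : Vone a S) {d d' : ℤ}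
    (hd : Squarefree d) (hd' : Squarefree d') (h : clD S d' = flip (clD S d)) :
    ((wr a d' : ℕ) : ZMod 2) = (wr a d : ℕ) + 1 := by
  have L := LB.of H.lbl hv.val1.E.hT
  obtain ⟨P, hm⟩ := (hv.val1.E.Gx H.irrB L).exLo2 L H.arxe
  have h1 : ∀ z : ℤ, Squarefree z → ((wr a z : ℕ) : ZMod 2) =
      ((finrank (ZMod 2) (P.d 0 (clD S z).1 (clD S z).2).pm : ℕ) : ZMod 2) := by
    intro z hz
    have h2 := par_tup P H.ell H.par0 (t := fun _ => z) (fun _ => hz) (x := fun _ => clD S z)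
      (fun _ => rfl) 0
    rw [w_eq] at h2
    have h3 : wv (fun _ : Fin 1 => a) (fun _ => ({0} : Finset (Fin 1))) (fun _ => z) 0 = wr a z := by
      unfold wv
      rw [Finset.prod_singleton]
    rw [h3] at h2
    rw [h2]
    have h4 : ∀ v : Option S → ZMod 2,
        ∑ i : Fin 1, (hv.val1.E.Gx H.irrB L).I 0 i • v = v := by
      intro v
      rw [Fin.sum_univ_one]
      show ind ({0} : Finset (Fin 1)) 0 • v = v
      have h5 : ind ({0} : Finset (Fin 1)) 0 = 1 := if_pos (Finset.mem_singleton_self _)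
      rw [h5, one_smul]
    have h6 : ∀ γ γ' ρ ρ', γ = γ' → ρ = ρ' → ((finrank (ZMod 2) (P.d 0 γ ρ).pm : ℕ) : ZMod 2) =
        ((finrank (ZMod 2) (P.d 0 γ' ρ').pm : ℕ) : ZMod 2) := by
      rintro γ _ ρ _ rfl rfl
      rfl
    exact h6 _ _ _ _ (h4 _) (h4 _)
  rw [h1 d' hd', h1 d hd, h]
  have h2 := pm_flip L HS.lag3 HS.rsgn HS.neg HS.loci H.omv
    (c := (hv.val1.E.Gx H.irrB L).cu L (clD S d).1 0)
    (c' := (hv.val1.E.Gx H.irrB L).cu L ((clD S d).1 + en S) 0)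
    (crmul_neg _ (uo_en _) _ _ _ _) rfl (ρ := (clD S d).2)
    (𝓛 := P.𝓛 (clD S d).1 0 (clD S d).2)
    (𝓛' := P.𝓛 ((clD S d).1 + en S) 0 ((clD S d).2 + en S))
    (P.ok _ _ _) (P.ok _ _ _) (hm _ _ _) (hm _ _ _)
  have key : ∀ x y : ZMod 2, x = y + 1 → y = x + 1 := by decide
  exact key _ _ h2

end Q44.LD
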