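import Pool.Agent.Q44.LD.Facts
import Pool.Agent.Q44.LD.Sgn2
import Pool.Agent.Q261.LD.LAG3
import Pool.Agent.Q261.LD.RSGN
import Pool.Agent.Q225.LD.NEG

/-!
# Project LD: the facts on the sign
-/

set_option autoImplicit false

namespace Q44.LD.F

theorem factsS : FactsS :=
  ⟨Pool.Agent.Q261.LD.t_LAG3, Pool.Agent.Q261.LD.t_RSGN, Pool.Agent.Q225.LD.t_NEG, Q44.JQ.F.loci⟩

end Q44.LD.F
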