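import Pool.Agent.Q44.LD.Ex

/-!
# Project LD: all functions of the Selmer ranks, for almost all squarefree integers
-/

set_option autoImplicit false
set_option linter.unusedSectionVars false
set_option linter.unusedVariables false

open scoped Classical

namespace Q44.LD

open Finset Module Filter
open Pool.Agent.TH344.JG (LocJ SelJ PR df)
open Pool.Agent.Y723.PT (tw)
open Q44.JQ hiding cnt
open Q44.JQ.W Q44.JQ.M Q44.JQ.X
open Q155.NL (Alm alm_mono alm_finset)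

variable {κ N : Type} [Fintype κ] [Fintype N] {E : Ef κ N} {L : LB E.T} {hB : S_IRRB}

theorem XT_w (P : (E.Gx hB L).Lo L) (hELL : S_ELL) (μ : κ → ℕ) {t : N → ℤ} (ht : ∀ i, t i ≠ 0) :
    XT (E.Gx hB L) μ t = ∏ k, ∏ i ∈ range (μ k), ((2 : ℝ) ^ E.w t k - 2 ^ i) := by
  unfold XT
  refine Finset.prod_congr rfl fun k _ => Finset.prod_congr rfl fun i _ => ?_
  have h1 : (SelJ (tw (pf ((E.Gx hB L).I k) t) ((E.Gx hB L).c k).a)).ncard = 2 ^ (2 + E.w t k) :=
    (fct P hELL k _ (pf_ne ht)).1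
  rw [h1, pow_add]
  push_cast
  congr 1
  ring

theorem inC_ne {T : Finset ℕ} {x : N → Cl T} {D : ℕ} (hD : Squarefree D) {t : N → ℤ}
    (h : InC T x (D : ℤ) t) : ∀ i, t i ≠ 0 := by
  intro i h0
  have := (h i).1
  rw [h0, zero_dvd_iff, Int.natCast_eq_zero] at this
  exact hD.ne_zero this

theorem inC_sq {T : Finset ℕ} {x : N → Cl T} {D : ℕ} (hD : Squarefree D) {t : N → ℤ}
    (h : InC T x (D : ℤ) t) : ∀ i, Squarefree (t i) := fun i =>
  (Int.squarefree_natCast.2 hD).squarefree_of_dvd (h i).1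

/-- the means of the functions of the Selmer ranks over the class `x` of tuples of divisors of `D` -/
def MeanOk (E : Ef κ N) (c : (N → Cl E.T) → κ → ZMod 2) (C ε : ℝ) (D : ℕ) : Prop :=
  ∀ x : N → Cl E.T, ∀ [Fintype {t : N → ℤ // InC E.T x (D : ℤ) t}]
    [Nonempty {t : N → ℤ // InC E.T x (D : ℤ) t}], ∀ f : (κ → ℕ) → ℝ,
    (∀ r, |f r| ≤ C ^ (1 + ∑ k, r k)) →
    |(∑ t : {t : N → ℤ // InC E.T x (D : ℤ) t}, f (E.w t.1)) /
        Fintype.card {t : N → ℤ // InC E.T x (D : ℤ) t} -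
      ∑' r : κ → ℕ, f r * ∏ k, lawc (c x k) (r k)| ≤ ε

/-- **The means of all functions of the Selmer ranks.** -/
theorem Ef.almF (H : FactsZ) (P : (E.Gx hB L).Lo L) {C ε : ℝ} (hC : 1 ≤ C) (hε : 0 < ε) :
    Alm Squarefree (MeanOk E P.pi C ε) := by
  choose M δ hδ hM using fun x : N → Cl E.T => H.uni κ (P.pi x) C ε hC hε
  have h1 : ∀ x : N → Cl E.T, Alm Squarefree fun D : ℕ =>
      ∀ μ ∈ Fintype.piFinset fun _ : κ => range (M x + 1),
      ∀ [Fintype {t : N → ℤ // InC E.T x (D : ℤ) t}],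
        |∑ t : {t : N → ℤ // InC E.T x (D : ℤ) t},
          (XT (E.Gx hB L) μ t.1 - ∏ k, (2 : ℝ) ^ (μ k * (μ k + 1) / 2))| ≤
          δ x * Fintype.card {t : N → ℤ // InC E.T x (D : ℤ) t} := fun x =>
    alm_finset _ fun μ _ => P.almM H.divm H.adj0 H.iso1 H.omv x μ (hδ x)
  refine alm_mono (alm_finset (univ : Finset (N → Cl E.T)) fun x _ => h1 x) fun D hD h => ?_
  intro x iF iN f hf
  have hcard : (0 : ℝ) < Fintype.card {t : N → ℤ // InC E.T x (D : ℤ) t} := by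
    exact_mod_cast Fintype.card_pos
  refine hM x {t : N → ℤ // InC E.T x (D : ℤ) t} (fun t => E.w t.1) ?_ ?_ f hf
  · intro t k
    exact par_tup P H.ell H.par0 (inC_sq hD t.2) (fun i => (t.2 i).2) k
  · intro μ hμ
    have h2 := h x (mem_univ x) μ (Fintype.mem_piFinset.2 fun k =>
      mem_range.2 (Nat.lt_succ_of_le (hμ k)))
    have h3 : ∑ t : {t : N → ℤ // InC E.T x (D : ℤ) t},
        (XT (E.Gx hB L) μ t.1 - ∏ k, (2 : ℝ) ^ (μ k * (μ k + 1) / 2)) =
        ∑ t : {t : N → ℤ // InC E.T x (D : ℤ) t},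
          ∏ k, ∏ i ∈ range (μ k), ((2 : ℝ) ^ E.w t.1 k - 2 ^ i) -
        Fintype.card {t : N → ℤ // InC E.T x (D : ℤ) t} *
          ∏ k, (2 : ℝ) ^ (μ k * (μ k + 1) / 2) := by
      rw [Finset.sum_sub_distrib, Finset.sum_const, nsmul_eq_mul, card_univ]
      congr 1
      exact Finset.sum_congr rfl fun t _ => XT_w P H.ell μ (inC_ne hD t.2)
    rw [h3] at h2
    have h4 : (∑ t : {t : N → ℤ // InC E.T x (D : ℤ) t},
        ∏ k, ∏ i ∈ range (μ k), ((2 : ℝ) ^ E.w t.1 k - 2 ^ i)) /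
          Fintype.card {t : N → ℤ // InC E.T x (D : ℤ) t} -
        ∏ k, (2 : ℝ) ^ (μ k * (μ k + 1) / 2) =
        (∑ t : {t : N → ℤ // InC E.T x (D : ℤ) t},
          ∏ k, ∏ i ∈ range (μ k), ((2 : ℝ) ^ E.w t.1 k - 2 ^ i) -
        Fintype.card {t : N → ℤ // InC E.T x (D : ℤ) t} *
          ∏ k, (2 : ℝ) ^ (μ k * (μ k + 1) / 2)) /
          Fintype.card {t : N → ℤ // InC E.T x (D : ℤ) t} := by
      field_simp
    rw [h4, abs_div, abs_of_pos hcard, div_le_iff₀ hcard]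
    exact h2

end Q44.LD
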