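import Pool.Agent.Q44.LD.Fam
import Pool.Agent.Q44.LD.Base

/-!
# Project LD: multiquadratic fields, for all the tuples of divisors of almost every integer
-/

set_option autoImplicit false
set_option linter.unusedSectionVars false
set_option linter.unusedVariables false

open scoped Classical

namespace Q44.LD

open Finset Module Filter Topology
open Q44.JQ hiding cnt
open Q44.JQ.W Q44.JQ.M Q44.JQ.X
open Pool.Agent.Q269.MF (bet)
open Pool.Agent.TH841.NF (EF Gen)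
open Pool.Agent.TH841.NF.D (HasDiv rk crk Sha)
open Pool.Agent.Y723.QT (F2 Kl)
open Pool.Agent.Y723.PT (tw)

/-! ### Means -/

section means

variable {α : Type} {A : Set α}

theorem mean_mono (hA : A.Finite) {f g : α → ℝ} (h : ∀ t ∈ A, f t ≤ g t) : mean A f ≤ mean A g := by
  unfold mean
  refine div_le_div_of_nonneg_right ?_ (Nat.cast_nonneg _)
  rw [finsum_mem_eq_finite_toFinset_sum _ hA, finsum_mem_eq_finite_toFinset_sum _ hA]
  exact Finset.sum_le_sum fun t ht => h t (hA.mem_toFinset.1 ht)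

theorem mean_add_const (hA : A.Finite) (hne : A.Nonempty) (f : α → ℝ) (c : ℝ) :
    mean A (fun t => c + f t) = c + mean A f := by
  have h0 : (0 : ℝ) < A.ncard := by exact_mod_cast (Set.ncard_pos hA).2 hne
  unfold mean
  rw [finsum_mem_eq_finite_toFinset_sum _ hA, finsum_mem_eq_finite_toFinset_sum _ hA,
    Finset.sum_add_distrib, Finset.sum_const, nsmul_eq_mul, ← Set.ncard_eq_toFinset_card A hA]
  field_simp

theorem mean_ind (hA : A.Finite) (P : α → Prop) [DecidablePred P] :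
    mean A (fun t => if P t then (1 : ℝ) else 0) = ({t ∈ A | P t}.ncard : ℝ) / A.ncard := by
  unfold mean
  congr 1
  rw [finsum_mem_eq_finite_toFinset_sum _ hA, Finset.sum_boole]
  congr 1
  have h1 : ({t ∈ A | P t} : Set α) = (hA.toFinset.filter P : Finset α) := by
    ext t
    rw [Finset.mem_coe, Finset.mem_filter, hA.mem_toFinset]
    rfl
  rw [h1, Set.ncard_coe_finset]

end means

/-! ### The deterministic part -/

theorem fct_one (H : FactsZ) {a : Fin 3 → ℤ} {S : Finset ℕ} (h : Vone a S) : ∀ D : ℤ, D ≠ 0 →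
      Finite (Pool.Agent.Y667.SX.Sel2H (cv (tw D a))) ∧
      Nat.card (Pool.Agent.Y667.SX.Sel2H (cv (tw D a))) = 2 ^ (2 + wr a D) ∧
      Finite {x : Pool.Agent.TH841.SH.D.Sha (cv (tw D a)) // x + x = 0} ∧
      2 ^ Module.finrank ℤ (cv (tw D a)).toAffine.Point *
        Nat.card {x : Pool.Agent.TH841.SH.D.Sha (cv (tw D a)) // x + x = 0} =
          2 ^ wr a D := fct_all H h.val1 0

theorem det_fld (H : FactsZ) {a : Fin 3 → ℤ} {S : Finset ℕ} (h : Vone a S) {D : ℤ} (hD : D ≠ 0)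
    {n : ℕ} {t : Fin n → ℤ} (ht : ∀ i, t i ≠ 0) (F : Type) [Field F] [NumberField F]
    (hF : Gen F t) :
    BddAbove {q | HasDiv (EF (D ^ 2 * cA a) (D ^ 3 * cB a) F) q} ∧
    rk (EF (D ^ 2 * cA a) (D ^ 3 * cB a) F) + crk (EF (D ^ 2 * cA a) (D ^ 3 * cB a) F) ≤
      ∑ T : Finset (Fin n), wr a (D * ∏ i ∈ T, t i) ∧
    ((∀ T : Finset (Fin n), T.Nonempty → wr a (D * ∏ i ∈ T, t i) = 0) →
      rk (EF (D ^ 2 * cA a) (D ^ 3 * cB a) F) = Module.finrank ℤ (cv (tw D a)).toAffine.Point ∧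
      (F2 (Sha (EF (D ^ 2 * cA a) (D ^ 3 * cB a) F)) ↔
        F2 (Pool.Agent.TH841.SH.D.Sha (cv (tw D a))))) ∧
    ((∀ T : Finset (Fin n), wr a (D * ∏ i ∈ T, t i) = 0) →
      Finite (EF (D ^ 2 * cA a) (D ^ 3 * cB a) F).toAffine.Point ∧
      F2 (Sha (EF (D ^ 2 * cA a) (D ^ 3 * cB a) F)) ∧
      Kl (Sha (EF (D ^ 2 * cA a) (D ^ 3 * cB a) F)) n) := by
  have hf : Fct a := fun D hD => (fct_one H h D hD).2
  have h1 := Pool.Agent.Q154.LD.t_FLD a h.ha h.h0 hf n D t hD ht F hF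
  exact ⟨h1.1, h1.2.1, base_stab h.ha h.h0 hf hD ht F hF, h1.2.2⟩

/-- the sum of the Selmer ranks of all the nontrivial twists for the multiquadratic field -/
noncomputable def Rn {n : ℕ} (a : Fin 3 → ℤ) (t : Fin n → ℤ) : ℕ := ∑ T : Ne n, wT a t T

theorem sum_split {n : ℕ} (g : Finset (Fin n) → ℕ) : ∑ T, g T = g ∅ + ∑ T : Ne n, g T.1 := by
  rw [← Finset.add_sum_erase univ g (mem_univ ∅)]
  congr 1
  refine (Finset.sum_subtype _ (fun T => ?_) g)
  rw [mem_erase, Finset.nonempty_iff_ne_empty]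
  exact ⟨fun h => h.1, fun h => ⟨h, mem_univ _⟩⟩

/-! ### The statistical part -/

theorem mc_le (c : ZMod 2) : mc c ≤ 1.3251 := by
  have hz : ∀ x : ZMod 2, x = 0 ∨ x = 1 := by decide
  rcases hz c with rfl | rfl
  · have := mc_zero
    linarith
  · exact mc_one.le

variable {a : Fin 3 → ℤ} {n : ℕ} {S : Finset ℕ} {C ε : ℝ} {D : ℕ}

/-- the law of the sum of the Selmer ranks -/
theorem law_Rn (h : Gm a n S C ε D) {t₀ : Fin n → ℤ} (h₀ : ∀ i, Squarefree (t₀ i))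
    (hne : (Tp S t₀ D).Nonempty) {f : ℕ → ℝ} (hf : ∀ r, |f r| ≤ C ^ (1 + r)) :
    |mean (Tp S t₀ D) (fun t => f (Rn a t)) - ∑' e : Ne n → ℕ, f (∑ T, e T) *
      ∏ T, lawc ((wT a t₀ T : ℕ) : ZMod 2) (e T)| ≤ ε :=
  h t₀ h₀ hne (fun e => f (∑ T, e T)) fun e => hf _

theorem nat_le_pow (r : ℕ) : |(r : ℝ)| ≤ 2 ^ (1 + r) := by
  rw [abs_of_nonneg (Nat.cast_nonneg _)]
  have h1 : r ≤ 2 ^ (1 + r) := by
    have h2 := Nat.lt_two_pow_self (n := 1 + r)
    omega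
  exact_mod_cast h1

theorem mean_Rn (h : Gm a n S C ε D) (hC : 2 ≤ C) {t₀ : Fin n → ℤ} (h₀ : ∀ i, Squarefree (t₀ i))
    (hne : (Tp S t₀ D).Nonempty) : |mean (Tp S t₀ D) (fun t => (Rn a t : ℝ)) -
      ∑ T : Ne n, mc ((wT a t₀ T : ℕ) : ZMod 2)| ≤ ε := by
  have h1 := law_Rn h h₀ hne (f := fun r => (r : ℝ)) fun r =>
    (nat_le_pow r).trans (pow_le_pow_left₀ (by norm_num) hC _)
  rw [(hasSum_mn _).tsum_eq] at h1
  exact h1

theorem sum_mc_le (c : Ne n → ZMod 2) : ∑ T, mc (c T) ≤ 1.3251 * (2 ^ n - 1) := by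
  refine (Finset.sum_le_sum fun T _ => mc_le (c T)).trans (le_of_eq ?_)
  rw [Finset.sum_const, card_univ, card_Ne, nsmul_eq_mul, Nat.cast_sub Nat.one_le_two_pow]
  push_cast
  ring

theorem share_Rn (h : Gm a n S C ε D) (hC : 1 ≤ C) {t₀ : Fin n → ℤ}
    (h₀ : ∀ i, Squarefree (t₀ i)) (hfin : (Tp S t₀ D).Finite)
    (hne : (Tp S t₀ D).Nonempty) (he : ∀ T, ((wT a t₀ T : ℕ) : ZMod 2) = 0) :
    |({t ∈ Tp S t₀ D | Rn a t = 0}.ncard : ℝ) / (Tp S t₀ D).ncard - bet ^ (2 ^ n - 1)| ≤ ε := by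
  have h1 := law_Rn h h₀ hne (f := fun r => if r = 0 then 1 else 0) fun r => by
    have h2 : (1 : ℝ) ≤ C ^ (1 + r) := one_le_pow₀ hC
    split_ifs
    · rw [abs_one]
      exact h2
    · rw [abs_zero]
      linarith
  rw [mean_ind hfin] at h1
  have h3 : ∀ e : Ne n → ℕ, (if ∑ T, e T = 0 then (1 : ℝ) else 0) =
      if ∀ T, e T = 0 then (1 : ℝ) else 0 := by
    intro e
    have : ∑ T, e T = 0 ↔ ∀ T, e T = 0 := by
      rw [Finset.sum_eq_zero_iff]
      exact ⟨fun h T => h T (mem_univ T), fun h T _ => h T⟩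
    by_cases h4 : ∀ T, e T = 0
    · rw [if_pos h4, if_pos (this.2 h4)]
    · rw [if_neg h4, if_neg fun h5 => h4 (this.1 h5)]
  rw [tsum_congr fun e => by rw [h3 e], tsum_z, if_pos he, card_Ne] at h1
  exact h1

theorem mom_Rn (h : Gm a n S C ε D) {j : ℕ} (hC : (2 : ℝ) ^ j ≤ C) {t₀ : Fin n → ℤ}
    (h₀ : ∀ i, Squarefree (t₀ i)) (hne : (Tp S t₀ D).Nonempty) :
    |mean (Tp S t₀ D) (fun t => (2 : ℝ) ^ (j * Rn a t)) -
      (∏ i ∈ range j, (1 + (2 : ℝ) ^ (i + 1))) ^ (2 ^ n - 1)| ≤ ε := by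
  have hj : (1 : ℝ) ≤ 2 ^ j := one_le_pow₀ (by norm_num)
  have h1 := law_Rn h h₀ hne (f := fun r => (2 : ℝ) ^ (j * r)) fun r => by
    rw [abs_of_pos (by positivity), pow_mul]
    refine (pow_le_pow_right₀ hj (Nat.le_add_left r 1)).trans ?_
    exact pow_le_pow_left₀ (by positivity) hC _
  rw [(hasSum_ex _ j).tsum_eq, card_Ne] at h1
  exact h1

end Q44.LD
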