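import Pool.Agent.Q44.LD.Ub
import Pool.Agent.Q44.LD.Fld

/-!
# Project LD: the ranks over the fields of the square roots of the prime divisors
-/

set_option autoImplicit false
set_option linter.unusedSectionVars false
set_option linter.unusedVariables false

open scoped Classical

namespace Q44.LD

open Finset Module Filter Topology
open Q44.JQ hiding cnt
open Q44.JQ.W Q44.JQ.M Q44.JQ.X
open Pool.Agent.Q269.MF (bet)
open Pool.Agent.Q269.SL (law2)
open Pool.Agent.TH841.NF (EF Gen)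
open Pool.Agent.TH841.NF.D (HasDiv rk crk Sha)
open Q155.NL (Alm)

theorem Mdl.fct {a : Fin 3 → ℤ} (H : FactsZ) (ha : Mdl a) : Fct a := by
  obtain ⟨S, hv⟩ := ha.ex
  exact fun D hD => (fct_one H hv D hD).2

/-! ### Laws -/

theorem Jc_id (c : ZMod 2) : Jc (fun e => (e : ℝ)) c = mc c := by
  unfold Jc mc
  exact tsum_congr fun e => mul_comm _ _

theorem id_bd {C : ℝ} (hC : 2 ≤ C) (e : ℕ) : |(e : ℝ)| ≤ C ^ (1 + e) :=
  (nat_le_pow e).trans (pow_le_pow_left₀ (by norm_num) hC _)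

theorem Mu_id : Mu (fun e => (e : ℝ)) < 1.26455 := by
  rw [← Jc_half (C := 2) (by norm_num) (fun e => id_bd le_rfl e), Jc_id, Jc_id]
  have h1 := mc_zero
  have h2 := mc_one
  linarith

theorem Mu_exp (j : ℕ) : Mu (fun e => (2 : ℝ) ^ (j * e)) = ∏ i ∈ range j, (1 + (2 : ℝ) ^ (i + 1)) := by
  rw [← Jc_half (C := 2 ^ j) (by positivity) (fun e => exp_bd le_rfl e)]
  have h1 : ∀ c : ZMod 2, Jc (fun e => (2 : ℝ) ^ (j * e)) c = ∏ i ∈ range j, (1 + (2 : ℝ) ^ (i + 1)) := by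
    intro c
    unfold Jc
    rw [← (mom_law c j).tsum_eq]
    refine tsum_congr fun e => ?_
    show (2 : ℝ) ^ (j * e) * lawc c e = lawc c e * ((2 : ℝ) ^ e) ^ j
    rw [mul_comm j e, pow_mul, mul_comm]
  rw [h1, h1]
  ring

/-- the sum over the positive divisors -/
theorem sum_pos {a : Fin 3 → ℤ} {C ε : ℝ} {M N : ℕ} (H : FactsZ) (hM : M ≠ 0) (hN : N ≠ 0)
    (hG : GM a C ε M (rad N)) (hC : 2 ≤ C) : ∑ d ∈ (rad (M * N)).divisors, (wr a (d : ℤ) : ℝ) ≤
      (max (mc 0) (mc 1) + ε) * (rad (M * N)).divisors.card := by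
  have h1 := (abs_le.1 (hG.pos H hM hN fun e => id_bd hC e)).2
  rw [Finset.sum_sub_distrib] at h1
  have h2 : ∑ d ∈ (rad (M * N)).divisors, Jc (fun e => (e : ℝ)) ((wr a (d : ℤ) : ℕ) : ZMod 2) ≤
      ∑ d ∈ (rad (M * N)).divisors, max (mc 0) (mc 1) := by
    refine Finset.sum_le_sum fun d _ => ?_
    rw [Jc_id]
    have hz : ∀ x : ZMod 2, x = 0 ∨ x = 1 := by decide
    rcases hz ((wr a (d : ℤ) : ℕ) : ZMod 2) with h | h
    · rw [h]
      exact le_max_left _ _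
    · rw [h]
      exact le_max_right _ _
  rw [Finset.sum_const, nsmul_eq_mul] at h2
  linarith

/-- the sum over the signed divisors -/
theorem sum_sd {a : Fin 3 → ℤ} {C ε : ℝ} {M N : ℕ} (H : FactsZ) (HS : FactsS) (hM : M ≠ 0)
    (hN : N ≠ 0) (hG : GM a C ε M (rad N)) (hC : 2 ≤ C) : ∑ d ∈ sd (rad (M * N)), (wr a d : ℝ) ≤
      (Mu (fun e => (e : ℝ)) + ε) * (sd (rad (M * N))).card := by
  have h1 := (abs_le.1 (hG.law H HS hM hN (by linarith) fun e => id_bd hC e)).2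
  linarith

/-! ### Fields -/

section fields

variable {a : Fin 3 → ℤ} {D : ℕ} {F : Type} [Field F] [NumberField F]

theorem bdd_F (H : FactsZ) (ha : Mdl a) {A : Finset ℤ} (h : GenA F A) (hA : (0 : ℤ) ∉ A) :
    BddAbove {q | HasDiv (EF (cA a) (cB a) F) q} := by
  have h1 := (Pool.Agent.Q154.LD.t_FLD a ha.ha ha.h0 (ha.fct H) A.card 1 _ one_ne_zero
    (fun i hi => hA (by rw [← hi]; exact (A.equivFin.symm i).2)) F (gen_of h A.equivFin)).1
  rw [one_pow, one_pow, one_mul, one_mul] at h1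
  exact h1

theorem fld_pos (H : FactsZ) (ha : Mdl a) (hD : Squarefree D) (h : GenA F (Pz D : Finset ℤ)) :
    finrank ℚ F = 2 ^ D.primeFactors.card ∧ BddAbove {q | HasDiv (EF (cA a) (cB a) F) q} ∧
    rk (EF (cA a) (cB a) F) + crk (EF (cA a) (cB a) F) ≤ ∑ d ∈ D.divisors, wr a (d : ℤ) := by
  have h0 : (0 : ℤ) ∉ Pz D := fun h => absurd (Pz_pos h) (lt_irrefl _)
  refine ⟨by rw [deg_of h ind_Pz, card_Pz], bdd_F H ha h h0, ?_⟩
  have h1 := rk_of ha.ha ha.h0 (ha.fct H) h h0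
  rw [sum_Pz hD (wr a)] at h1
  exact h1

theorem fld_sd (H : FactsZ) (ha : Mdl a) (hD : Squarefree D)
    (h : GenA F (insert (-1) (Pz D) : Finset ℤ)) :
    finrank ℚ F = 2 * 2 ^ D.primeFactors.card ∧ BddAbove {q | HasDiv (EF (cA a) (cB a) F) q} ∧
    rk (EF (cA a) (cB a) F) + crk (EF (cA a) (cB a) F) ≤ ∑ d ∈ sd D, wr a d := by
  have h0 : (0 : ℤ) ∉ insert (-1) (Pz D) := fun h => by
    rcases Finset.mem_insert.1 h with h | h
    · omega
    · exact absurd (Pz_pos h) (lt_irrefl _)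
  refine ⟨by rw [deg_of h ind_Pz', card_Pz', pow_succ, mul_comm], bdd_F H ha h h0, ?_⟩
  have h1 := rk_of ha.ha ha.h0 (ha.fct H) h h0
  rw [sum_Pz' hD (wr a)] at h1
  exact h1

/-- the subfields -/
theorem fld_sub (H : FactsZ) (ha : Mdl a) (hD : Squarefree D) {B : ℝ}
    (hB : ∀ d ∈ sd D, (wr a d : ℝ) ≤ B) {n : ℕ} {t : Fin n → ℤ} (ht : ∀ i, t i ≠ 0 ∧
      ∀ p : ℕ, p.Prime → (p : ℤ) ∣ t i → p ∣ D)
    (hI : ∀ T : Finset (Fin n), T.Nonempty → ¬ IsSquare (∏ i ∈ T, t i)) (h : Gen F t) :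
    (rk (EF (cA a) (cB a) F) + crk (EF (cA a) (cB a) F) : ℝ) ≤ B * finrank ℚ F := by
  have h1 := (Pool.Agent.Q154.LD.t_FLD a ha.ha ha.h0 (ha.fct H) n 1 t one_ne_zero
    (fun i => (ht i).1) F h).2.1
  rw [one_pow, one_pow, one_mul, one_mul] at h1
  simp only [one_mul] at h1
  have h2 : ∀ T : Finset (Fin n), (wr a (∏ i ∈ T, t i) : ℝ) ≤ B := by
    intro T
    have hne : ∏ i ∈ T, t i ≠ 0 := Finset.prod_ne_zero_iff.2 fun i _ => (ht i).1
    obtain ⟨q, w, hq, hw, he⟩ := sq_dec hne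
    rw [he, wr_sq H ha hq.ne_zero hw]
    refine hB q ((mem_sd hD.ne_zero).2 ?_)
    rw [← Int.natAbs_dvd, Int.natCast_dvd_natCast,
      ← Nat.prod_primeFactors_of_squarefree (Int.squarefree_natAbs.2 hq)]
    refine Finset.prod_primes_dvd _ (fun p hp => (Nat.prime_of_mem_primeFactors hp).prime)
      fun p hp => ?_
    have hp' := Nat.prime_of_mem_primeFactors hp
    have h3 : (p : ℤ) ∣ ∏ i ∈ T, t i := by
      rw [he]
      exact (Int.natCast_dvd.2 (Nat.dvd_of_mem_primeFactors hp)).mul_right _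
    obtain ⟨i, -, h4⟩ := (Nat.prime_iff_prime_int.1 hp').exists_mem_finset_dvd h3
    exact (ht i).2 p hp' h4
  have h3 : finrank ℚ F = 2 ^ n := by
    obtain ⟨x, hx, hF⟩ := h
    have h1 := Pool.Agent.Y73.QMQ1.card_gal (K := F) (d := t) hI hx hF
    have := Pool.Agent.Y73.QMQ1.gal_of (K := F) hx hF
    rw [IsGalois.card_aut_eq_finrank] at h1
    exact h1
  have h4 : (rk (EF (cA a) (cB a) F) + crk (EF (cA a) (cB a) F) : ℝ) ≤
      ∑ T : Finset (Fin n), (wr a (∏ i ∈ T, t i) : ℝ) := by exact_mod_cast h1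
  refine h4.trans ((Finset.sum_le_sum fun T _ => h2 T).trans (le_of_eq ?_))
  rw [Finset.sum_const, card_univ, Fintype.card_finset, Fintype.card_fin, nsmul_eq_mul, h3]
  push_cast
  ring

end fields

end Q44.LD
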