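import Pool.Agent.Q44.LD.SdL
import Pool.Agent.Q44.LD.Base
import Pool.Agent.Y73.QMQ1.Gal

/-!
# Project LD: the field generated by the square roots of all the prime divisors
-/

set_option autoImplicit false
set_option linter.unusedSectionVars false
set_option linter.unusedVariables false

open scoped Classical

namespace Q44.LD

open Finset Module Filter Topology
open Q44.JQ hiding cnt
open Q44.JQ.W Q44.JQ.M Q44.JQ.X
open Pool.Agent.TH841.NF (EF Gen)
open Pool.Agent.TH841.NF.D (HasDiv rk crk Sha)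
open Pool.Agent.Y723.PT (tw)

/-- sums over the subsets -/
theorem sum_sub {R : Type} [AddCommMonoid R] {A : Finset ℤ} {n : ℕ} (ψ : A ≃ Fin n) (g : ℤ → R) :
    ∑ T : Finset (Fin n), g (∏ i ∈ T, ((ψ.symm i : A) : ℤ)) = ∑ T ∈ A.powerset, g (∏ b ∈ T, b) := by
  set e : Fin n ↪ ℤ := ⟨fun i => ((ψ.symm i : A) : ℤ), fun i j h =>
    ψ.symm.injective (Subtype.ext h)⟩ with he
  refine Finset.sum_nbij (fun T => T.map e) (fun T _ => ?_) (fun T _ T' _ h => ?_) (fun T hT => ?_)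
    fun T _ => ?_
  · rw [Finset.mem_powerset]
    intro b hb
    obtain ⟨i, -, rfl⟩ := Finset.mem_map.1 hb
    exact (ψ.symm i).2
  · exact Finset.map_injective e h
  · rw [Finset.mem_coe, Finset.mem_powerset] at hT
    refine ⟨univ.filter fun i => e i ∈ T, Finset.mem_coe.2 (mem_univ _), ?_⟩
    ext b
    rw [Finset.mem_map]
    constructor
    · rintro ⟨i, hi, rfl⟩
      exact (mem_filter.1 hi).2
    · intro hb
      refine ⟨ψ ⟨b, hT hb⟩, ?_, ?_⟩
      · rw [mem_filter]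
        refine ⟨mem_univ _, ?_⟩
        show ((ψ.symm (ψ ⟨b, hT hb⟩) : A) : ℤ) ∈ T
        rw [Equiv.symm_apply_apply]
        exact hb
      · show ((ψ.symm (ψ ⟨b, hT hb⟩) : A) : ℤ) = b
        rw [Equiv.symm_apply_apply]
  · rw [Finset.prod_map]
    rfl

/-- the field `F` is generated by the square roots of the elements of `A` -/
def GenA (F : Type) [Field F] [NumberField F] (A : Set ℤ) : Prop :=
  ∃ x : ℤ → F, (∀ b ∈ A, x b ^ 2 = (b : F)) ∧ IntermediateField.adjoin ℚ (x '' A) = ⊤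

theorem gen_of {F : Type} [Field F] [NumberField F] {A : Finset ℤ} (h : GenA F A) {n : ℕ}
    (ψ : A ≃ Fin n) : Gen F fun i => ((ψ.symm i : A) : ℤ) := by
  obtain ⟨x, hx, hF⟩ := h
  refine ⟨fun i => x (ψ.symm i : A), fun i => hx _ (ψ.symm i).2, ?_⟩
  have : Set.range (fun i => x (ψ.symm i : A)) = x '' (A : Set ℤ) := by
    ext z
    constructor
    · rintro ⟨i, rfl⟩
      exact ⟨_, (ψ.symm i).2, rfl⟩
    · rintro ⟨b, hb, rfl⟩
      refine ⟨ψ ⟨b, hb⟩, ?_⟩
      show x ((ψ.symm (ψ ⟨b, hb⟩) : A) : ℤ) = x b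
      rw [Equiv.symm_apply_apply]
  rw [this]
  exact hF

/-- the degree -/
theorem deg_of {F : Type} [Field F] [NumberField F] {A : Finset ℤ} (h : GenA F A)
    (hA : ∀ T ⊆ A, T.Nonempty → ¬ IsSquare (∏ b ∈ T, b)) : Module.finrank ℚ F = 2 ^ A.card := by
  set ψ := A.equivFin
  obtain ⟨x, hx, hF⟩ := gen_of h ψ
  have hI : Pool.Agent.Y19.QT.Indep fun i => ((ψ.symm i : A) : ℤ) := by
    intro T hT
    set e : Fin A.card ↪ ℤ := ⟨fun i => ((ψ.symm i : A) : ℤ), fun i j h =>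
      ψ.symm.injective (Subtype.ext h)⟩ with he
    have h1 := hA (T.map e) (fun b hb => by
      obtain ⟨i, -, rfl⟩ := Finset.mem_map.1 hb
      exact (ψ.symm i).2) (Finset.map_nonempty.2 hT)
    rw [Finset.prod_map] at h1
    exact h1
  have h1 := Pool.Agent.Y73.QMQ1.card_gal (K := F) hI hx hF
  have := Pool.Agent.Y73.QMQ1.gal_of (K := F) hx hF
  rw [IsGalois.card_aut_eq_finrank] at h1
  exact h1

/-- the rank over the field -/
theorem rk_of {a : Fin 3 → ℤ} (ha : Function.Injective a) (h0 : a 0 + a 1 + a 2 = 0) (hf : Fct a)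
    {F : Type} [Field F] [NumberField F] {A : Finset ℤ} (h : GenA F A) (hA : (0 : ℤ) ∉ A) :
    rk (EF (cA a) (cB a) F) + crk (EF (cA a) (cB a) F) ≤ ∑ T ∈ A.powerset, wr a (∏ b ∈ T, b) := by
  have h1 := Pool.Agent.Q154.LD.t_FLD a ha h0 hf A.card 1 _ one_ne_zero
    (fun i hi => hA (by rw [← hi]; exact (A.equivFin.symm i).2)) F (gen_of h A.equivFin)
  have h2 := h1.2.1
  rw [one_pow, one_pow, one_mul, one_mul] at h2
  simp only [one_mul] at h2
  rw [sum_sub A.equivFin (wr a)] at h2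
  exact h2

/-- the prime divisors -/
noncomputable def Pz (D : ℕ) : Finset ℤ := D.primeFactors.image fun p : ℕ => (p : ℤ)

theorem cast_inj : Function.Injective fun p : ℕ => (p : ℤ) := fun _ _ h => Int.ofNat.inj h

theorem mem_Pz {D : ℕ} (hD : D ≠ 0) {b : ℤ} : b ∈ Pz D ↔ ∃ p : ℕ, p.Prime ∧ p ∣ D ∧ b = p := by
  unfold Pz
  rw [Finset.mem_image]
  constructor
  · rintro ⟨p, hp, rfl⟩
    exact ⟨p, Nat.prime_of_mem_primeFactors hp, Nat.dvd_of_mem_primeFactors hp, rfl⟩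
  · rintro ⟨p, hp, hd, rfl⟩
    exact ⟨p, Nat.mem_primeFactors.2 ⟨hp, hd, hD⟩, rfl⟩

theorem sum_Pz {R : Type} [AddCommMonoid R] {D : ℕ} (hD : Squarefree D) (g : ℤ → R) :
    ∑ T ∈ (Pz D).powerset, g (∏ b ∈ T, b) = ∑ d ∈ D.divisors, g (d : ℤ) := by
  have hpr : ∀ T ⊆ D.primeFactors, ∀ p ∈ T, p.Prime := fun T hT p hp =>
    Nat.prime_of_mem_primeFactors (hT hp)
  have h1 : ∑ T ∈ (Pz D).powerset, g (∏ b ∈ T, b) =
      ∑ T ∈ D.primeFactors.powerset, g ((∏ p ∈ T, p : ℕ) : ℤ) := by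
    refine (Finset.sum_nbij (fun T => T.image fun p : ℕ => (p : ℤ)) (fun T hT => ?_)
      (fun T _ T' _ h => Finset.image_injective cast_inj h) (fun T hT => ?_) fun T _ => ?_).symm
    · rw [Finset.mem_powerset] at hT ⊢
      exact Finset.image_subset_image hT
    · rw [Finset.mem_coe, Finset.mem_powerset] at hT
      obtain ⟨T', hT', h⟩ := Finset.subset_image_iff.1 hT
      exact ⟨T', Finset.mem_coe.2 (Finset.mem_powerset.2 hT'), h⟩
    · rw [Finset.prod_image fun x _ y _ h => cast_inj h, Nat.cast_prod]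
  rw [h1]
  refine Finset.sum_nbij (fun T => ∏ p ∈ T, p) (fun T hT => ?_) (fun T hT T' hT' h => ?_)
    (fun d hd => ?_) fun _ _ => rfl
  · rw [Finset.mem_powerset] at hT
    refine Nat.mem_divisors.2 ⟨?_, hD.ne_zero⟩
    refine (Finset.prod_dvd_prod_of_subset _ _ _ hT).trans ?_
    rw [Nat.prod_primeFactors_of_squarefree hD]
  · rw [Finset.mem_coe, Finset.mem_powerset] at hT hT'
    have h2 := congrArg Nat.primeFactors (show ∏ p ∈ T, p = ∏ p ∈ T', p from h)
    rw [Nat.primeFactors_prod (hpr T hT), Nat.primeFactors_prod (hpr T' hT')] at h2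
    exact h2
  · rw [Finset.mem_coe, Nat.mem_divisors] at hd
    exact ⟨d.primeFactors, Finset.mem_coe.2 (Finset.mem_powerset.2
      (Nat.primeFactors_mono hd.1 hd.2)), Nat.prod_primeFactors_of_squarefree
        (hD.squarefree_of_dvd hd.1)⟩

theorem Pz_pos {D : ℕ} {b : ℤ} (h : b ∈ Pz D) : 0 < b := by
  obtain ⟨p, hp, rfl⟩ := Finset.mem_image.1 h
  exact_mod_cast (Nat.prime_of_mem_primeFactors hp).pos

theorem neg_Pz (D : ℕ) : (-1 : ℤ) ∉ Pz D := fun h => by
  have := Pz_pos h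
  omega

theorem sum_Pz' {R : Type} [AddCommMonoid R] {D : ℕ} (hD : Squarefree D) (g : ℤ → R) :
    ∑ T ∈ (insert (-1) (Pz D)).powerset, g (∏ b ∈ T, b) = ∑ d ∈ sd D, g d := by
  rw [Finset.sum_powerset_insert (neg_Pz D), sum_Pz hD, sd_sum hD.ne_zero, Finset.sum_add_distrib]
  congr 1
  rw [← sum_Pz hD fun d => g (-d)]
  refine Finset.sum_congr rfl fun T hT => ?_
  rw [Finset.prod_insert fun h => neg_Pz D (Finset.mem_powerset.1 hT h), neg_one_mul]

/-- products of different primes are not squares -/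
theorem not_sq_primes {J : Finset ℕ} (hJ : ∀ q ∈ J, q.Prime) (hne : J.Nonempty) :
    ¬ IsSquare ((∏ q ∈ J, q : ℕ) : ℤ) := by
  have h1 : Squarefree (∏ q ∈ J, q) := by
    refine Finset.squarefree_prod_of_pairwise_isCoprime ?_ fun p hp => (hJ p hp).squarefree
    intro p hp q hq hpq
    exact Nat.coprime_iff_isRelPrime.1 ((Nat.coprime_primes (hJ p hp) (hJ q hq)).2 hpq)
  rintro ⟨z, hz⟩
  have h2 : ∏ q ∈ J, q = z.natAbs * z.natAbs := by
    have := congrArg Int.natAbs hz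
    rw [Int.natAbs_natCast, Int.natAbs_mul] at this
    exact this
  have h3 : z.natAbs = 1 := Nat.isUnit_iff.1 (h1 z.natAbs (by rw [h2]))
  rw [h3, mul_one] at h2
  obtain ⟨p, hp⟩ := hne
  have h4 : p ∣ 1 := h2 ▸ Finset.dvd_prod_of_mem (fun q => q) hp
  exact (hJ p hp).one_lt.ne' (Nat.dvd_one.1 h4)

theorem ind_Pz {D : ℕ} : ∀ T ⊆ Pz D, T.Nonempty → ¬ IsSquare (∏ b ∈ T, b) := by
  intro T hT hne
  obtain ⟨T', hT', rfl⟩ := Finset.subset_image_iff.1 hT
  rw [Finset.prod_image fun x _ y _ h => cast_inj h, ← Nat.cast_prod]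
  have h := not_sq_primes (J := T') (fun q hq => Nat.prime_of_mem_primeFactors (hT' hq))
    (Finset.image_nonempty.1 hne)
  exact h

theorem ind_Pz' {D : ℕ} : ∀ T ⊆ insert (-1) (Pz D), T.Nonempty → ¬ IsSquare (∏ b ∈ T, b) := by
  intro T hT hne
  by_cases h : (-1 : ℤ) ∈ T
  · rintro ⟨s, hs⟩
    rw [← Finset.mul_prod_erase T _ h] at hs
    have h1 : 0 < ∏ b ∈ T.erase (-1), b := Finset.prod_pos fun b hb => by
      obtain ⟨h2, h3⟩ := Finset.mem_erase.1 hb
      exact Pz_pos (Finset.mem_of_mem_insert_of_ne (hT h3) h2)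
    have h2 : -1 * ∏ b ∈ T.erase (-1), b < 0 := by linarith
    rw [hs] at h2
    nlinarith [mul_self_nonneg s]
  · exact ind_Pz T (fun b hb => Finset.mem_of_mem_insert_of_ne (hT hb) fun h' => h (h' ▸ hb)) hne

theorem card_Pz (D : ℕ) : (Pz D).card = D.primeFactors.card :=
  Finset.card_image_of_injective _ cast_inj

theorem card_Pz' (D : ℕ) : (insert (-1) (Pz D)).card = D.primeFactors.card + 1 := by
  rw [Finset.card_insert_of_notMem (neg_Pz D), card_Pz]

end Q44.LD
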