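import Pool.Agent.Q44.LD.Loc
import Pool.Agent.Q44.JQ.Dec
import Pool.Agent.Q144.NB.Box
import Pool.Agent.Q144.NB.Key
import Pool.Agent.Q144.NB.Bad
import Pool.Agent.Q144.NB.Asy
import Pool.Agent.Q155.NL.Dia

/-!
# Project LD: the law over the families of subsets, for almost all squarefree integers
-/

set_option autoImplicit false
set_option linter.unusedSectionVars false
set_option linter.unusedVariables false

open scoped Classical

namespace Q44.LD

open Finset Module Filter Topology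
open Pool.Agent.Y703.CQ (nr prs ext)
open Q44.BM (Fam vm nr_rec SS)
open Q44.JQ hiding cnt
open Q155.NL (Alm alm_mono alm_of_tendsto cnt cs mem_cs cnt_mono)
open Q155.NB (Rg RN Loc LabN Tu)

variable {T : Finset ℕ} {N M : Type} [Fintype N] [Fintype M] {κ : M → Type} [∀ m, Fintype (κ m)]
  {V : ∀ m, κ m → Type} [∀ m k, AddCommGroup (V m k)] [∀ m k, Module (ZMod 2) (V m k)]
variable (L : LB T)

include L

theorem law_SS (hDIV : S_DIV) [∀ m k, Finite (V m k)] [∀ m k, Nontrivial (V m k)]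
    {e : M → N → ZMod 2} (he : Function.Injective e) (he0 : ∀ m, e m ≠ 0)
    {ρ : N → Option T → ZMod 2} {D : ∀ m k, Dj (Option T) (V m k)}
    (hs : ∀ m k, (D m k).s₀ = none) (hO : ∀ m k, (D m k).Ok (lbf e ρ m)) (hA : ∀ m, Adj2 (D m))
    (r : ∀ m, κ m → ℕ) {ε : ℝ} (hε : 0 < ε) :
    Tendsto (fun X : ℕ => (((SS (RT T L.toTS).Φ X).filter (TP e D ρ r ε)).card : ℝ) /
      ((SS (RT T L.toTS).Φ X).card : ℝ)) atTop (𝓝 1) := by
  refine Pool.Agent.Q144.NB.asy Pool.Agent.Q144.NB.key Pool.Agent.Q144.NB.bad (RT T L.toTS).Φ _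
    (RT T L.toTS).ok (Option T → ZMod 2) (clT T) (fun φ p h => (RT_P L.toTS).2 ⟨h.1, h.2.1⟩) L.hm
    _ ∅ (Fintype.card (Fin (MT T))) (fun u hu => absurd hu (Finset.notMem_empty u)) ?_
  intro ε' hε'
  obtain ⟨A, R, hAR⟩ := loc L hDIV he he0 hs hO hA r hε hε'
  exact ⟨A, R, Pool.Agent.Q144.NB.box _ (Fin (MT T)) (lbM L) _ _ ∅ ε' hε'.le (labN L A R) hAR⟩

omit L in
/-- the squarefree integers prime to `T` -/
def Cn (T : Finset ℕ) (n : ℕ) : Prop := Squarefree n ∧ Cop T n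

theorem cn_iff (n : ℕ) : Cn T n ↔ Squarefree n ∧ ∀ p ∈ n.primeFactors, (RT T L.toTS).Φ.P p := by
  refine and_congr_right fun hn => ?_
  constructor
  · intro h p hp
    exact (RT_P L.toTS).2 ⟨Nat.prime_of_mem_primeFactors hp, fun hpT =>
      h p hpT (Nat.dvd_of_mem_primeFactors hp)⟩
  · intro h p hp hd
    exact ((RT_P L.toTS).1 (h p (Nat.mem_primeFactors.2 ⟨L.pr p hp, hd, hn.ne_zero⟩))).2 hp

theorem cnt_SS (X : ℕ) (Q : Finset ℕ → Prop) :
    cnt (fun n => Cn T n ∧ Q n.primeFactors) X = ((SS (RT T L.toTS).Φ X).filter Q).card := by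
  rw [← Q44.BN.card_nat (RT T L.toTS).Φ X Q]
  unfold cnt
  congr 1
  ext n
  rw [mem_cs, Finset.mem_filter, Finset.mem_Icc, cn_iff L]

/-- **Almost all squarefree integers prime to `T` have the law.** -/
theorem alm_law (hDIV : S_DIV) [∀ m k, Finite (V m k)] [∀ m k, Nontrivial (V m k)]
    {e : M → N → ZMod 2} (he : Function.Injective e) (he0 : ∀ m, e m ≠ 0)
    {ρ : N → Option T → ZMod 2} {D : ∀ m k, Dj (Option T) (V m k)}
    (hs : ∀ m k, (D m k).s₀ = none) (hO : ∀ m k, (D m k).Ok (lbf e ρ m)) (hA : ∀ m, Adj2 (D m))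
    (r : ∀ m, κ m → ℕ) {ε : ℝ} (hε : 0 < ε) :
    Alm (Cn T) fun n => TP e D ρ r ε n.primeFactors := by
  have h1 := law_SS L hDIV he he0 hs hO hA r hε
  have h2 : ∀ X : ℕ, cnt (Cn T) X = (SS (RT T L.toTS).Φ X).card := by
    intro X
    have h3 := cnt_SS L X fun _ => True
    have h4 : ∀ i : DecidablePred (fun _ : Finset ℕ => True),
        (@Finset.filter _ (fun _ => True) i (SS (RT T L.toTS).Φ X)).card =
          (SS (RT T L.toTS).Φ X).card := fun i =>
      congrArg Finset.card (@Finset.filter_true_of_mem _ _ i _ fun _ _ => trivial)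
    rw [h4] at h3
    rw [← h3]
    unfold cnt
    congr 1
    ext n
    rw [mem_cs, mem_cs]
    tauto
  refine alm_of_tendsto ?_
  refine h1.congr fun X => ?_
  rw [← cnt_SS L, h2]

/-! ### All squarefree integers -/

theorem alm_all {P : ℕ → Prop} (h : Alm (Cn T) P) :
    Alm Squarefree fun D => P (nD T (D : ℤ)) := by
  have hpr : 0 < ∏ p ∈ T, p := Finset.prod_pos fun p hp => (L.pr p hp).pos
  set W : Finset ℕ := (∏ p ∈ T, p).divisors with hW
  intro ε hε
  have hWp : 0 < W.card := Finset.card_pos.2 ⟨1, Nat.one_mem_divisors.2 hpr.ne'⟩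
  have hWp' : (0 : ℝ) < W.card := by exact_mod_cast hWp
  have h1 := h (ε / W.card) (by positivity)
  obtain ⟨X₀, hX₀⟩ := eventually_atTop.1 h1
  filter_upwards [eventually_ge_atTop ((∏ p ∈ T, p) * (X₀ + 1))] with X hX
  have h2 : (cnt (fun D => Squarefree D ∧ ¬ P (nD T (D : ℤ))) X : ℝ) ≤
      ∑ v ∈ W, (cnt (fun n => Cn T n ∧ ¬ P n) (X / v) : ℝ) := by
    rw [← Nat.cast_sum]
    refine Nat.cast_le.2 ?_
    have h3 : cs (fun D => Squarefree D ∧ ¬ P (nD T (D : ℤ))) X ⊆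
        W.biUnion fun v => (cs (fun n => Cn T n ∧ ¬ P n) (X / v)).image fun n => v * n := by
      intro D hD
      obtain ⟨⟨h4, h5⟩, h6, h7⟩ := mem_cs.1 hD
      have hDz : Squarefree (D : ℤ) := Int.squarefree_natCast.2 h6
      obtain ⟨g1, g2, g3⟩ := L.dec hDz
      have g4 : D = (Uo (ct (D : ℤ) : Option T → ZMod 2)).natAbs * nD T (D : ℤ) := by
        have := congrArg Int.natAbs g1
        rwa [Int.natAbs_natCast, Int.natAbs_mul, Int.natAbs_natCast] at this
      set v := (Uo (ct (D : ℤ) : Option T → ZMod 2)).natAbs with hv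
      have hv0 : 0 < v := Int.natAbs_pos.2 (L.U0 _)
      refine Finset.mem_biUnion.2 ⟨v, ?_, Finset.mem_image.2 ⟨nD T (D : ℤ), ?_, g4.symm⟩⟩
      · rw [hW, Nat.mem_divisors]
        refine ⟨?_, hpr.ne'⟩
        obtain ⟨u1, u2, -⟩ := L.uo (ct (D : ℤ))
        have u3 : Squarefree v := Int.squarefree_natAbs.2 u1
        rw [← Nat.prod_primeFactors_of_squarefree u3]
        refine Finset.prod_dvd_prod_of_subset _ _ _ fun p hp => ?_
        exact u2 p (Nat.prime_of_mem_primeFactors hp)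
          (Int.natCast_dvd.2 (Nat.dvd_of_mem_primeFactors hp))
      · refine mem_cs.2 ⟨⟨Nat.pos_of_ne_zero g2.ne_zero, ?_⟩, ⟨g2, g3⟩, h7⟩
        rw [Nat.le_div_iff_mul_le hv0, mul_comm, ← g4]
        exact h5
    refine (Finset.card_le_card h3).trans (Finset.card_biUnion_le.trans ?_)
    exact Finset.sum_le_sum fun v _ => Finset.card_image_le
  refine h2.trans ?_
  have h5 : ∀ v ∈ W, (cnt (fun n => Cn T n ∧ ¬ P n) (X / v) : ℝ) ≤ ε / W.card * cnt Squarefree X := by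
    intro v hv
    have hv1 : v ∣ ∏ p ∈ T, p := Nat.dvd_of_mem_divisors hv
    have hv0 : 0 < v := Nat.pos_of_dvd_of_pos hv1 hpr
    have hXv : X₀ ≤ X / v := by
      rw [Nat.le_div_iff_mul_le hv0]
      calc X₀ * v ≤ (X₀ + 1) * (∏ p ∈ T, p) :=
            Nat.mul_le_mul (Nat.le_succ _) (Nat.le_of_dvd hpr hv1)
        _ = (∏ p ∈ T, p) * (X₀ + 1) := mul_comm _ _
        _ ≤ X := hX
    refine (hX₀ _ hXv).trans (mul_le_mul_of_nonneg_left ?_ (by positivity))
    refine Nat.cast_le.2 ?_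
    unfold cnt
    refine Finset.card_le_card fun n hn => ?_
    obtain ⟨h6, h7⟩ := mem_cs.1 hn
    exact mem_cs.2 ⟨⟨h6.1, h6.2.trans (Nat.div_le_self _ _)⟩, h7.1⟩
  refine (Finset.sum_le_sum h5).trans (le_of_eq ?_)
  rw [Finset.sum_const, nsmul_eq_mul]
  field_simp

end Q44.LD
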