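import Pool.Agent.Q44.LD.Tt
import Pool.Agent.Q44.LD.Nat
import Pool.Agent.Q44.JQ.X.Pkg

/-!
# Project LD: the Selmer groups for several forms in several divisors
-/

set_option autoImplicit false
set_option linter.unusedSectionVars false
set_option linter.unusedVariables false

open scoped Classical

namespace Q44.LD

open Finset Module Filter
open Pool.Agent.Y703.CQ (nr)
open Pool.Agent.TH344.JG (LocJ SelJ PR df)
open Pool.Agent.Y723.PT (tw)
open Q44.JQ hiding cnt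
open Q44.JQ.W Q44.JQ.M Q44.JQ.X
open Q155.NL (Alm alm_mono)

variable {T : Finset ℕ}

/-- elliptic curves with full 2-torsion with forms in the divisors; curves with the same form have different
modules -/
structure Gx (T : Finset ℕ) (κ N : Type) where
  c : κ → Cr T
  I : κ → N → ZMod 2
  I0 : ∀ k, I k ≠ 0
  g1 : ∀ k, (c k).g = 1
  irr : ∀ k, (c k).Irr
  ne : ∀ k l, k ≠ l → I k = I l → ¬ ∃ σ : Fin (2 * (c k).g + 1) ≃ Fin (2 * (c l).g + 1), ∀ i j, i ≠ j →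
    (ct ((c k).a i - (c k).a j) : Option T → ZMod 2) = ct ((c l).a (σ i) - (c l).a (σ j))

variable {κ N : Type} [Fintype κ] [Fintype N] (G : Gx T κ N) (L : LB T)

/-- the forms -/
abbrev Gx.M (G : Gx T κ N) : Type := {v : N → ZMod 2 // ∃ k, G.I k = v}

/-- the form of a curve -/
def Gx.f (G : Gx T κ N) (k : κ) : G.M := ⟨G.I k, k, rfl⟩

/-- the curves with a given form -/
def Gx.F (G : Gx T κ N) (m : G.M) : Fx T {k // G.f k = m} where
  c := fun k => G.c k.1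
  g1 := fun k => G.g1 k.1
  irr := fun k => G.irr k.1
  ne := fun k l hkl => G.ne k.1 l.1 (fun h => hkl (Subtype.ext h)) (by
    have h1 := congrArg Subtype.val k.2
    have h2 := congrArg Subtype.val l.2
    exact h1.trans h2.symm)

/-- the curve with the roots `Uo γ * a i` -/
noncomputable def Gx.cu (G : Gx T κ N) (L : LB T) (γ : Option T → ZMod 2) (k : κ) : Cr T :=
  (G.c k).mul (Uo γ) (L.U0 γ) (L.uo γ).2.1

/-- the spaces of the local conditions -/
structure Gx.Lo (G : Gx T κ N) (L : LB T) where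
  𝓛 : ∀ (γ : Option T → ZMod 2) (k : κ), (Option T → ZMod 2) →
    Submodule (ZMod 2) ((Option T → (G.cu L γ k).V) × (Option T → (G.cu L γ k).V))
  ok : ∀ γ k ρ, ((G.cu L γ k).dj (𝓛 γ k ρ)).Ok ρ
  sel : ∀ γ k ρ, ∀ S : Finset ℕ, (∀ p ∈ S, p.Prime ∧ p ∉ T) → ∑ p ∈ S, lbl T p = ρ →
      (SelJ (tw ((∏ q ∈ S, q : ℕ) : ℤ) (G.cu L γ k).a)).Finite ∧
      (SelJ (tw ((∏ q ∈ S, q : ℕ) : ℤ) (G.cu L γ k).a)).ncard =
        Nat.card (Sel ((G.cu L γ k).dj (𝓛 γ k ρ)) (fun p q : S => nr p q) (fun p : S => lbl T p))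

theorem Gx.exLo (hARXE : S_ARXE) : Nonempty (G.Lo L) := by
  have h1 := fun (γ : Option T → ZMod 2) (k : κ) => hARXE T L.pr L.two (G.cu L γ k) (G.g1 k)
  choose 𝓛 hO _hm hS using h1
  exact ⟨⟨𝓛, hO, hS⟩⟩

variable {G L}

/-- the system of the form -/
noncomputable def Gx.Lo.d (P : G.Lo L) (k : κ) (γ ρ : Option T → ZMod 2) :
    Dj (Option T) (G.cu L γ k).V := (G.cu L γ k).dj (P.𝓛 γ k ρ)

/-- the product of the members of a tuple over a form -/
def pf (J : N → ZMod 2) (t : N → ℤ) : ℤ := ∏ i, if J i = 0 then 1 else t i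

theorem Gx.Lo.sel1 (P : G.Lo L) {S : Finset ℕ} (hS : ∀ p ∈ S, p.Prime ∧ p ∉ T) (k : κ)
    (γ : Option T → ZMod 2) (σ : S → ZMod 2) (Q : S → Prop) (hQ : ∀ x, Q x ↔ σ x ≠ 0) :
    (SelJ (tw (tt γ σ) (G.c k).a)).Finite ∧ (SelJ (tw (tt γ σ) (G.c k).a)).ncard =
      2 ^ finrank (ZMod 2) (Sel (P.d k γ (∑ p, σ p • lbl T p))
        (fun a b : {x : S // Q x} => nr (a : S) (b : S)) (fun a => lbl T (a : S))) := by
  have hp : ∀ p ∈ acS σ, p.Prime ∧ p ∉ T := fun p h => hS p (mem_acS.1 h).1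
  have h1 : ∑ p ∈ acS σ, lbl T p = ∑ p, σ p • lbl T p := by
    unfold acS
    rw [Finset.sum_image fun a _ b _ h => Subtype.ext h, Finset.sum_filter]
    refine Finset.sum_congr rfl fun p _ => ?_
    have h01 : σ p = 0 ∨ σ p = 1 := by
      generalize σ p = x
      revert x
      decide
    rcases h01 with h | h
    · rw [h, if_neg (by simp), zero_smul]
    · rw [h, if_pos one_ne_zero, one_smul]
  obtain ⟨h2, h3⟩ := P.sel γ k _ (acS σ) hp h1
  have e : tw (tt γ σ) (G.c k).a = tw ((∏ q ∈ acS σ, q : ℕ) : ℤ) (G.cu L γ k).a := by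
    rw [tt_eq]
    funext i
    show Uo γ * ((∏ p ∈ acS σ, p : ℕ) : ℤ) * (G.c k).a i =
      ((∏ p ∈ acS σ, p : ℕ) : ℤ) * (Uo γ * (G.c k).a i)
    ring
  rw [e]
  refine ⟨h2, h3.trans ?_⟩
  rw [Module.natCard_eq_pow_finrank (K := ZMod 2), Nat.card_zmod]
  congr 1
  symm
  exact sel_reindex (P.d k γ (∑ p, σ p • lbl T p))
    ((Equiv.subtypeEquivRight hQ).trans (eqAc σ)) _ _ _ _ (fun p => rfl) (fun p q _ => rfl)

/-- the product over the form for the tuple given by `τ` -/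
theorem Gx.Lo.sel2 (P : G.Lo L) {S : Finset ℕ} (hS : ∀ p ∈ S, p.Prime ∧ p ∉ T) (k : κ)
    (γ : N → Option T → ZMod 2) (τ : S → N → ZMod 2) (Q : S → Prop)
    (hQ : ∀ x, Q x ↔ (∑ i, G.I k i * τ x i) ≠ 0) :
    (SelJ (tw (pf (G.I k) fun i => tt (γ i) fun p => τ p i) (G.c k).a)).Finite ∧
    (SelJ (tw (pf (G.I k) fun i => tt (γ i) fun p => τ p i) (G.c k).a)).ncard =
      2 ^ finrank (ZMod 2) (Sel (P.d k (∑ i, G.I k i • γ i)
        (∑ i, G.I k i • lbs (fun p : S => lbl T p) τ i))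
        (fun a b : {x : S // Q x} => nr (a : S) (b : S))
        (fun a => lbl T (a : S))) := by
  obtain ⟨w, hw, h1⟩ := tt_prod L (fun p hp => (hS p hp).1) univ (G.I k) γ τ
  have h2 := P.sel1 hS k (∑ i, G.I k i • γ i) (fun p => ∑ i, G.I k i * τ p i) Q hQ
  have h3 : ∑ p : S, (∑ i, G.I k i * τ p i) • lbl T p =
      ∑ i, G.I k i • lbs (fun p : S => lbl T p) τ i := by
    unfold lbs
    simp_rw [Finset.smul_sum, Finset.sum_smul]
    rw [Finset.sum_comm]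
    refine Finset.sum_congr rfl fun i _ => Finset.sum_congr rfl fun p _ => ?_
    rw [mul_smul]
  rw [h3] at h2
  have e : (pf (G.I k) fun i => tt (γ i) fun p => τ p i) =
      tt (∑ i, G.I k i • γ i) (fun p => ∑ i, G.I k i * τ p i) * w ^ 2 := h1
  rw [e, selJ_sq hw]
  exact h2

/-- the parity -/
theorem Gx.Lo.par (P : G.Lo L) (hPAR0 : S_PAR0) {S : Finset ℕ} (hS : ∀ p ∈ S, p.Prime ∧ p ∉ T) (k : κ)
    (γ ρ : Option T → ZMod 2) (Q : S → Prop) :
    ((finrank (ZMod 2) (Sel (P.d k γ ρ)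
        (fun a b : {x : S // Q x} => nr (a : S) (b : S)) (fun a => lbl T (a : S))) : ℕ) : ZMod 2) =
      ((finrank (ZMod 2) (P.d k γ ρ).pm : ℕ) : ZMod 2) := by
  refine hPAR0 (Option T) (G.cu L γ k).V {x : S // Q x} (P.d k γ ρ) ρ (P.ok γ k ρ) _ _ ?_
  intro p q hpq
  obtain ⟨h1, h2⟩ := hS (p : S) (p : S).2
  obtain ⟨h3, h4⟩ := hS (q : S) (q : S).2
  show nr (q : S) (p : S) = nr (p : S) (q : S) + lbl T (p : S) none * lbl T (q : S) none
  rw [lbl_none L h1 h2, lbl_none L h3 h4, mul_comm]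
  exact Q44.BM.nr_rec h3 (L.toTS.ne2 h4) h1 (L.toTS.ne2 h2) fun h =>
    hpq (Subtype.ext (Subtype.ext h.symm))

end Q44.LD
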