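import Pool.Agent.Q44.LD.Stm
import Pool.Agent.Q44.JQ.Rx
import Pool.Agent.Q155.NB.Stm

/-!
# Project LD: the law over the families of subsets of one set of primes
-/

set_option autoImplicit false
set_option linter.unusedSectionVars false
set_option linter.unusedVariables false

open scoped Classical

namespace Q44.LD

open Finset Module Filter
open Pool.Agent.Y703.CQ (nr prs ext)
open Q44.BM (Fam vm nr_rec)
open Q44.JQ
open Q155.NB (Rg RN Loc LabN Tu)

/-! ### The restricted symbols -/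

section ext

variable {ι : Type} [Fintype ι] [LinearOrder ι]

theorem ext_ra (B : ι → Prop) (α : prs (univ : Finset ι) → ZMod 2) {i j : {i // B i}} (h : i ≠ j) :
    ext (ra B α) i j = ext α (i : ι) (j : ι) := by
  rcases lt_or_gt_of_ne h with hij | hij
  · rw [Pool.Agent.Y219.CQ.ext_pos univ _
      ((Pool.Agent.Y219.CQ.mem_prs univ i j).2 ⟨mem_univ _, hij.ne', fun _ => hij⟩)]
    rfl
  · rw [Pool.Agent.Y219.CQ.ext_neg univ _
      ((Pool.Agent.Y219.CQ.mem_prs univ j i).2 ⟨mem_univ _, hij.ne', fun _ => hij⟩) (mem_univ _)]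
    have hij' : (j : ι) < (i : ι) := hij
    show ext α (j : ι) (i : ι) = _
    rw [Pool.Agent.Y219.CQ.ext_pos univ _
      ((Pool.Agent.Y219.CQ.mem_prs univ (j : ι) i).2 ⟨mem_univ _, hij'.ne', fun _ => hij'⟩),
      Pool.Agent.Y219.CQ.ext_neg univ _
      ((Pool.Agent.Y219.CQ.mem_prs univ (j : ι) i).2 ⟨mem_univ _, hij'.ne', fun _ => hij'⟩)
        (mem_univ _)]

end ext

variable {T : Finset ℕ} {N M : Type} [Fintype N] [Fintype M] {κ : M → Type} [∀ m, Fintype (κ m)]
  {V : ∀ m, κ m → Type} [∀ m k, AddCommGroup (V m k)] [∀ m k, Module (ZMod 2) (V m k)]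

/-- the event for a family of subsets of `S` -/
def EvS (e : M → N → ZMod 2) (D : ∀ m k, Dj (Option T) (V m k)) (r : ∀ m, κ m → ℕ) (S : Finset ℕ)
    (τ : S → N → ZMod 2) : Prop :=
  ∀ m k, finrank (ZMod 2) (Sel (D m k) (fun a b : {x : S // act e τ m x} => nr (a : S) (b : S))
    (fun a : {x : S // act e τ m x} => lbl T (a : S))) = finrank (ZMod 2) (V m k) + r m k

/-- the event for a block -/
def EvB {s U ι : Type} [Fintype s] [Fintype U] [Fintype ι] [LinearOrder ι] (t₀ : s)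
    (e : M → N → ZMod 2) (D : ∀ m k, Dj s (V m k)) (r : ∀ m, κ m → ℕ) (b : Bk s U ι)
    (α : prs (univ : Finset ι) → ZMod 2) (τ : U ⊕ ι → N → ZMod 2) : Prop :=
  ∀ m k, finrank (ZMod 2) (Sel (D m k)
        ((sb b (fun u => act e τ m (Sum.inl u)) (fun i => act e τ m (Sum.inr i))).N t₀
          (ra (fun i => act e τ m (Sum.inr i)) α))
        (sb b (fun u => act e τ m (Sum.inl u)) (fun i => act e τ m (Sum.inr i))).h) =
      finrank (ZMod 2) (V m k) + r m k

section transfer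

variable (L : LB T) (e : M → N → ZMod 2) (D : ∀ m k, Dj (Option T) (V m k)) (r : ∀ m, κ m → ℕ)
variable {ι : Type} [Fintype ι] [LinearOrder ι] {S₀ : Finset ℕ} {p : ι → ℕ}

/-- the elements of the active set -/
noncomputable def eqA (hp : Function.Injective p) (hd : ∀ i, p i ∉ S₀)
    (τ : (S₀ ∪ univ.image p : Finset ℕ) → N → ZMod 2) (m : M) :
    {u : S₀ // act e (τ ∘ eqS hp hd) m (Sum.inl u)} ⊕ {i : ι // act e (τ ∘ eqS hp hd) m (Sum.inr i)} ≃
      {x : (S₀ ∪ univ.image p : Finset ℕ) // act e τ m x} :=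
  (Equiv.subtypeSum (p := fun y => act e (τ ∘ eqS hp hd) m y)).symm.trans
    ((eqS hp hd).subtypeEquiv fun _ => Iff.rfl)

include L

theorem evS_iff (hP : ∀ i, (RT T L.toTS).Φ.P (p i)) (hp : Function.Injective p)
    (hd : ∀ i, p i ∉ S₀) (τ : (S₀ ∪ univ.image p : Finset ℕ) → N → ZMod 2) :
    EvS e D r (S₀ ∪ univ.image p) τ ↔ EvB (none : Option T) e D r (bkT T S₀ p)
      (fun x : prs (univ : Finset ι) => nr (p x.1.1) (p x.1.2)) (τ ∘ eqS hp hd) := by
  unfold EvS EvB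
  refine forall_congr' fun m => forall_congr' fun k => ?_
  rw [← sel_reindex (D m k) (eqA e hp hd τ m)
    ((sb (bkT T S₀ p) (fun u => act e (τ ∘ eqS hp hd) m (Sum.inl u))
      (fun i => act e (τ ∘ eqS hp hd) m (Sum.inr i))).N none
      (ra (fun i => act e (τ ∘ eqS hp hd) m (Sum.inr i))
        fun x : prs (univ : Finset ι) => nr (p x.1.1) (p x.1.2))) _
    (sb (bkT T S₀ p) (fun u => act e (τ ∘ eqS hp hd) m (Sum.inl u))
      (fun i => act e (τ ∘ eqS hp hd) m (Sum.inr i))).h]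
  · rintro (u | i) <;> rfl
  · rintro (u | i) (v | j) hne
    · rfl
    · rfl
    · rfl
    · have hij : i ≠ j := fun h => hne (congrArg Sum.inr h)
      show nr (p i) (p j) = ext (ra _ _) i j +
        (if (j : ι) < (i : ι) then lbl T (p i) none * lbl T (p j) none else 0)
      rw [ext_ra _ _ hij]
      have hij' : (i : ι) ≠ (j : ι) := fun h => hij (Subtype.ext h)
      obtain ⟨h1, h2⟩ := (RT_P L.toTS).1 (hP i)
      obtain ⟨h3, h4⟩ := (RT_P L.toTS).1 (hP j)
      rcases lt_or_gt_of_ne hij' with h | h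
      · rw [if_neg h.asymm, add_zero, Pool.Agent.Y219.CQ.ext_pos univ _
          ((Pool.Agent.Y219.CQ.mem_prs univ (i : ι) j).2 ⟨mem_univ _, h.ne', fun _ => h⟩)]
      · rw [if_pos h, Pool.Agent.Y219.CQ.ext_neg univ _
          ((Pool.Agent.Y219.CQ.mem_prs univ (j : ι) i).2 ⟨mem_univ _, h.ne', fun _ => h⟩) (mem_univ _),
          lbl_none L h1 h2, lbl_none L h3 h4]
        exact nr_rec h1 (L.toTS.ne2 h2) h3 (L.toTS.ne2 h4) fun he => hij' (hp he)

theorem lbs_iff (hp : Function.Injective p) (hd : ∀ i, p i ∉ S₀)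
    (τ : (S₀ ∪ univ.image p : Finset ℕ) → N → ZMod 2) :
    lbs (fun x : (S₀ ∪ univ.image p : Finset ℕ) => lbl T x) τ =
      lbs (bkT T S₀ p).h (τ ∘ eqS hp hd) := by
  funext i
  unfold lbs
  rw [← Equiv.sum_comp (eqS hp hd)]
  refine sum_congr rfl fun y _ => ?_
  rcases y with u | j <;> rfl

end transfer

theorem card_lab' {ι : Type} [Fintype ι] {p : ι → ℕ} (hp : Function.Injective p) (P : ℕ → Prop)
    [DecidablePred P] :
    ((univ.image p).filter P).card = (univ.filter fun i => P (p i)).card := by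
  rw [Finset.filter_image, Finset.card_image_of_injective _ hp]

/-! ### The property -/

/-- the limit -/
noncomputable def Lim (D : ∀ m k, Dj (Option T) (V m k)) (r : ∀ m, κ m → ℕ) : ℝ :=
  ∏ m, ∏ k, lawc ((finrank (ZMod 2) (D m k).pm : ℕ) : ZMod 2) (r m k)

/-- the law over the families of subsets of `S`, and all labels occur -/
def TP (e : M → N → ZMod 2) (D : ∀ m k, Dj (Option T) (V m k)) (ρ : N → Option T → ZMod 2)
    (r : ∀ m, κ m → ℕ) (ε : ℝ) (S : Finset ℕ) : Prop :=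
  (∀ φ : Option T → ZMod 2, ∃ p ∈ S, lbl T p = φ) ∧
  |(Nat.card {τ : S → N → ZMod 2 // lbs (fun x : S => lbl T x) τ = ρ ∧ EvS e D r S τ} : ℝ) -
    Lim D r * (Nat.card {τ : S → N → ZMod 2 // lbs (fun x : S => lbl T x) τ = ρ} : ℝ)| ≤
      ε * (2 ^ Fintype.card N : ℝ) ^ S.card

theorem card_eqS {ι : Type} [Fintype ι] {S₀ : Finset ℕ} {p : ι → ℕ} (hp : Function.Injective p)
    (hd : ∀ i, p i ∉ S₀) : (S₀ ∪ univ.image p).card = S₀.card + Fintype.card ι := by
  rw [card_union_of_disjoint, card_image_of_injective _ hp, card_univ]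
  rw [Finset.disjoint_left]
  intro x hx hx'
  obtain ⟨i, -, rfl⟩ := Finset.mem_image.1 hx'
  exact hd i hx

variable (L : LB T)

theorem union_empty_lab {Λ : Type} {lb : ℕ → Λ} {S₀ : Finset ℕ} {x y : ℕ}
    (h : Q155.NB.lab lb (S₀ ∪ ∅) x = Q155.NB.lab lb (S₀ ∪ ∅) y) :
    Q155.NB.lab lb S₀ x = Q155.NB.lab lb S₀ y := by
  rw [Finset.union_empty] at h
  exact h

/-- the label -/
noncomputable def lbM (L : LB T) (p : ℕ) : Fin (MT T) := ⟨p % MT T, Nat.mod_lt _ L.toTS.M_pos⟩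

include L

/-- the regularity of the block -/
theorem reg_of {ι : Type} [Fintype ι] [LinearOrder ι] {S₀ : Finset ℕ} {p : ι → ℕ} {A R : ℕ}
    (hS₀ : ∀ u ∈ S₀, (RT T L.toTS).Φ.P u) (hP : ∀ i, (RT T L.toTS).Φ.P (p i))
    (hp : Function.Injective p) (hd : ∀ i, p i ∉ S₀)
    (hN : Rg (RT T L.toTS).Φ (clT T) A R ∅ S₀ (univ.image p)) :
    Reg (bkT T S₀ p) none A R where
  rU := by
    intro u u' hne
    show nr u' u = nr u u' + lbl T u none * lbl T u' none
    obtain ⟨h1, h2⟩ := (RT_P L.toTS).1 (hS₀ u u.2)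
    obtain ⟨h3, h4⟩ := (RT_P L.toTS).1 (hS₀ u' u'.2)
    rw [lbl_none L h1 h2, lbl_none L h3 h4, mul_comm]
    exact nr_rec h3 (L.toTS.ne2 h4) h1 (L.toTS.ne2 h2) fun h => hne (Subtype.ext h.symm)
  rJ := by
    intro u i
    show nr u (p i) = nr (p i) u + lbl T u none * lbl T (p i) none
    obtain ⟨h1, h2⟩ := (RT_P L.toTS).1 (hS₀ u u.2)
    obtain ⟨h3, h4⟩ := (RT_P L.toTS).1 (hP i)
    rw [lbl_none L h1 h2, lbl_none L h3 h4]
    exact nr_rec h1 (L.toTS.ne2 h2) h3 (L.toTS.ne2 h4) fun h => hd i (h ▸ u.2)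
  nd := by
    intro μ hμ
    obtain ⟨h1, -⟩ := hN
    rw [Finset.union_empty] at h1
    set w : Finset ℕ := (univ.filter fun u : S₀ => μ u ≠ 0).image Subtype.val with hw
    have hwS : w ⊆ S₀ := by
      intro x hx
      obtain ⟨u, -, rfl⟩ := Finset.mem_image.1 hx
      exact u.2
    have hne : w.Nonempty := by
      obtain ⟨u, hu⟩ : ∃ u, μ u ≠ 0 := by
        by_contra hc
        push Not at hc
        exact hμ (funext hc)
      exact ⟨u, Finset.mem_image.2 ⟨u, mem_filter.2 ⟨mem_univ _, hu⟩, rfl⟩⟩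
    have h2 := h1 w hwS hne fun u hu => (RT_A L.toTS).2 ((RT_P L.toTS).1 (hS₀ u (hwS hu)))
    rw [Fintype.card_coe]
    refine h2.trans ?_
    rw [Finset.filter_image, Finset.card_image_of_injective _ hp]
    refine Finset.card_le_card fun i hi => ?_
    obtain ⟨-, hE, hs⟩ := mem_filter.1 hi
    refine mem_filter.2 ⟨mem_univ _, L.lbl_E hE, ?_⟩
    intro h0
    apply hs
    rw [← h0, hw, Finset.sum_image fun a _ b _ h => Subtype.ext h, Finset.sum_filter]
    refine sum_congr rfl fun u _ => ?_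
    show (if μ u ≠ 0 then nr (p i) u else 0) = μ u * nr (p i) u
    have h01 : μ u = 0 ∨ μ u = 1 := by
      generalize μ u = z
      revert z
      decide
    rcases h01 with h | h
    · rw [h, if_neg (by simp), zero_mul]
    · rw [h, if_pos one_ne_zero, one_mul]
  many := by
    intro φ
    have h1 := hN.2 φ
    rw [Finset.union_empty, Finset.filter_image, Finset.card_image_of_injective _ hp] at h1
    rw [Fintype.card_coe]
    refine h1.trans (Finset.card_le_card fun i hi => ?_)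
    exact mem_filter.2 ⟨mem_univ _, (mem_filter.1 hi).2.2.2⟩

/-- the regularity depends on the labels only -/
theorem labN (A R : ℕ) :
    LabN (RT T L.toTS).Φ (lbM L) (Rg (RT T L.toTS).Φ (clT T) A R ∅) ∅ := by
  intro ι _ J1 S₀ p q _ hp hq hl hR
  have hb : ∀ i, _ := fun i => L.lbx (p i) (q i) (hp.2 i).1 (hq.2 i).1
    (congrArg (fun z => z.2.2) (hl i))
  have hn : ∀ i, ∀ u ∈ S₀ ∪ ∅, nr (p i) u = nr (q i) u := fun i u hu =>
    congrFun (congrArg (fun z => z.2.1) (hl i)) (⟨u, hu⟩ : ↥(S₀ ∪ ∅))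
  refine ⟨fun w hw hne hwA => ?_, fun i => ?_⟩
  · have h4 := hR.1 w hw hne hwA
    rw [card_lab' hp.1] at h4
    rw [card_lab' hq.1]
    refine h4.trans (le_of_eq (congrArg Finset.card (Finset.filter_congr fun i _ => ?_)))
    rw [(hb i).1, Finset.sum_congr rfl fun u hu => hn i u (hw hu)]
  · have h4 := hR.2 i
    rw [card_lab' hp.1] at h4
    rw [card_lab' hq.1]
    refine h4.trans (le_of_eq (congrArg Finset.card (Finset.filter_congr fun k _ => ?_)))
    exact (hb k).2.1 i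

/-- almost all tables of symbols have the property -/
theorem loc (hDIV : S_DIV) [∀ m k, Finite (V m k)] [∀ m k, Nontrivial (V m k)]
    {e : M → N → ZMod 2} (he : Function.Injective e) (he0 : ∀ m, e m ≠ 0)
    {ρ : N → Option T → ZMod 2} {D : ∀ m k, Dj (Option T) (V m k)}
    (hs : ∀ m k, (D m k).s₀ = none) (hO : ∀ m k, (D m k).Ok (lbf e ρ m)) (hA : ∀ m, Adj2 (D m))
    (r : ∀ m, κ m → ℕ) {ε ε' : ℝ} (hε : 0 < ε) (hε' : 0 < ε') :
    ∃ A R : ℕ, Loc (RT T L.toTS).Φ (lbM L) (Rg (RT T L.toTS).Φ (clT T) A R ∅) (TP e D ρ r ε) ∅ ε' := by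
  obtain ⟨A, R, hAR⟩ := hDIV (Option T) N M κ V e he he0 none ρ D hs hO hA r (min ε ε')
    (lt_min hε hε')
  refine ⟨A, max R 1, ?_⟩
  intro ι _ _ J1 S₀ q hS ht hN
  have hJ : J1 = univ := by
    ext i
    exact ⟨fun _ => mem_univ _, fun _ => ((ht.2 i).2.2).2 ((RT_A L.toTS).2
      ((RT_P L.toTS).1 (ht.2 i).1))⟩
  subst hJ
  have hq : Function.Injective q := ht.1
  have hdq : ∀ i, q i ∉ S₀ := fun i h => (ht.2 i).2.1 (mem_union_left _ h)
  have hN' : Rg (RT T L.toTS).Φ (clT T) A R ∅ S₀ (univ.image q) := by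
    refine ⟨fun w hw hne hwA => le_trans ?_ (hN.1 w hw hne hwA), fun i => le_trans ?_ (hN.2 i)⟩ <;>
    exact Nat.add_le_add_left (le_max_left _ _) _
  have hreg := reg_of L hS (fun i => (ht.2 i).1) hq hdq hN'
  have h1 := hAR S₀ ι (bkT T S₀ q) hreg
    (EvB (none : Option T) e D r (bkT T S₀ q)) (fun α τ => Iff.rfl)
  obtain ⟨Q, hQ'⟩ : ∃ Q : (prs (univ : Finset ι) → ZMod 2) → Prop, ∀ α, Q α ↔
      ¬ (min ε ε' * (2 ^ Fintype.card N : ℝ) ^ (Fintype.card S₀ + Fintype.card ι) <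
          |(Nat.card {τ : S₀ ⊕ ι → N → ZMod 2 // lbs (bkT T S₀ q).h τ = ρ ∧
              EvB (none : Option T) e D r (bkT T S₀ q) α τ} : ℝ) -
            (∏ m, ∏ k, lawc ((finrank (ZMod 2) (D m k).pm : ℕ) : ZMod 2) (r m k)) *
              (Nat.card {τ : S₀ ⊕ ι → N → ZMod 2 // lbs (bkT T S₀ q).h τ = ρ} : ℝ)|) :=
    ⟨_, fun _ => Iff.rfl⟩
  refine ⟨Q, ?_, ?_⟩
  · refine le_trans ?_ (h1.trans (mul_le_mul_of_nonneg_right (min_le_right _ _) (by positivity)))
    refine Nat.cast_le.2 (Finset.card_le_card fun α hα => ?_)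
    rw [mem_filter] at hα ⊢
    refine ⟨hα.1, ?_⟩
    have h2 := hα.2
    rw [hQ', not_not] at h2
    exact h2
  · intro p hpT hl hQ
    have hp : Function.Injective p := hpT.1
    have hdp : ∀ i, p i ∉ S₀ := fun i h => (hpT.2 i).2.1 (mem_union_left _ h)
    have hlab : ∀ i, lbl T (q i) = lbl T (p i) := fun i =>
      (L.lbx (q i) (p i) (ht.2 i).1 (hpT.2 i).1
        (congrArg (fun z => z.2.2) (hl i)).symm).2.2
    have hbk : bkT T S₀ p = bkT T S₀ q := by
      refine bkT_lab (lb := lbM L) hlab fun i => ?_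
      exact (union_empty_lab (hl i)).symm
    refine ⟨fun φ => ?_, ?_⟩
    · have h2 := hN.2 φ
      have h3 : 0 < ((univ.image q).filter fun p => clT T φ p).card := by omega
      obtain ⟨x, hx⟩ := Finset.card_pos.1 h3
      obtain ⟨hx1, hx2⟩ := mem_filter.1 hx
      obtain ⟨i, -, rfl⟩ := Finset.mem_image.1 hx1
      exact ⟨p i, mem_union_right _ (Finset.mem_image.2 ⟨i, mem_univ _, rfl⟩),
        (hlab i).symm.trans hx2.2.2⟩
    · have h2 := not_lt.1 ((hQ' _).1 hQ)
      rw [← hbk] at h2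
      have h3 : Nat.card {τ : (S₀ ∪ univ.image p : Finset ℕ) → N → ZMod 2 //
          lbs (fun x : (S₀ ∪ univ.image p : Finset ℕ) => lbl T x) τ = ρ} =
          Nat.card {τ : S₀ ⊕ ι → N → ZMod 2 // lbs (bkT T S₀ p).h τ = ρ} := by
        refine Nat.card_congr ((Equiv.arrowCongr (eqS hp hdp).symm (Equiv.refl _)).subtypeEquiv
          fun τ => ?_)
        rw [lbs_iff L hp hdp]
        rfl
      have h4 : Nat.card {τ : (S₀ ∪ univ.image p : Finset ℕ) → N → ZMod 2 //
          lbs (fun x : (S₀ ∪ univ.image p : Finset ℕ) => lbl T x) τ = ρ ∧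
            EvS e D r (S₀ ∪ univ.image p) τ} =
          Nat.card {τ : S₀ ⊕ ι → N → ZMod 2 // lbs (bkT T S₀ p).h τ = ρ ∧
            EvB (none : Option T) e D r (bkT T S₀ p)
              (fun x : prs (univ : Finset ι) => nr (p x.1.1) (p x.1.2)) τ} := by
        refine Nat.card_congr ((Equiv.arrowCongr (eqS hp hdp).symm (Equiv.refl _)).subtypeEquiv
          fun τ => ?_)
        rw [lbs_iff L hp hdp, evS_iff L e D r (fun i => (hpT.2 i).1) hp hdp]
        rfl
      rw [h3, h4]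
      refine h2.trans ?_
      rw [Fintype.card_coe, card_eqS hp hdp]
      exact mul_le_mul_of_nonneg_right (min_le_left _ _) (by positivity)

end Q44.LD
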