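import Pool.Agent.Q44.LD.StmB
import Pool.Agent.Q44.LD.Loc

/-!
# Project LD: the moments over the families of subsets of one set of primes
-/

set_option autoImplicit false
set_option linter.unusedSectionVars false
set_option linter.unusedVariables false

open scoped Classical

namespace Q44.LD

open Finset Module Filter
open Pool.Agent.Y703.CQ (nr prs ext)
open Q44.BM (Fam vm nr_rec)
open Q44.JQ
open Q155.NB (Rg RN Loc LabN Tu)

variable {T : Finset ℕ} {N M : Type} [Fintype N] [Fintype M] {κ : M → Type} [∀ m, Fintype (κ m)]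
  {V : ∀ m, κ m → Type} [∀ m k, AddCommGroup (V m k)] [∀ m k, Module (ZMod 2) (V m k)]

/-- the product of the factorial moments, for a set of primes -/
noncomputable def XS (e : M → N → ZMod 2) (D : ∀ m k, Dj (Option T) (V m k)) (μ : ∀ m, κ m → ℕ)
    (S : Finset ℕ) (τ : S → N → ZMod 2) : ℝ :=
  ∏ m, ∏ k, ∏ i ∈ range (μ m k),
    ((Nat.card (Sel (D m k) (fun a b : {x : S // act e τ m x} => nr (a : S) (b : S))
      (fun a : {x : S // act e τ m x} => lbl T (a : S))) : ℝ) / (Nat.card (V m k) : ℝ) - 2 ^ i)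

/-- the same for a block -/
noncomputable def XB {s U ι : Type} [Fintype s] [Fintype U] [Fintype ι] [LinearOrder ι] (t₀ : s)
    (e : M → N → ZMod 2) (D : ∀ m k, Dj s (V m k)) (μ : ∀ m, κ m → ℕ) (b : Bk s U ι)
    (α : prs (univ : Finset ι) → ZMod 2) (τ : U ⊕ ι → N → ZMod 2) : ℝ :=
  ∏ m, ∏ k, ∏ i ∈ range (μ m k),
    ((Nat.card (Sel (D m k)
        ((sb b (fun u => act e τ m (Sum.inl u)) (fun i => act e τ m (Sum.inr i))).N t₀
          (ra (fun i => act e τ m (Sum.inr i)) α))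
        (sb b (fun u => act e τ m (Sum.inl u)) (fun i => act e τ m (Sum.inr i))).h) : ℝ) /
      (Nat.card (V m k) : ℝ) - 2 ^ i)

/-- the limit of the moments -/
noncomputable def LM (μ : ∀ m, κ m → ℕ) : ℝ := ∏ m, ∏ k, (2 : ℝ) ^ (μ m k * (μ m k + 1) / 2)

section transfer

variable (L : LB T) (e : M → N → ZMod 2) (D : ∀ m k, Dj (Option T) (V m k)) (μ : ∀ m, κ m → ℕ)
variable {ι : Type} [Fintype ι] [LinearOrder ι] {S₀ : Finset ℕ} {p : ι → ℕ}

include L

theorem fr_eq (hP : ∀ i, (RT T L.toTS).Φ.P (p i)) (hp : Function.Injective p)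
    (hd : ∀ i, p i ∉ S₀) (τ : (S₀ ∪ univ.image p : Finset ℕ) → N → ZMod 2) (m : M) (k : κ m) :
    finrank (ZMod 2) (Sel (D m k) (fun a b : {x : (S₀ ∪ univ.image p : Finset ℕ) // act e τ m x} =>
        nr (a : (S₀ ∪ univ.image p : Finset ℕ)) (b : (S₀ ∪ univ.image p : Finset ℕ)))
      (fun a : {x : (S₀ ∪ univ.image p : Finset ℕ) // act e τ m x} =>
        lbl T (a : (S₀ ∪ univ.image p : Finset ℕ)))) =
    finrank (ZMod 2) (Sel (D m k)
        ((sb (bkT T S₀ p) (fun u => act e (τ ∘ eqS hp hd) m (Sum.inl u))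
          (fun i => act e (τ ∘ eqS hp hd) m (Sum.inr i))).N none
          (ra (fun i => act e (τ ∘ eqS hp hd) m (Sum.inr i))
            (fun x : prs (univ : Finset ι) => nr (p x.1.1) (p x.1.2))))
        (sb (bkT T S₀ p) (fun u => act e (τ ∘ eqS hp hd) m (Sum.inl u))
          (fun i => act e (τ ∘ eqS hp hd) m (Sum.inr i))).h) := by
  rw [← sel_reindex (D m k) (eqA e hp hd τ m)
    ((sb (bkT T S₀ p) (fun u => act e (τ ∘ eqS hp hd) m (Sum.inl u))
      (fun i => act e (τ ∘ eqS hp hd) m (Sum.inr i))).N none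
      (ra (fun i => act e (τ ∘ eqS hp hd) m (Sum.inr i))
        fun x : prs (univ : Finset ι) => nr (p x.1.1) (p x.1.2))) _
    (sb (bkT T S₀ p) (fun u => act e (τ ∘ eqS hp hd) m (Sum.inl u))
      (fun i => act e (τ ∘ eqS hp hd) m (Sum.inr i))).h]
  · rintro (u | i) <;> rfl
  · rintro (u | i) (v | j) hne
    · rfl
    · rfl
    · rfl
    · have hij : i ≠ j := fun h => hne (congrArg Sum.inr h)
      show nr (p i) (p j) = ext (ra _ _) i j +
        (if (j : ι) < (i : ι) then lbl T (p i) none * lbl T (p j) none else 0)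
      rw [ext_ra _ _ hij]
      have hij' : (i : ι) ≠ (j : ι) := fun h => hij (Subtype.ext h)
      obtain ⟨h1, h2⟩ := (RT_P L.toTS).1 (hP i)
      obtain ⟨h3, h4⟩ := (RT_P L.toTS).1 (hP j)
      rcases lt_or_gt_of_ne hij' with h | h
      · rw [if_neg h.asymm, add_zero, Pool.Agent.Y219.CQ.ext_pos univ _
          ((Pool.Agent.Y219.CQ.mem_prs univ (i : ι) j).2 ⟨mem_univ _, h.ne', fun _ => h⟩)]
      · rw [if_pos h, Pool.Agent.Y219.CQ.ext_neg univ _
          ((Pool.Agent.Y219.CQ.mem_prs univ (j : ι) i).2 ⟨mem_univ _, h.ne', fun _ => h⟩) (mem_univ _),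
          lbl_none L h1 h2, lbl_none L h3 h4]
        exact nr_rec h1 (L.toTS.ne2 h2) h3 (L.toTS.ne2 h4) fun he => hij' (hp he)

theorem XS_eq [∀ m k, Finite (V m k)] (hP : ∀ i, (RT T L.toTS).Φ.P (p i))
    (hp : Function.Injective p)
    (hd : ∀ i, p i ∉ S₀) (τ : (S₀ ∪ univ.image p : Finset ℕ) → N → ZMod 2) :
    XS e D μ (S₀ ∪ univ.image p) τ = XB (none : Option T) e D μ (bkT T S₀ p)
      (fun x : prs (univ : Finset ι) => nr (p x.1.1) (p x.1.2)) (τ ∘ eqS hp hd) := by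
  unfold XS XB
  refine Finset.prod_congr rfl fun m _ => Finset.prod_congr rfl fun k _ => ?_
  refine Finset.prod_congr rfl fun i _ => ?_
  rw [Module.natCard_eq_pow_finrank (K := ZMod 2), Module.natCard_eq_pow_finrank (K := ZMod 2)
    (V := Sel (D m k) ((sb (bkT T S₀ p) (fun u => act e (τ ∘ eqS hp hd) m (Sum.inl u))
          (fun i => act e (τ ∘ eqS hp hd) m (Sum.inr i))).N none
          (ra (fun i => act e (τ ∘ eqS hp hd) m (Sum.inr i))
            (fun x : prs (univ : Finset ι) => nr (p x.1.1) (p x.1.2)))) _),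
    fr_eq L e D hP hp hd τ m k]

end transfer

/-- the moments over the families of subsets of `S`, and all labels occur -/
def TPM (e : M → N → ZMod 2) (D : ∀ m k, Dj (Option T) (V m k)) (ρ : N → Option T → ZMod 2)
    (μ : ∀ m, κ m → ℕ) (ε : ℝ) (S : Finset ℕ) : Prop :=
  (∀ φ : Option T → ZMod 2, ∃ p ∈ S, lbl T p = φ) ∧
  |∑ τ ∈ (univ : Finset (S → N → ZMod 2)).filter (fun τ => lbs (fun x : S => lbl T x) τ = ρ),
    (XS e D μ S τ - LM μ)| ≤ ε * (2 ^ Fintype.card N : ℝ) ^ S.card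

/-- the sum over the families with given labels -/
noncomputable def SB {s U ι : Type} [Fintype s] [Fintype U] [Fintype ι] [LinearOrder ι] (b : Bk s U ι)
    (ρ : N → s → ZMod 2) (f : (U ⊕ ι → N → ZMod 2) → ℝ) : ℝ :=
  ∑ τ ∈ (univ : Finset (U ⊕ ι → N → ZMod 2)).filter (fun τ => lbs b.h τ = ρ), f τ

theorem SB_eq {s U ι P : Type} [Fintype s] [Fintype U] [Fintype ι] [LinearOrder ι]
    [Fintype (P → N → ZMod 2)] (b : Bk s U ι) (ρ : N → s → ZMod 2)
    (E : (P → N → ZMod 2) ≃ (U ⊕ ι → N → ZMod 2)) (f : (U ⊕ ι → N → ZMod 2) → ℝ)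
    (g : (P → N → ZMod 2) → ℝ) (h : ∀ τ, g τ = if lbs b.h (E τ) = ρ then f (E τ) else 0) :
    ∑ τ, g τ = SB b ρ f := by
  unfold SB
  rw [Finset.sum_filter, ← Equiv.sum_comp E]
  exact Finset.sum_congr rfl fun τ _ => h τ

variable (L : LB T)

include L

/-- almost all tables of symbols have the property -/
theorem locM (hDIV : S_DIVM) [∀ m k, Finite (V m k)] [∀ m k, Nontrivial (V m k)]
    {e : M → N → ZMod 2} (he : Function.Injective e) (he0 : ∀ m, e m ≠ 0)
    {ρ : N → Option T → ZMod 2} {D : ∀ m k, Dj (Option T) (V m k)}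
    (hs : ∀ m k, (D m k).s₀ = none) (hO : ∀ m k, (D m k).Ok (lbf e ρ m)) (hA : ∀ m, Adj2 (D m))
    (μ : ∀ m, κ m → ℕ) {ε ε' : ℝ} (hε : 0 < ε) (hε' : 0 < ε') :
    ∃ A R : ℕ, Loc (RT T L.toTS).Φ (lbM L) (Rg (RT T L.toTS).Φ (clT T) A R ∅) (TPM e D ρ μ ε) ∅ ε' := by
  obtain ⟨A, R, hAR⟩ := hDIV (Option T) N M κ V e he he0 none ρ D hs hO hA μ (min ε ε')
    (lt_min hε hε')
  refine ⟨A, max R 1, ?_⟩
  intro ι _ _ J1 S₀ q hS ht hN
  have hJ : J1 = univ := by
    ext i
    exact ⟨fun _ => mem_univ _, fun _ => ((ht.2 i).2.2).2 ((RT_A L.toTS).2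
      ((RT_P L.toTS).1 (ht.2 i).1))⟩
  subst hJ
  have hq : Function.Injective q := ht.1
  have hdq : ∀ i, q i ∉ S₀ := fun i h => (ht.2 i).2.1 (mem_union_left _ h)
  have hN' : Rg (RT T L.toTS).Φ (clT T) A R ∅ S₀ (univ.image q) := by
    refine ⟨fun w hw hne hwA => le_trans ?_ (hN.1 w hw hne hwA), fun i => le_trans ?_ (hN.2 i)⟩ <;>
    exact Nat.add_le_add_left (le_max_left _ _) _
  have hreg := reg_of L hS (fun i => (ht.2 i).1) hq hdq hN'
  have h1 := hAR S₀ ι (bkT T S₀ q) hreg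
    (XB (none : Option T) e D μ (bkT T S₀ q)) (fun α τ => rfl)
  obtain ⟨Q, hQ'⟩ : ∃ Q : (prs (univ : Finset ι) → ZMod 2) → Prop, ∀ α, Q α ↔
      ¬ (min ε ε' * (2 ^ Fintype.card N : ℝ) ^ (Fintype.card S₀ + Fintype.card ι) <
          |SB (bkT T S₀ q) ρ fun τ => (XB (none : Option T) e D μ (bkT T S₀ q) α τ -
              ∏ m, ∏ k, (2 : ℝ) ^ (μ m k * (μ m k + 1) / 2))|) :=
    ⟨_, fun _ => Iff.rfl⟩
  refine ⟨Q, ?_, ?_⟩
  · refine le_trans ?_ (h1.trans (mul_le_mul_of_nonneg_right (min_le_right _ _) (by positivity)))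
    refine Nat.cast_le.2 (Finset.card_le_card fun α hα => ?_)
    rw [mem_filter] at hα ⊢
    refine ⟨hα.1, ?_⟩
    have h2 := hα.2
    rw [hQ', not_not] at h2
    exact h2
  · intro p hpT hl hQ
    have hp : Function.Injective p := hpT.1
    have hdp : ∀ i, p i ∉ S₀ := fun i h => (hpT.2 i).2.1 (mem_union_left _ h)
    have hlab : ∀ i, lbl T (q i) = lbl T (p i) := fun i =>
      (L.lbx (q i) (p i) (ht.2 i).1 (hpT.2 i).1
        (congrArg (fun z => z.2.2) (hl i)).symm).2.2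
    have hbk : bkT T S₀ p = bkT T S₀ q := by
      refine bkT_lab (lb := lbM L) hlab fun i => ?_
      exact (union_empty_lab (hl i)).symm
    refine ⟨fun φ => ?_, ?_⟩
    · have h2 := hN.2 φ
      have h3 : 0 < ((univ.image q).filter fun p => clT T φ p).card := by omega
      obtain ⟨x, hx⟩ := Finset.card_pos.1 h3
      obtain ⟨hx1, hx2⟩ := mem_filter.1 hx
      obtain ⟨i, -, rfl⟩ := Finset.mem_image.1 hx1
      exact ⟨p i, mem_union_right _ (Finset.mem_image.2 ⟨i, mem_univ _, rfl⟩),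
        (hlab i).symm.trans hx2.2.2⟩
    · have h2 := not_lt.1 ((hQ' _).1 hQ)
      rw [← hbk] at h2
      have h3 : ∑ τ ∈ (univ : Finset ((S₀ ∪ univ.image p : Finset ℕ) → N → ZMod 2)).filter
          (fun τ => lbs (fun x : (S₀ ∪ univ.image p : Finset ℕ) => lbl T x) τ = ρ),
            (XS e D μ (S₀ ∪ univ.image p) τ - LM μ) =
          SB (bkT T S₀ p) ρ fun τ => (XB (none : Option T) e D μ (bkT T S₀ p)
              (fun x : prs (univ : Finset ι) => nr (p x.1.1) (p x.1.2)) τ -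
              ∏ m, ∏ k, (2 : ℝ) ^ (μ m k * (μ m k + 1) / 2)) := by
        rw [Finset.sum_filter]
        refine SB_eq (bkT T S₀ p) ρ
          (Equiv.arrowCongr (eqS hp hdp).symm (Equiv.refl (N → ZMod 2))) _ _ fun τ => ?_
        rw [lbs_iff L hp hdp, XS_eq L e D μ (fun i => (hpT.2 i).1) hp hdp]
        rfl
      rw [h3]
      refine h2.trans ?_
      rw [Fintype.card_coe, card_eqS hp hdp]
      exact mul_le_mul_of_nonneg_right (min_le_left _ _) (by positivity)

end Q44.LD
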