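import Pool.Agent.Q44.LD.Sgn2

/-!
# Project LD: the law over all the divisors, signed or positive
-/

set_option autoImplicit false
set_option linter.unusedSectionVars false
set_option linter.unusedVariables false

open scoped Classical

namespace Q44.LD

open Finset Module Filter Topology
open Q44.JQ hiding cnt
open Q44.JQ.W Q44.JQ.M Q44.JQ.X
open Pool.Agent.Q269.MF (bet)
open Pool.Agent.Q269.SL (law2)

/-- the divisors of `D`, positive and negative -/
noncomputable def sd (D : ℕ) : Finset ℤ := (Finset.Icc (-(D : ℤ)) D).filter fun d => d ∣ (D : ℤ)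

theorem mem_sd {D : ℕ} (hD : D ≠ 0) {d : ℤ} : d ∈ sd D ↔ d ∣ (D : ℤ) := by
  unfold sd
  rw [mem_filter, Finset.mem_Icc]
  refine ⟨fun h => h.2, fun h => ⟨?_, h⟩⟩
  exact abs_le.1 (Int.le_of_dvd (by omega) ((abs_dvd _ _).2 h))

theorem sd_sq {D : ℕ} (hD : Squarefree D) {d : ℤ} (h : d ∈ sd D) : Squarefree d :=
  (Int.squarefree_natCast.2 hD).squarefree_of_dvd ((mem_sd hD.ne_zero).1 h)

/-- the divisors of a class -/
noncomputable def cx (S : Finset ℕ) (D : ℕ) (x : Cl S) : Finset ℤ := (sd D).filter fun d => clD S d = x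

/-- the mean of `f` for the law conditioned by the parity -/
noncomputable def Jc (f : ℕ → ℝ) (c : ZMod 2) : ℝ := ∑' e : ℕ, f e * lawc c e

variable {a : Fin 3 → ℤ} {S : Finset ℕ} {D : ℕ}

/-- the number of the divisors of a class -/
theorem card_cx (L : LB S) (hD : Squarefree D) (hφ : Lbd S D) {x : Cl S}
    (hx : Uo x.1 ∣ (D : ℤ)) : (cx S D x).card * 2 ^ (S.card + 1) =
      2 ^ (nD S (D : ℤ)).primeFactors.card := by
  have h1 := card_tup L hD (fun _ : Fin 1 => x) (fun _ => hx) fun _ => True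
  have h2 := card_lbs_eq (T := S) (N := Fin 1) hφ fun _ => x.2
  rw [Fintype.card_fin, one_mul, one_mul] at h2
  have h3 : (cx S D x).card = Nat.card {t : Fin 1 → ℤ // InC S (fun _ => x) (D : ℤ) t ∧ True} := by
    rw [← Nat.card_eq_finsetCard]
    refine Nat.card_congr ⟨fun d => ⟨fun _ => d.1, fun _ => ?_, trivial⟩, fun t => ⟨t.1 0, ?_⟩, ?_, ?_⟩
    · have h4 := mem_filter.1 d.2
      exact ⟨(mem_sd hD.ne_zero).1 h4.1, h4.2⟩
    · have h4 := t.2.1 0
      exact mem_filter.2 ⟨(mem_sd hD.ne_zero).2 h4.1, h4.2⟩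
    · intro d
      rfl
    · intro t
      refine Subtype.ext (funext fun i => ?_)
      have : i = 0 := Subsingleton.elim _ _
      rw [this]
  rw [h3, h1, ← h2]
  congr 1
  exact Nat.card_congr (Equiv.subtypeEquivRight fun τ => ⟨fun h => h.1, fun h => ⟨h, trivial⟩⟩)

theorem uo_cx (L : LB S) (hD : Squarefree D) {x : Cl S} {d : ℤ} (hd : d ∈ cx S D x) :
    Uo x.1 ∣ (D : ℤ) := by
  have h4 := mem_filter.1 hd
  by_contra hc
  exact no_tup L hD (fun _ : Fin 1 => x) (fun h => hc (h 0)) (fun _ => d)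
    fun _ => ⟨(mem_sd hD.ne_zero).1 h4.1, h4.2⟩

/-- the law in one class -/
theorem law_cx (H : FactsZ) (L : LB S) (hD : Squarefree D) {C ε : ℝ}
    (hG : Gd (fun _ : Fin 1 => a) (fun _ => ({0} : Finset (Fin 1))) S C ε D) {x : Cl S}
    {d₀ : ℤ} (hd₀ : d₀ ∈ cx S D x) {f : ℕ → ℝ} (hf : ∀ e, |f e| ≤ C ^ (1 + e)) :
    |∑ d ∈ cx S D x, f (wr a d) - (cx S D x).card * Jc f ((wr a d₀ : ℕ) : ZMod 2)| ≤
      ε * (cx S D x).card := by
  obtain ⟨h1, h2⟩ := mem_filter.1 hd₀
  have h0 := sd_sq hD h1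
  have hT : ∀ t : Fin 1 → ℤ, t ∈ Tp S (fun _ : Fin 1 => d₀) D ↔ t 0 ∈ cx S D x := by
    intro t
    rw [tp_iff L H.lsq hD fun _ => h0]
    constructor
    · intro h
      exact mem_filter.2 ⟨(mem_sd hD.ne_zero).2 (h 0).1, ((h 0).2).trans h2⟩
    · intro h i
      have hi : i = 0 := Subsingleton.elim _ _
      subst hi
      obtain ⟨h3, h4⟩ := mem_filter.1 h
      exact ⟨(mem_sd hD.ne_zero).1 h3, h4.trans h2.symm⟩
  have hne : (Tp S (fun _ : Fin 1 => d₀) D).Nonempty := ⟨fun _ => d₀, (hT _).2 hd₀⟩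
  have h3 := hG (fun _ => d₀) (fun _ => h0) hne (fun e => f (e 0)) fun e => by
    rw [Fin.sum_univ_one]
    exact hf _
  obtain ⟨E, hE⟩ : ∃ E : Tp S (fun _ : Fin 1 => d₀) D ≃ cx S D x, ∀ t, ((E t : ℤ)) = t.1 0 :=
    ⟨⟨fun t => ⟨t.1 0, (hT _).1 t.2⟩, fun d => ⟨fun _ => d.1, (hT _).2 d.2⟩, fun t => by
      refine Subtype.ext (funext fun i => ?_)
      have : i = 0 := Subsingleton.elim _ _
      rw [this], fun d => rfl⟩, fun t => rfl⟩
  have iF : Fintype (Tp S (fun _ : Fin 1 => d₀) D) := Fintype.ofEquiv _ E.symm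
  have hw : ∀ t : Fin 1 → ℤ, wv (fun _ : Fin 1 => a) (fun _ => ({0} : Finset (Fin 1))) t 0 =
      wr a (t 0) := by
    intro t
    unfold wv
    rw [Finset.prod_singleton]
  rw [mean_eq] at h3
  have h4 : ∑ t : Tp S (fun _ : Fin 1 => d₀) D,
      f (wv (fun _ : Fin 1 => a) (fun _ => ({0} : Finset (Fin 1))) t.1 0) =
      ∑ d ∈ cx S D x, f (wr a d) := by
    rw [← Finset.sum_coe_sort (cx S D x)]
    refine Fintype.sum_equiv E _ _ fun t => ?_
    rw [hw, hE]
  have h5 : Fintype.card (Tp S (fun _ : Fin 1 => d₀) D) = (cx S D x).card := by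
    rw [Fintype.card_congr E, Fintype.card_coe]
  have h6 : ∑' e : Fin 1 → ℕ, f (e 0) * ∏ k, lawc ((wv (fun _ : Fin 1 => a)
      (fun _ => ({0} : Finset (Fin 1))) (fun _ => d₀) k : ℕ) : ZMod 2) (e k) =
      Jc f ((wr a d₀ : ℕ) : ZMod 2) := by
    unfold Jc
    rw [← (Equiv.funUnique (Fin 1) ℕ).symm.tsum_eq]
    refine tsum_congr fun e => ?_
    rw [Fin.prod_univ_one, hw]
    rfl
  rw [h4, h5, h6] at h3
  have hpos : (0 : ℝ) < (cx S D x).card := by
    exact_mod_cast Finset.card_pos.2 ⟨d₀, hd₀⟩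
  have h7 : ∑ d ∈ cx S D x, f (wr a d) - (cx S D x).card * Jc f ((wr a d₀ : ℕ) : ZMod 2) =
      ((∑ d ∈ cx S D x, f (wr a d)) / (cx S D x).card - Jc f ((wr a d₀ : ℕ) : ZMod 2)) *
        (cx S D x).card := by
    field_simp
  rw [h7, abs_mul, abs_of_pos hpos]
  exact mul_le_mul_of_nonneg_right h3 hpos.le

/-- the law over a union of classes -/
theorem law_un (H : FactsZ) (L : LB S) (hD : Squarefree D) {C ε : ℝ}
    (hG : Gd (fun _ : Fin 1 => a) (fun _ => ({0} : Finset (Fin 1))) S C ε D)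
    (hpar : ∀ d d' : ℤ, Squarefree d → Squarefree d' → clD S d = clD S d' →
      ((wr a d : ℕ) : ZMod 2) = (wr a d' : ℕ)) (Y : Cl S → Prop)
    {f : ℕ → ℝ} (hf : ∀ e, |f e| ≤ C ^ (1 + e)) :
    |∑ d ∈ (sd D).filter (fun d => Y (clD S d)), (f (wr a d) - Jc f ((wr a d : ℕ) : ZMod 2))| ≤
      ε * ((sd D).filter fun d => Y (clD S d)).card := by
  have h1 : ∀ g : ℤ → ℝ, ∑ d ∈ (sd D).filter (fun d => Y (clD S d)), g d =
      ∑ x ∈ univ.filter Y, ∑ d ∈ cx S D x, g d := by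
    intro g
    rw [← Finset.sum_fiberwise_of_maps_to (s := (sd D).filter fun d => Y (clD S d))
      (t := univ.filter Y) (g := fun d => clD S d) (fun d hd => mem_filter.2 ⟨mem_univ _,
        (mem_filter.1 hd).2⟩)]
    refine Finset.sum_congr rfl fun x hx => ?_
    refine Finset.sum_congr ?_ fun _ _ => rfl
    unfold cx
    rw [Finset.filter_filter]
    refine Finset.filter_congr fun d _ => ?_
    constructor
    · exact fun h => h.2
    · intro h
      exact ⟨h ▸ (mem_filter.1 hx).2, h⟩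
  have h2 : (((sd D).filter fun d => Y (clD S d)).card : ℝ) =
      ∑ x ∈ univ.filter Y, ((cx S D x).card : ℝ) := by
    have h3 := h1 fun _ => 1
    simp only [Finset.sum_const, nsmul_eq_mul, mul_one] at h3
    exact h3
  rw [h1, h2, Finset.mul_sum]
  refine (Finset.abs_sum_le_sum_abs _ _).trans (Finset.sum_le_sum fun x _ => ?_)
  rcases (cx S D x).eq_empty_or_nonempty with he | ⟨d₀, hd₀⟩
  · rw [he, Finset.sum_empty, abs_zero, Finset.card_empty]
    simp
  · have h3 := law_cx H L hD hG hd₀ hf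
    have h4 : ∑ d ∈ cx S D x, (f (wr a d) - Jc f ((wr a d : ℕ) : ZMod 2)) =
        ∑ d ∈ cx S D x, f (wr a d) - (cx S D x).card * Jc f ((wr a d₀ : ℕ) : ZMod 2) := by
      rw [Finset.sum_sub_distrib]
      congr 1
      rw [← nsmul_eq_mul, ← Finset.sum_const]
      refine Finset.sum_congr rfl fun d hd => ?_
      obtain ⟨h5, h6⟩ := mem_filter.1 hd
      obtain ⟨h7, h8⟩ := mem_filter.1 hd₀
      rw [hpar d d₀ (sd_sq hD h5) (sd_sq hD h7) (h6.trans h8.symm)]
    rw [h4]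
    exact h3

theorem card_flip (L : LB S) (hD : Squarefree D) (hφ : Lbd S D) (x : Cl S) :
    (cx S D (flip x)).card = (cx S D x).card := by
  have h0 : Uo (flip x).1 = -Uo x.1 := uo_en x.1
  by_cases hx : Uo x.1 ∣ (D : ℤ)
  · have h1 := card_cx L hD hφ hx
    have h2 := card_cx (x := flip x) L hD hφ (by
      rw [h0]
      exact (neg_dvd).2 hx)
    rw [← h1] at h2
    exact Nat.eq_of_mul_eq_mul_right (by positivity) h2
  · have h1 : cx S D x = ∅ := by
      by_contra hc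
      obtain ⟨d, hd⟩ := Finset.nonempty_iff_ne_empty.2 hc
      exact hx (uo_cx L hD hd)
    have h2 : cx S D (flip x) = ∅ := by
      by_contra hc
      obtain ⟨d, hd⟩ := Finset.nonempty_iff_ne_empty.2 hc
      have h3 := uo_cx L hD hd
      rw [h0, neg_dvd] at h3
      exact hx h3
    rw [h1, h2]

theorem sum_cls (g : ℤ → ℝ) : ∑ d ∈ sd D, g d = ∑ x : Cl S, ∑ d ∈ cx S D x, g d :=
  (Finset.sum_fiberwise (sd D) (fun d => clD S d) g).symm

/-- over all the signed divisors both parities have the same frequency -/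
theorem sum_sgn (L : LB S) (hD : Squarefree D) (hφ : Lbd S D) (q : ℤ → ZMod 2)
    (hq : ∀ d d' : ℤ, Squarefree d → Squarefree d' → clD S d = clD S d' → q d = q d')
    (hq' : ∀ d d' : ℤ, Squarefree d → Squarefree d' → clD S d' = flip (clD S d) → q d' = q d + 1)
    (J : ZMod 2 → ℝ) : ∑ d ∈ sd D, J (q d) = (sd D).card * ((J 0 + J 1) / 2) := by
  have h1 : ∀ x : Cl S, ∑ d ∈ cx S D x, J (q d) + ∑ d ∈ cx S D (flip x), J (q d) =
      (cx S D x).card * (J 0 + J 1) := by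
    intro x
    rcases (cx S D x).eq_empty_or_nonempty with he | ⟨d₀, hd₀⟩
    · have h2 := card_flip L hD hφ x
      rw [he, Finset.card_empty] at h2
      rw [Finset.card_eq_zero.1 h2, he]
      simp
    · have h2 := card_flip L hD hφ x
      have h3 : 0 < (cx S D (flip x)).card := by
        rw [h2]
        exact Finset.card_pos.2 ⟨d₀, hd₀⟩
      obtain ⟨d₁, hd₁⟩ := Finset.card_pos.1 h3
      obtain ⟨a1, a2⟩ := mem_filter.1 hd₀
      obtain ⟨b1, b2⟩ := mem_filter.1 hd₁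
      have h4 : ∑ d ∈ cx S D x, J (q d) = (cx S D x).card * J (q d₀) := by
        rw [← nsmul_eq_mul, ← Finset.sum_const]
        refine Finset.sum_congr rfl fun d hd => ?_
        obtain ⟨c1, c2⟩ := mem_filter.1 hd
        rw [hq d d₀ (sd_sq hD c1) (sd_sq hD a1) (c2.trans a2.symm)]
      have h5 : ∑ d ∈ cx S D (flip x), J (q d) = (cx S D x).card * J (q d₀ + 1) := by
        rw [← h2, ← nsmul_eq_mul, ← Finset.sum_const]
        refine Finset.sum_congr rfl fun d hd => ?_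
        obtain ⟨c1, c2⟩ := mem_filter.1 hd
        rw [hq' d₀ d (sd_sq hD a1) (sd_sq hD c1) (by rw [c2, a2])]
      rw [h4, h5, ← mul_add]
      congr 1
      have key : ∀ c : ZMod 2, (c = 0 ∧ c + 1 = 1) ∨ (c = 1 ∧ c + 1 = 0) := by decide
      rcases key (q d₀) with ⟨h6, h7⟩ | ⟨h6, h7⟩
      · rw [h7, h6]
      · rw [h7, h6, add_comm]
  have h2 : ∑ x : Cl S, ∑ d ∈ cx S D (flip x), J (q d) = ∑ x : Cl S, ∑ d ∈ cx S D x, J (q d) := by
    refine Fintype.sum_equiv ⟨flip, flip, flip_flip, flip_flip⟩ _ _ fun x => rfl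
  have h3 : ((sd D).card : ℝ) = ∑ x : Cl S, ((cx S D x).card : ℝ) := by
    have h4 := sum_cls (S := S) (D := D) fun _ => (1 : ℝ)
    simp only [Finset.sum_const, nsmul_eq_mul, mul_one] at h4
    exact h4
  have h4 : ∑ d ∈ sd D, J (q d) + ∑ d ∈ sd D, J (q d) = (sd D).card * (J 0 + J 1) := by
    have h5 := sum_cls (S := S) (D := D) fun d => J (q d)
    calc ∑ d ∈ sd D, J (q d) + ∑ d ∈ sd D, J (q d)
        = ∑ x : Cl S, ∑ d ∈ cx S D x, J (q d) + ∑ x : Cl S, ∑ d ∈ cx S D (flip x), J (q d) := by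
          rw [h2, ← h5]
      _ = ∑ x : Cl S, ((cx S D x).card : ℝ) * (J 0 + J 1) := by
          rw [← Finset.sum_add_distrib]
          exact Finset.sum_congr rfl fun x _ => h1 x
      _ = (sd D).card * (J 0 + J 1) := by rw [h3, Finset.sum_mul]
  linarith

end Q44.LD
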