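import Pool.Agent.Q44.LD.LocM
import Pool.Agent.Q44.LD.Nat

/-!
# Project LD: the moments over the families of subsets, for almost all squarefree integers
-/

set_option autoImplicit false
set_option linter.unusedSectionVars false
set_option linter.unusedVariables false

open scoped Classical

namespace Q44.LD

open Finset Module Filter Topology
open Pool.Agent.Y703.CQ (nr prs ext)
open Q44.BM (Fam vm nr_rec SS)
open Q44.JQ hiding cnt
open Q155.NL (Alm alm_mono alm_of_tendsto cnt cs mem_cs cnt_mono)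
open Q155.NB (Rg RN Loc LabN Tu)

variable {T : Finset ℕ} {N M : Type} [Fintype N] [Fintype M] {κ : M → Type} [∀ m, Fintype (κ m)]
  {V : ∀ m, κ m → Type} [∀ m k, AddCommGroup (V m k)] [∀ m k, Module (ZMod 2) (V m k)]
variable (L : LB T)

include L

/-- a property of sets of primes which holds for almost all sets of the class holds for almost all integers -/
theorem alm_of_SS (Q : Finset ℕ → Prop)
    (h : Tendsto (fun X : ℕ => (((SS (RT T L.toTS).Φ X).filter Q).card : ℝ) /
      ((SS (RT T L.toTS).Φ X).card : ℝ)) atTop (𝓝 1)) : Alm (Cn T) fun n => Q n.primeFactors := by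
  have h2 : ∀ X : ℕ, cnt (Cn T) X = (SS (RT T L.toTS).Φ X).card := by
    intro X
    have h3 := cnt_SS L X fun _ => True
    have h4 : ∀ i : DecidablePred (fun _ : Finset ℕ => True),
        (@Finset.filter _ (fun _ => True) i (SS (RT T L.toTS).Φ X)).card =
          (SS (RT T L.toTS).Φ X).card := fun i =>
      congrArg Finset.card (@Finset.filter_true_of_mem _ _ i _ fun _ _ => trivial)
    rw [h4] at h3
    rw [← h3]
    unfold cnt
    congr 1
    ext n
    rw [mem_cs, mem_cs]
    tauto
  refine alm_of_tendsto ?_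
  refine h.congr fun X => ?_
  rw [← cnt_SS L, h2]

/-- **Almost all squarefree integers prime to `T` have the limit moments.** -/
theorem alm_mom (hDIV : S_DIVM) [∀ m k, Finite (V m k)] [∀ m k, Nontrivial (V m k)]
    {e : M → N → ZMod 2} (he : Function.Injective e) (he0 : ∀ m, e m ≠ 0)
    {ρ : N → Option T → ZMod 2} {D : ∀ m k, Dj (Option T) (V m k)}
    (hs : ∀ m k, (D m k).s₀ = none) (hO : ∀ m k, (D m k).Ok (lbf e ρ m)) (hA : ∀ m, Adj2 (D m))
    (μ : ∀ m, κ m → ℕ) {ε : ℝ} (hε : 0 < ε) :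
    Alm (Cn T) fun n => TPM e D ρ μ ε n.primeFactors := by
  refine alm_of_SS L _ ?_
  refine Pool.Agent.Q144.NB.asy Pool.Agent.Q144.NB.key Pool.Agent.Q144.NB.bad (RT T L.toTS).Φ _
    (RT T L.toTS).ok (Option T → ZMod 2) (clT T) (fun φ p h => (RT_P L.toTS).2 ⟨h.1, h.2.1⟩) L.hm
    _ ∅ (Fintype.card (Fin (MT T))) (fun u hu => absurd hu (Finset.notMem_empty u)) ?_
  intro ε' hε'
  obtain ⟨A, R, hAR⟩ := locM L hDIV he he0 hs hO hA μ hε hε'
  exact ⟨A, R, Pool.Agent.Q144.NB.box _ (Fin (MT T)) (lbM L) _ _ ∅ ε' hε'.le (labN L A R) hAR⟩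

end Q44.LD
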