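import Pool.Agent.Q44.JQ.X.MomA

/-!
# The means of the laws conditioned by the parity
-/

set_option autoImplicit false
set_option linter.unusedSectionVars false

open scoped Classical Topology

namespace Q44.LD

open Finset Filter
open Pool.Agent.Q269.SL (ce ce_pos ce_succ ce_succ_le ce_zero hasSum_ce law2 law2_eq bet_nonneg)
open Pool.Agent.Q269.MF (bet)
open Q44.JQ Q44.JQ.M Q44.JQ.X

/-- the coefficients of the law -/
noncomputable def ve (e : ℕ) : ℝ := 2 ^ e * ce e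

theorem ve_pos (e : ℕ) : 0 < ve e := mul_pos (by positivity) (ce_pos e)

theorem lawc_ce (c : ZMod 2) (e : ℕ) : lawc c e = if (e : ZMod 2) = c then bet * ve e else 0 := by
  unfold lawc
  split_ifs
  · rw [law2_eq]
    unfold ve ce
    ring
  · rfl

theorem lawc_le (c : ZMod 2) (e : ℕ) : lawc c e ≤ bet * ve e := by
  rw [lawc_ce]
  split_ifs
  · exact le_rfl
  · exact mul_nonneg bet_nonneg (ve_pos e).le

theorem ve_succ_le (e : ℕ) : ve (e + 1) ≤ ve e * (2 * (1 / 2) ^ e) := by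
  unfold ve
  have h1 := mul_le_mul_of_nonneg_left (ce_succ_le e) (show (0 : ℝ) ≤ 2 ^ (e + 1) by positivity)
  refine h1.trans (le_of_eq ?_)
  rw [pow_succ]
  ring

theorem ce_tail {e : ℕ} (he : 4 ≤ e) (k : ℕ) :
    ((e + k : ℕ) : ℝ) * ve (e + k) ≤ (e * ve e) * (1 / 4) ^ k := by
  induction k with
  | zero => rw [pow_zero, mul_one, add_zero]
  | succ k ih =>
    have h1 := ve_succ_le (e + k)
    have h2 := ve_pos (e + k)
    have h3 : (1 / 2 : ℝ) ^ (e + k) ≤ 1 / 16 := by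
      calc (1 / 2 : ℝ) ^ (e + k) ≤ (1 / 2 : ℝ) ^ 4 :=
            pow_le_pow_of_le_one (by norm_num) (by norm_num) (by omega)
        _ = 1 / 16 := by norm_num
    have h4 : (4 : ℝ) ≤ ((e + k : ℕ) : ℝ) := by
      have : 4 ≤ e + k := by omega
      exact_mod_cast this
    have h5 : ve (e + (k + 1)) ≤ ve (e + k) * (1 / 8) := by
      refine h1.trans (mul_le_mul_of_nonneg_left (by linarith) h2.le)
    have h6 : ((e + (k + 1) : ℕ) : ℝ) = ((e + k : ℕ) : ℝ) + 1 := by push_cast; ring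
    rw [h6, pow_succ]
    calc (((e + k : ℕ) : ℝ) + 1) * ve (e + (k + 1)) ≤
        (((e + k : ℕ) : ℝ) + 1) * (ve (e + k) * (1 / 8)) :=
          mul_le_mul_of_nonneg_left h5 (by linarith)
      _ ≤ (((e + k : ℕ) : ℝ) * ve (e + k)) * (1 / 4) := by nlinarith
      _ ≤ _ := by
        rw [← mul_assoc]
        exact mul_le_mul_of_nonneg_right ih (by norm_num)

theorem bet_pos : 0 < bet := by
  rcases bet_nonneg.lt_or_eq with h | h
  · exact h
  · exfalso
    have h1 := hasSum_ce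
    rw [← h] at h1
    simp only [zero_mul] at h1
    exact zero_ne_one (hasSum_zero.unique h1)

/-- the mean of the law -/
noncomputable def mc (c : ZMod 2) : ℝ := ∑' e : ℕ, lawc c e * e

theorem summable_mc (c : ZMod 2) : Summable fun e : ℕ => lawc c e * e := by
  refine Summable.of_nonneg_of_le (fun e => mul_nonneg (lawc_nonneg c e) (Nat.cast_nonneg _)) ?_
    (mom_law c 1).summable
  intro e
  refine mul_le_mul_of_nonneg_left ?_ (lawc_nonneg c e)
  rw [pow_one]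
  exact_mod_cast e.lt_two_pow_self.le

theorem tail_one (c : ZMod 2) : ∑' e : ℕ, lawc c (e + 8) * ((e + 8 : ℕ) : ℝ) ≤
    bet * (8 * ve 8) * (4 / 3) := by
  have h1 : HasSum (fun e : ℕ => bet * (8 * ve 8) * (1 / 4 : ℝ) ^ e) (bet * (8 * ve 8) * (4 / 3)) := by
    have h2 := (hasSum_geometric_of_lt_one (r := (1 / 4 : ℝ)) (by norm_num) (by norm_num)).mul_left
      (bet * (8 * ve 8))
    rw [show (1 - 1 / 4 : ℝ)⁻¹ = 4 / 3 by norm_num] at h2
    exact h2
  refine Summable.tsum_le_of_sum_le ((summable_nat_add_iff 8).2 (summable_mc c)) fun s => ?_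
  refine le_trans (Finset.sum_le_sum fun e _ => ?_)
    (sum_le_hasSum s (fun e _ => ?_) h1)
  · have h3 := ce_tail (e := 8) (by norm_num) e
    have h4 := lawc_le c (e + 8)
    calc lawc c (e + 8) * ((e + 8 : ℕ) : ℝ) ≤ bet * ve (e + 8) * ((e + 8 : ℕ) : ℝ) :=
          mul_le_mul_of_nonneg_right h4 (Nat.cast_nonneg _)
      _ = bet * (((8 + e : ℕ) : ℝ) * ve (8 + e)) := by
        rw [add_comm e 8]
        ring
      _ ≤ bet * (((8 : ℕ) : ℝ) * ve 8 * (1 / 4) ^ e) := mul_le_mul_of_nonneg_left h3 bet_nonneg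
      _ = _ := by
        push_cast
        ring
  · have := bet_nonneg
    have := (ve_pos 8).le
    positivity

theorem ce_vals : ve 0 = 1 ∧ ve 1 = 2 ∧ ve 2 = 4 / 3 ∧ ve 3 = 8 / 21 ∧ ve 4 = 16 / 315 ∧
    ve 5 = 32 / 9765 ∧ ve 6 = 64 / 615195 ∧ ve 7 = 128 / 78129765 ∧ ve 8 = 256 / 19923090075 := by
  unfold ve ce
  simp only [Finset.prod_range_succ, Finset.prod_range_zero]
  norm_num

theorem zm : ((0 : ℕ) : ZMod 2) = 0 ∧ ((1 : ℕ) : ZMod 2) = 1 ∧ ((2 : ℕ) : ZMod 2) = 0 ∧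
    ((3 : ℕ) : ZMod 2) = 1 ∧ ((4 : ℕ) : ZMod 2) = 0 ∧ ((5 : ℕ) : ZMod 2) = 1 ∧
    ((6 : ℕ) : ZMod 2) = 0 ∧ ((7 : ℕ) : ZMod 2) = 1 ∧ ((8 : ℕ) : ZMod 2) = 0 := by decide

theorem bet_lt : bet < 0.41943 := by
  obtain ⟨c0, c1, c2, c3, c4, c5, c6, c7, c8⟩ := ce_vals
  obtain ⟨z0, z1, z2, z3, z4, z5, z6, z7, z8⟩ := zm
  have h1 := sum_le_hasSum (range 8) (fun e _ => lawc_nonneg 0 e) (hasSum_lawc 0)
  simp only [Finset.sum_range_succ, Finset.sum_range_zero, lawc_ce, z0, z1, z2, z3, z4, z5, z6, z7,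
    c0, c1, c2, c3, c4, c5, c6, c7, if_true, one_ne_zero, if_false] at h1
  norm_num at h1
  linarith

theorem bet_gt : 0.4194 < bet := by
  obtain ⟨c0, c1, c2, c3, c4, c5, c6, c7, c8⟩ := ce_vals
  obtain ⟨z0, z1, z2, z3, z4, z5, z6, z7, z8⟩ := zm
  have h0 := hasSum_lawc 0
  have h1 : (1 : ℝ) = ∑ e ∈ range 8, lawc 0 e + ∑' e : ℕ, lawc 0 (e + 8) := by
    rw [h0.summable.sum_add_tsum_nat_add 8, h0.tsum_eq]
  have h2 := tail_one 0
  have h3 : ∑' e : ℕ, lawc 0 (e + 8) ≤ ∑' e : ℕ, lawc 0 (e + 8) * ((e + 8 : ℕ) : ℝ) := by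
    refine Summable.tsum_le_tsum (fun e => ?_) ((summable_nat_add_iff 8).2 h0.summable)
      ((summable_nat_add_iff 8).2 (summable_mc 0))
    refine le_mul_of_one_le_right (lawc_nonneg _ _) ?_
    push_cast
    linarith [Nat.cast_nonneg (α := ℝ) e]
  have h4 := h1.le.trans (add_le_add_right (h3.trans h2) _)
  simp only [Finset.sum_range_succ, Finset.sum_range_zero, lawc_ce, z0, z1, z2, z3, z4, z5, z6, z7,
    c0, c1, c2, c3, c4, c5, c6, c7, c8, if_true, one_ne_zero, if_false] at h4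
  norm_num at h4
  norm_num
  linarith

theorem mc_zero : mc 0 < 1.204 := by
  obtain ⟨c0, c1, c2, c3, c4, c5, c6, c7, c8⟩ := ce_vals
  obtain ⟨z0, z1, z2, z3, z4, z5, z6, z7, z8⟩ := zm
  have h1 : mc 0 = ∑ e ∈ range 8, lawc 0 e * (e : ℝ) + ∑' e : ℕ, lawc 0 (e + 8) * ((e + 8 : ℕ) : ℝ) :=
    ((summable_mc 0).sum_add_tsum_nat_add 8).symm
  have h2 := tail_one 0
  rw [h1]
  simp only [Finset.sum_range_succ, Finset.sum_range_zero, lawc_ce, z0, z1, z2, z3, z4, z5, z6, z7,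
    c0, c1, c2, c3, c4, c5, c6, c7, c8, if_true, one_ne_zero, if_false] at h2 ⊢
  have h3 := bet_lt
  norm_num at h2 h3 ⊢
  linarith

theorem mc_one : mc 1 < 1.3251 := by
  obtain ⟨c0, c1, c2, c3, c4, c5, c6, c7, c8⟩ := ce_vals
  obtain ⟨z0, z1, z2, z3, z4, z5, z6, z7, z8⟩ := zm
  have h1 : mc 1 = ∑ e ∈ range 8, lawc 1 e * (e : ℝ) + ∑' e : ℕ, lawc 1 (e + 8) * ((e + 8 : ℕ) : ℝ) :=
    ((summable_mc 1).sum_add_tsum_nat_add 8).symm
  have h2 := tail_one 1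
  rw [h1]
  simp only [Finset.sum_range_succ, Finset.sum_range_zero, lawc_ce, z0, z1, z2, z3, z4, z5, z6, z7,
    c0, c1, c2, c3, c4, c5, c6, c7, c8, if_true, one_ne_zero, if_false] at h2 ⊢
  have h3 := bet_lt
  norm_num at h2 h3 ⊢
  linarith

end Q44.LD
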