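import Pool.Agent.Q155.NL.Dia

/-!
# Project LD: from almost all squarefree integers to almost all integers
-/

set_option autoImplicit false

open scoped Classical

namespace Q44.LD

open Finset Filter Topology
open Q155.NL (Alm alm_mono cnt cs mem_cs)

/-- the product of the prime divisors -/
def rad (N : ℕ) : ℕ := ∏ p ∈ N.primeFactors, p

theorem rad_dvd (N : ℕ) : rad N ∣ N := Nat.prod_primeFactors_dvd N

theorem rad_pos (N : ℕ) : 0 < rad N :=
  Finset.prod_pos fun _ hp => (Nat.prime_of_mem_primeFactors hp).pos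

theorem rad_pf (N : ℕ) : (rad N).primeFactors = N.primeFactors :=
  Nat.primeFactors_prod fun _ hp => Nat.prime_of_mem_primeFactors hp

theorem rad_sq (N : ℕ) : Squarefree (rad N) := by
  refine Finset.squarefree_prod_of_pairwise_isCoprime ?_ fun p hp =>
    (Nat.prime_of_mem_primeFactors hp).squarefree
  intro p hp q hq hpq
  exact Nat.coprime_iff_isRelPrime.1 ((Nat.coprime_primes (Nat.prime_of_mem_primeFactors hp)
    (Nat.prime_of_mem_primeFactors hq)).2 hpq)

/-- the squarefree divisors are the divisors of the radical -/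
theorem dvd_rad {N d : ℕ} (hN : N ≠ 0) (hd : Squarefree d) : d ∣ rad N ↔ d ∣ N := by
  refine ⟨fun h => h.trans (rad_dvd N), fun h => ?_⟩
  rw [← Nat.prod_primeFactors_of_squarefree hd]
  exact Finset.prod_dvd_prod_of_subset _ _ _ (Nat.primeFactors_mono h hN)

theorem rad_dvd_of {N x : ℕ} (h : ∀ p : ℕ, p.Prime → p ∣ N → p ∣ x) : rad N ∣ x := by
  refine Finset.prod_primes_dvd _ (fun p hp => (Nat.prime_of_mem_primeFactors hp).prime)
    fun p hp => h p (Nat.prime_of_mem_primeFactors hp) (Nat.dvd_of_mem_primeFactors hp)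

theorem cnt_true (X : ℕ) : cnt (fun _ => True) X = X := by
  have h : cs (fun _ => True) X = Icc 1 X := by
    ext N
    rw [mem_cs, Finset.mem_Icc]
    exact and_iff_left trivial
  unfold cnt
  rw [h, Nat.card_Icc]
  omega

/-- the integers divisible by the square of an integer larger than `M` -/
theorem card_sqd {M X : ℕ} (hM : M ≠ 0) :
    (cnt (fun N => ∃ m, M < m ∧ m ^ 2 ∣ N) X : ℝ) ≤ X / M := by
  have h1 : cs (fun N => ∃ m, M < m ∧ m ^ 2 ∣ N) X ⊆
      (Ioc M (max M X)).biUnion fun m => (Ioc 0 X).filter fun N => m ^ 2 ∣ N := by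
    intro N hN
    obtain ⟨⟨h1, h2⟩, m, h3, h4⟩ := mem_cs.1 hN
    have h5 : m ≤ N := (Nat.le_self_pow two_ne_zero m).trans (Nat.le_of_dvd h1 h4)
    refine Finset.mem_biUnion.2 ⟨m, Finset.mem_Ioc.2 ⟨h3, (h5.trans h2).trans (le_max_right _ _)⟩, ?_⟩
    exact Finset.mem_filter.2 ⟨Finset.mem_Ioc.2 ⟨h1, h2⟩, h4⟩
  have h2 : (cnt (fun N => ∃ m, M < m ∧ m ^ 2 ∣ N) X : ℝ) ≤
      ∑ m ∈ Ioc M (max M X), (X : ℝ) * ((m : ℝ) ^ 2)⁻¹ := by
    have h3 := (Finset.card_le_card h1).trans Finset.card_biUnion_le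
    refine (Nat.cast_le (α := ℝ).2 h3).trans ?_
    rw [Nat.cast_sum]
    refine Finset.sum_le_sum fun m hm => ?_
    rw [Nat.Ioc_filter_dvd_card_eq_div, ← div_eq_mul_inv]
    refine Nat.cast_div_le.trans (le_of_eq ?_)
    push_cast
    rfl
  refine h2.trans ?_
  rw [← Finset.mul_sum]
  have h3 := sum_Ioc_inv_sq_le_sub (α := ℝ) hM (le_max_left M X)
  have h4 : (0 : ℝ) ≤ ((max M X : ℕ) : ℝ)⁻¹ := by positivity
  rw [div_eq_mul_inv]
  exact mul_le_mul_of_nonneg_left (h3.trans (by linarith)) (Nat.cast_nonneg _)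

/-- **From the squarefree integers to all the integers.** -/
theorem alm_rad {P : ℕ → Prop} (h : Alm Squarefree P) : Alm (fun _ => True) fun N => P (rad N) := by
  intro ε hε
  obtain ⟨M, hM⟩ := exists_nat_gt (2 / ε)
  have hM0 : (0 : ℝ) < M := (by positivity : (0 : ℝ) < 2 / ε).trans hM
  have hM0' : M ≠ 0 := by
    rintro rfl
    simp at hM0
  have hε' : 0 < ε / (2 * (M : ℝ) ^ 2) := by positivity
  filter_upwards [h _ hε'] with X hX
  have h1 : (cnt (fun N => True ∧ ¬ P (rad N)) X : ℝ) ≤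
      cnt (fun N => ∃ m, M < m ∧ m ^ 2 ∣ N) X +
        (M : ℝ) ^ 2 * cnt (fun D => Squarefree D ∧ ¬ P D) X := by
    have h2 : cs (fun N => True ∧ ¬ P (rad N)) X ⊆ cs (fun N => ∃ m, M < m ∧ m ^ 2 ∣ N) X ∪
        ((Icc 1 M ×ˢ Icc 1 M) ×ˢ cs (fun D => Squarefree D ∧ ¬ P D) X).image
          fun z => z.1.1 ^ 2 * (z.2 / z.1.2) := by
      intro N hN
      obtain ⟨⟨h3, h4⟩, -, h5⟩ := mem_cs.1 hN
      obtain ⟨q, m, h6, h7⟩ := Nat.sq_mul_squarefree N
      by_cases hm : M < m
      · refine Finset.mem_union_left _ (mem_cs.2 ⟨⟨h3, h4⟩, m, hm, ?_⟩)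
        exact Dvd.intro _ h6
      · refine Finset.mem_union_right _ ?_
        have hN0 : N ≠ 0 := by omega
        have hm0 : 0 < m := by
          rcases Nat.eq_zero_or_pos m with h0 | h0
          · rw [h0] at h6
            simp at h6
            omega
          · exact h0
        have hq0 : 0 < q := by
          rcases Nat.eq_zero_or_pos q with h0 | h0
          · rw [h0] at h6
            simp at h6
            omega
          · exact h0
        have hqr : q ∣ rad N := (dvd_rad hN0 h7).2 (Dvd.intro_left _ h6)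
        obtain ⟨c, hc⟩ := hqr
        have hrm : rad N ∣ q * m := by
          refine rad_dvd_of fun p hp hpN => ?_
          rw [← h6] at hpN
          rcases (hp.dvd_mul).1 hpN with h8 | h8
          · exact (hp.dvd_of_dvd_pow h8).mul_left _
          · exact h8.mul_right _
        have hcm : c ∣ m := by
          rw [hc] at hrm
          exact Nat.dvd_of_mul_dvd_mul_left hq0 hrm
        have hc0 : 0 < c := Nat.pos_of_dvd_of_pos hcm hm0
        refine Finset.mem_image.2 ⟨((m, c), rad N), ?_, ?_⟩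
        · refine Finset.mem_product.2 ⟨Finset.mem_product.2 ⟨Finset.mem_Icc.2 ⟨hm0, not_lt.1 hm⟩,
            Finset.mem_Icc.2 ⟨hc0, (Nat.le_of_dvd hm0 hcm).trans (not_lt.1 hm)⟩⟩, ?_⟩
          exact mem_cs.2 ⟨⟨rad_pos N, (Nat.le_of_dvd (by omega) (rad_dvd N)).trans h4⟩, rad_sq N, h5⟩
        · show m ^ 2 * (rad N / c) = N
          rw [hc, Nat.mul_div_cancel _ hc0]
          exact h6
    have h3 := (Finset.card_le_card h2).trans ((Finset.card_union_le _ _).trans
      (Nat.add_le_add_left Finset.card_image_le _))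
    rw [Finset.card_product, Finset.card_product, Nat.card_Icc, Nat.add_sub_cancel] at h3
    have h4 : (cnt (fun N => True ∧ ¬ P (rad N)) X : ℝ) ≤
        ((cs (fun N => ∃ m, M < m ∧ m ^ 2 ∣ N) X).card +
          M * M * (cs (fun D => Squarefree D ∧ ¬ P D) X).card : ℕ) := Nat.cast_le.2 h3
    refine h4.trans (le_of_eq ?_)
    push_cast
    unfold cnt
    ring
  have h5 : (cnt Squarefree X : ℝ) ≤ X := by
    have := Q155.NL.cnt_mono (P := Squarefree) (Q := fun _ => True) (fun _ _ => trivial) X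
    rw [cnt_true] at this
    exact_mod_cast this
  rw [cnt_true]
  refine h1.trans ?_
  have h6 := card_sqd (M := M) (X := X) hM0'
  have h7 : (X : ℝ) / M ≤ ε / 2 * X := by
    rw [div_le_iff₀ hM0]
    have h8 : 1 ≤ ε / 2 * M := by
      rw [div_lt_iff₀ hε] at hM
      linarith
    have : (0 : ℝ) ≤ X := Nat.cast_nonneg _
    nlinarith
  have h8 : (M : ℝ) ^ 2 * cnt (fun D => Squarefree D ∧ ¬ P D) X ≤ ε / 2 * X := by
    calc (M : ℝ) ^ 2 * cnt (fun D => Squarefree D ∧ ¬ P D) X ≤
        (M : ℝ) ^ 2 * (ε / (2 * (M : ℝ) ^ 2) * X) :=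
          mul_le_mul_of_nonneg_left (hX.trans (mul_le_mul_of_nonneg_left h5 hε'.le)) (by positivity)
      _ = ε / 2 * X := by
        field_simp
  linarith

end Q44.LD
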