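import Pool.Agent.Q44.LD.Cnt
import Pool.Agent.Q44.LD.Rad

/-!
# Project LD: one set of integers of density one
-/

set_option autoImplicit false
set_option linter.unusedSectionVars false
set_option linter.unusedVariables false

open scoped Classical

namespace Q44.LD

open Finset Module Filter Topology
open Q44.JQ hiding cnt
open Q44.JQ.W Q44.JQ.M Q44.JQ.X
open Q155.NL (Alm alm_mono alm_and exists_dense tendsto_of_alm cnt)

/-- the class of tuples of squarefree divisors of `N` -/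
def Tn (S : Finset ℕ) {n : ℕ} (t₀ : Fin n → ℤ) (N : ℕ) : Set (Fin n → ℤ) :=
  {t | ∀ i, Squarefree (t i) ∧ t i ∣ (N : ℤ) ∧ 0 < t i * t₀ i ∧
    ∀ (l : ℕ) [Fact l.Prime], l ∈ S → IsSquare ((t i * t₀ i : ℤ) : ℚ_[l])}

theorem tn_eq (S : Finset ℕ) {n : ℕ} (t₀ : Fin n → ℤ) {N : ℕ} (hN : N ≠ 0) :
    Tn S t₀ N = Tp S t₀ (rad N) := by
  ext t
  refine forall_congr' fun i => ?_
  constructor
  · rintro ⟨h1, h2, h3⟩
    refine ⟨?_, h3⟩
    rw [← Int.natAbs_dvd, Int.natCast_dvd_natCast]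
    exact (dvd_rad hN (Int.squarefree_natAbs.2 h1)).2 (Int.natCast_dvd_natCast.1
      (Int.natAbs_dvd.2 h2))
  · rintro ⟨h1, h3⟩
    exact ⟨(Int.squarefree_natCast.2 (rad_sq N)).squarefree_of_dvd h1,
      h1.trans (Int.natCast_dvd_natCast.2 (rad_dvd N)), h3⟩

/-- the number of the tuples in a class of a good integer -/
theorem tn_card {S : Finset ℕ} (L : LB S) (hLSQ : S_LSQ) {n : ℕ} {N : ℕ} (hN : N ≠ 0)
    (hφ : Lbd S (rad N)) {t₀ : Fin n → ℤ} (h₀ : ∀ i, Squarefree (t₀ i)) :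
    ((Tn S t₀ N).Nonempty ↔ ∀ i, ∀ l ∈ S, (l : ℤ) ∣ t₀ i → l ∣ N) ∧ ((Tn S t₀ N).Nonempty →
      (Tn S t₀ N).ncard * 2 ^ (n * (S.card + 2 + (S.filter fun l => l ∣ N).card)) =
        (2 * 2 ^ N.primeFactors.card) ^ n) := by
  have h1 : ∀ l ∈ S, (l ∣ rad N ↔ l ∣ N) := fun l hl => dvd_rad hN (L.pr l hl).squarefree
  rw [tn_eq S t₀ hN]
  have h2 : (S.filter fun l => l ∣ N) = S.filter fun l => l ∣ rad N :=
    Finset.filter_congr fun l hl => (h1 l hl).symm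
  have h3 := tp_ne L hLSQ (rad_sq N) hφ h₀
  refine ⟨h3.trans ⟨fun h i l hl hd => (h1 l hl).1 (h i l hl hd),
    fun h i l hl hd => (h1 l hl).2 (h i l hl hd)⟩, fun hne => ?_⟩
  have h4 := tp_card L hLSQ (rad_sq N) hφ h₀ (h3.1 hne)
  rw [card_div (rad_sq N), rad_pf] at h4
  rw [h2]
  exact h4

/-- the set of the data -/
abbrev Dt : Type := Σ n : ℕ, Σ m : ℕ, (Fin m → Fin 3 → ℤ) × (Fin m → Finset (Fin n)) × Finset ℕ × ℕ

/-- **One set of integers of density one for everything.** -/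
theorem one_setN (H : FactsZ) : ∃ 𝒟 : ℕ → Prop, Alm (fun _ => True) 𝒟 ∧
    ∀ (n m : ℕ) (a : Fin m → Fin 3 → ℤ) (I : Fin m → Finset (Fin n)) (S : Finset ℕ), Val a I S →
      ∀ C ε : ℝ, 0 ≤ C → 0 < ε → ∀ᶠ N : ℕ in atTop, 𝒟 N → Lbd S (rad N) ∧ Gd a I S C ε (rad N) := by
  have : Nonempty Dt := ⟨⟨0, 0, fun k => k.elim0, fun k => k.elim0, ∅, 0⟩⟩
  obtain ⟨g, hg⟩ := exists_surjective_nat Dt
  have h1 : ∀ δ : Dt, Alm Squarefree fun D => Val δ.2.2.1 δ.2.2.2.1 δ.2.2.2.2.1 →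
      Lbd δ.2.2.2.2.1 D ∧
      Gd δ.2.2.1 δ.2.2.2.1 δ.2.2.2.2.1 ((δ.2.2.2.2.2 : ℝ) + 1) (1 / ((δ.2.2.2.2.2 : ℝ) + 1)) D := by
    intro δ
    by_cases hv : Val δ.2.2.1 δ.2.2.2.1 δ.2.2.2.2.1
    · have L := LB.of H.lbl hv.E.hT
      exact alm_mono (alm_and (alm_lbd L H.divm) (alm_Gd H hv (C := (δ.2.2.2.2.2 : ℝ) + 1)
        (ε := 1 / ((δ.2.2.2.2.2 : ℝ) + 1)) (by linarith [Nat.cast_nonneg (α := ℝ) δ.2.2.2.2.2])
        (by positivity))) fun D _ h _ => h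
    · exact alm_mono (Q155.NL.alm_true _) fun D _ _ h => absurd h hv
  obtain ⟨𝒟, h2, h3⟩ := exists_dense (C := fun _ => True) (T := fun j N =>
    Val (g j).2.2.1 (g j).2.2.2.1 (g j).2.2.2.2.1 → Lbd (g j).2.2.2.2.1 (rad N) ∧
      Gd (g j).2.2.1 (g j).2.2.2.1 (g j).2.2.2.2.1 (((g j).2.2.2.2.2 : ℝ) + 1)
        (1 / (((g j).2.2.2.2.2 : ℝ) + 1)) (rad N)) fun j => alm_rad (h1 (g j))
  refine ⟨𝒟, h2, fun n m a I S hv C ε hC0 hε => ?_⟩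
  obtain ⟨j₀, hj₀⟩ := exists_nat_gt (max C (1 / ε))
  obtain ⟨j, hj⟩ := hg ⟨n, m, a, I, S, j₀⟩
  filter_upwards [h3 j] with D h4 hD
  have h5 := h4 hD
  rw [hj] at h5
  obtain ⟨h6', h6⟩ := h5 hv
  refine ⟨h6', ?_⟩
  intro t₀ h₀ hne f hf
  refine (h6 t₀ h₀ hne f fun e => (hf e).trans ?_).trans ?_
  · have hCj : C ≤ (j₀ : ℝ) + 1 := ((le_max_left _ _).trans hj₀.le).trans (by linarith)
    exact pow_le_pow_left₀ hC0 hCj _
  · have h7 : 1 / ε < (j₀ : ℝ) + 1 := ((le_max_right _ _).trans_lt hj₀).trans (by linarith)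
    rw [div_lt_iff₀ hε] at h7
    rw [div_le_iff₀ (by positivity)]
    linarith

theorem alm_density {𝒟 : ℕ → Prop} (h : Alm (fun _ => True) 𝒟) :
    Tendsto (fun X : ℕ => (Nat.card {N : ℕ // 1 ≤ N ∧ N ≤ X ∧ 𝒟 N} : ℝ) / X) atTop (𝓝 1) := by
  refine (tendsto_of_alm ⟨1, le_rfl, trivial⟩ h).congr fun X => ?_
  rw [cnt_true]
  congr 2
  unfold cnt
  exact (Nat.subtype_card _ fun N => by rw [Q155.NL.mem_cs]; tauto).symm

end Q44.LD
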