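import Pool.Agent.Q44.LD.Fin

/-!
# Project LD: one set of integers for all families, forms, classes and functions
-/

set_option autoImplicit false
set_option linter.unusedSectionVars false
set_option linter.unusedVariables false

open scoped Classical

namespace Q44.LD

open Finset Module Filter Topology
open Pool.Agent.TH344.JG (LocJ SelJ PR df)
open Pool.Agent.Y723.PT (tw)
open Q44.JQ hiding cnt
open Q44.JQ.W Q44.JQ.M Q44.JQ.X
open Q155.NL (Alm alm_mono alm_finset cnt cs mem_cs exists_dense tendsto_of_alm)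

/-- the class of tuples of divisors -/
def Tp (S : Finset ℕ) {n : ℕ} (t₀ : Fin n → ℤ) (D : ℕ) : Set (Fin n → ℤ) :=
  {t | ∀ i, t i ∣ (D : ℤ) ∧ 0 < t i * t₀ i ∧
    ∀ (l : ℕ) [Fact l.Prime], l ∈ S → IsSquare ((t i * t₀ i : ℤ) : ℚ_[l])}

/-- the mean over a finite set -/
noncomputable def mean {α : Type} (A : Set α) (f : α → ℝ) : ℝ := (∑ᶠ t ∈ A, f t) / A.ncard

theorem mean_eq {α : Type} (A : Set α) [Fintype A] (f : α → ℝ) :
    mean A f = (∑ t : A, f t) / Fintype.card A := by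
  unfold mean
  rw [← finsum_set_coe_eq_finsum_mem A, finsum_eq_sum_of_fintype, ← Nat.card_coe_set_eq,
    Nat.card_eq_fintype_card]

/-- the valid data: curves, forms, primes -/
structure Val {n m : ℕ} (a : Fin m → Fin 3 → ℤ) (I : Fin m → Finset (Fin n)) (S : Finset ℕ) : Prop where
  ha : ∀ k, Function.Injective (a k)
  h0 : ∀ k, a k 0 + a k 1 + a k 2 = 0
  c4 : ∀ k i j l, i ≠ j → i ≠ l → j ≠ l → ∀ s : ℤ, (a k i - a k j) * (a k i - a k l) ≠ s ^ 2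
  I0 : ∀ k, (I k).Nonempty
  ne : ∀ k l, k ≠ l → I k = I l → ∀ σ : Equiv.Perm (Fin 3), ∃ i j, i ≠ j ∧
    ∀ s : ℤ, (a k i - a k j) * (a l (σ i) - a l (σ j)) ≠ s ^ 2
  pr : ∀ p ∈ S, p.Prime
  two : 2 ∈ S
  sup : ∀ k i j, i ≠ j → ∀ p : ℕ, p.Prime → (p : ℤ) ∣ a k i - a k j → p ∈ S

/-- the indicator of the form -/
def ind {n : ℕ} (I : Finset (Fin n)) (i : Fin n) : ZMod 2 := if i ∈ I then 1 else 0

theorem ind_ne {n : ℕ} {I : Finset (Fin n)} {i : Fin n} : ind I i = 0 ↔ i ∉ I := by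
  unfold ind
  split_ifs with h
  · exact ⟨fun h1 => absurd h1 one_ne_zero, fun h1 => absurd h h1⟩
  · exact ⟨fun _ => h, fun _ => rfl⟩

theorem ind_inj {n : ℕ} {I I' : Finset (Fin n)} (h : ind I = ind I') : I = I' := by
  ext i
  have h1 := congrFun h i
  by_contra hc
  rw [← not_iff_not, ← ind_ne (I := I), ← ind_ne (I := I'), h1] at hc
  exact hc Iff.rfl

theorem pf_ind {n : ℕ} (I : Finset (Fin n)) (t : Fin n → ℤ) : pf (ind I) t = ∏ i ∈ I, t i := by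
  unfold pf
  have h1 : ∀ i, (if ind I i = 0 then 1 else t i) = if i ∈ I then t i else 1 := by
    intro i
    by_cases h : i ∈ I
    · rw [if_neg (fun h' => (ind_ne.1 h') h), if_pos h]
    · rw [if_pos (ind_ne.2 h), if_neg h]
  rw [Finset.prod_congr rfl fun i _ => h1 i, Finset.prod_ite_mem, Finset.univ_inter]

variable {n m : ℕ} {a : Fin m → Fin 3 → ℤ} {I : Fin m → Finset (Fin n)} {S : Finset ℕ}

/-- the family -/
def Val.E (h : Val a I S) : Ef (Fin m) (Fin n) where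
  a := a
  ha := h.ha
  h0 := h.h0
  c4 := h.c4
  I := fun k => ind (I k)
  I0 := fun k h' => by
    obtain ⟨i, hi⟩ := h.I0 k
    have h1 := congrFun h' i
    exact (ind_ne.1 h1) hi
  ne := fun k l hkl hI => h.ne k l hkl (ind_inj hI)
  T := S
  hT := ⟨h.pr, h.two⟩
  sup := h.sup

/-- the vector of the Selmer ranks -/
noncomputable def wv (a : Fin m → Fin 3 → ℤ) (I : Fin m → Finset (Fin n)) (t : Fin n → ℤ) (k : Fin m) :
    ℕ := wr (a k) (∏ i ∈ I k, t i)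

theorem w_eq (h : Val a I S) (t : Fin n → ℤ) : h.E.w t = wv a I t := by
  funext k
  show wr (a k) (pf (ind (I k)) t) = _
  rw [pf_ind]
  rfl

/-- the statement for one integer `D` -/
def Gd (a : Fin m → Fin 3 → ℤ) (I : Fin m → Finset (Fin n)) (S : Finset ℕ) (C ε : ℝ) (D : ℕ) : Prop :=
  ∀ t₀ : Fin n → ℤ, (∀ i, Squarefree (t₀ i)) → (Tp S t₀ D).Nonempty → ∀ f : (Fin m → ℕ) → ℝ,
    (∀ e, |f e| ≤ C ^ (1 + ∑ k, e k)) → |mean (Tp S t₀ D) (fun t => f (wv a I t)) -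
      ∑' e : Fin m → ℕ, f e * ∏ k, lawc ((wv a I t₀ k : ℕ) : ZMod 2) (e k)| ≤ ε

theorem tp_iff {T : Finset ℕ} (L : LB T) (hLSQ : S_LSQ) {D : ℕ} (hD : Squarefree D) {t₀ : Fin n → ℤ}
    (h₀ : ∀ i, Squarefree (t₀ i)) (t : Fin n → ℤ) :
    t ∈ Tp T t₀ D ↔ InC T (fun i => clD T (t₀ i)) (D : ℤ) t := by
  refine forall_congr' fun i => and_congr_right fun hi => ?_
  have h1 : Squarefree (t i) := (Int.squarefree_natCast.2 hD).squarefree_of_dvd hi
  exact (cls_iff L hLSQ (h₀ i) h1).symm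

theorem tp_fin {T : Finset ℕ} {D : ℕ} (hD : D ≠ 0) (t₀ : Fin n → ℤ) : (Tp T t₀ D).Finite := by
  refine Set.Finite.subset (Set.Finite.pi' fun _ : Fin n => Set.finite_Icc (-(D : ℤ)) D) ?_
  intro t ht i
  have h1 := Int.le_of_dvd (by omega) ((abs_dvd _ _).2 (ht i).1)
  exact abs_le.1 h1

/-- the facts over the rationals -/
theorem fct_all (H : FactsZ) (h : Val a I S) (k : Fin m) : ∀ D : ℤ, D ≠ 0 →
      Finite (Pool.Agent.Y667.SX.Sel2H (cv (tw D (a k)))) ∧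
      Nat.card (Pool.Agent.Y667.SX.Sel2H (cv (tw D (a k)))) = 2 ^ (2 + wr (a k) D) ∧
      Finite {x : Pool.Agent.TH841.SH.D.Sha (cv (tw D (a k))) // x + x = 0} ∧
      2 ^ Module.finrank ℤ (cv (tw D (a k))).toAffine.Point *
        Nat.card {x : Pool.Agent.TH841.SH.D.Sha (cv (tw D (a k))) // x + x = 0} =
          2 ^ wr (a k) D := by
  intro D hD
  have L := LB.of H.lbl h.E.hT
  obtain ⟨P⟩ := (h.E.Gx H.irrB L).exLo L H.arxe
  obtain ⟨-, h2, h3, h4, h5⟩ := fct P H.ell k D hD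
  exact ⟨h2, h3, h4, h5⟩

/-- the parity depends on the class only -/
theorem par_all (H : FactsZ) (h : Val a I S) {t₀ t : Fin n → ℤ} (h₀ : ∀ i, Squarefree (t₀ i))
    (ht : ∀ i, Squarefree (t i)) (hc : ∀ i, 0 < t i * t₀ i ∧
      ∀ (l : ℕ) [Fact l.Prime], l ∈ S → IsSquare ((t i * t₀ i : ℤ) : ℚ_[l])) (k : Fin m) :
    ((wv a I t k : ℕ) : ZMod 2) = wv a I t₀ k := by
  have L := LB.of H.lbl h.E.hT
  obtain ⟨P⟩ := (h.E.Gx H.irrB L).exLo L H.arxe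
  have h1 := par_tup P H.ell H.par0 ht (x := fun i => clD S (t₀ i)) (fun i =>
    (cls_iff L H.lsq (h₀ i) (ht i)).2 (hc i)) k
  have h2 := par_tup P H.ell H.par0 h₀ (x := fun i => clD S (t₀ i)) (fun i => rfl) k
  rw [w_eq] at h1 h2
  rw [h1, h2]

theorem alm_Gd (H : FactsZ) (h : Val a I S) {C ε : ℝ} (hC : 1 ≤ C) (hε : 0 < ε) :
    Alm Squarefree (Gd a I S C ε) := by
  have L := LB.of H.lbl h.E.hT
  obtain ⟨P⟩ := (h.E.Gx H.irrB L).exLo L H.arxe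
  refine alm_mono (h.E.almF H P hC hε) fun D hD hM => ?_
  intro t₀ h₀ hne f hf
  have hset : Tp S t₀ D = {t | InC S (fun i => clD S (t₀ i)) (D : ℤ) t} :=
    Set.ext fun t => tp_iff L H.lsq hD h₀ t
  have hfin := tp_fin (T := S) hD.ne_zero t₀
  rw [hset] at hfin hne ⊢
  have iF : Fintype {t : Fin n → ℤ // InC S (fun i => clD S (t₀ i)) (D : ℤ) t} := hfin.fintype
  have iN : Nonempty {t : Fin n → ℤ // InC S (fun i => clD S (t₀ i)) (D : ℤ) t} := hne.to_subtype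
  have h1 := @hM (fun i => clD S (t₀ i)) iF iN f hf
  have h2 : ∀ k, P.pi (fun i => clD S (t₀ i)) k = ((wv a I t₀ k : ℕ) : ZMod 2) := by
    intro k
    rw [← w_eq h]
    exact (par_tup P H.ell H.par0 h₀ (fun i => rfl) k).symm
  have h3 := @mean_eq (Fin n → ℤ) {t | InC S (fun i => clD S (t₀ i)) (D : ℤ) t} iF
    (fun t => f (wv a I t))
  rw [h3]
  simp only [h2, w_eq h] at h1
  exact h1

/-- the set of the data -/
abbrev Dat : Type := Σ n : ℕ, Σ m : ℕ, (Fin m → Fin 3 → ℤ) × (Fin m → Finset (Fin n)) × Finset ℕ × ℕ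

/-- **One set of integers for everything.** -/
theorem one_set (H : FactsZ) : ∃ 𝒟 : ℕ → Prop, Alm Squarefree 𝒟 ∧
    ∀ (n m : ℕ) (a : Fin m → Fin 3 → ℤ) (I : Fin m → Finset (Fin n)) (S : Finset ℕ), Val a I S →
      ∀ C ε : ℝ, 0 ≤ C → 0 < ε → ∀ᶠ D : ℕ in atTop, 𝒟 D → Gd a I S C ε D := by
  have : Nonempty Dat := ⟨⟨0, 0, fun k => k.elim0, fun k => k.elim0, ∅, 0⟩⟩
  obtain ⟨g, hg⟩ := exists_surjective_nat Dat
  have h1 : ∀ δ : Dat, Alm Squarefree fun D => Val δ.2.2.1 δ.2.2.2.1 δ.2.2.2.2.1 →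
      Gd δ.2.2.1 δ.2.2.2.1 δ.2.2.2.2.1 ((δ.2.2.2.2.2 : ℝ) + 1) (1 / ((δ.2.2.2.2.2 : ℝ) + 1)) D := by
    intro δ
    by_cases hv : Val δ.2.2.1 δ.2.2.2.1 δ.2.2.2.2.1
    · refine alm_mono (alm_Gd H hv (C := (δ.2.2.2.2.2 : ℝ) + 1)
        (ε := 1 / ((δ.2.2.2.2.2 : ℝ) + 1)) (by linarith [Nat.cast_nonneg (α := ℝ) δ.2.2.2.2.2])
        (by positivity)) fun D _ h _ => h
    · exact alm_mono (Q155.NL.alm_true _) fun D _ _ h => absurd h hv
  obtain ⟨𝒟, h2, h3⟩ := exists_dense (C := Squarefree) (T := fun j D =>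
    Val (g j).2.2.1 (g j).2.2.2.1 (g j).2.2.2.2.1 →
      Gd (g j).2.2.1 (g j).2.2.2.1 (g j).2.2.2.2.1 (((g j).2.2.2.2.2 : ℝ) + 1)
        (1 / (((g j).2.2.2.2.2 : ℝ) + 1)) D) fun j => h1 (g j)
  refine ⟨𝒟, h2, fun n m a I S hv C ε hC0 hε => ?_⟩
  obtain ⟨j₀, hj₀⟩ := exists_nat_gt (max C (1 / ε))
  obtain ⟨j, hj⟩ := hg ⟨n, m, a, I, S, j₀⟩
  filter_upwards [h3 j] with D h4 hD
  have h5 := h4 hD
  rw [hj] at h5
  have h6 := h5 hv
  intro t₀ h₀ hne f hf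
  refine (h6 t₀ h₀ hne f fun e => (hf e).trans ?_).trans ?_
  · have hCj : C ≤ (j₀ : ℝ) + 1 := ((le_max_left _ _).trans hj₀.le).trans (by linarith)
    exact pow_le_pow_left₀ hC0 hCj _
  · have h7 : 1 / ε < (j₀ : ℝ) + 1 := ((le_max_right _ _).trans_lt hj₀).trans (by linarith)
    rw [div_lt_iff₀ hε] at h7
    rw [div_le_iff₀ (by positivity)]
    linarith

end Q44.LD
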