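import Pool.Agent.Q44.JQ.StmG

/-!
# Project LD: the twist by a square
-/

set_option autoImplicit false

namespace Q44.LD

open Finset Polynomial
open Pool.Agent.TH344.JG (LocJ SelJ)
open Pool.Agent.Y723.PT (tw)

theorem locJ_sc {K : Type} [Field K] {n : ℕ} {a a' d : Fin n → ℤ} {w : K} (hw : w ≠ 0)
    (h : ∀ i, ((a' i : ℤ) : K) = w ^ 2 * ((a i : ℤ) : K)) (hl : LocJ K a d) : LocJ K a' d := by
  obtain ⟨u, v, hu, hdv, hs⟩ := hl
  have hw2 : w ^ 2 ≠ 0 := pow_ne_zero 2 hw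
  set c : K := (w ^ 2)⁻¹ with hc
  have hc0 : c ≠ 0 := inv_ne_zero hw2
  set φ : K[X] := C c * X with hφ
  have hdeg : φ.natDegree = 1 := natDegree_C_mul_X c hc0
  have hlead : φ.leadingCoeff = c := leadingCoeff_C_mul_X c
  have hev : ∀ (f : K[X]) (x : K), (f.comp φ).eval (w ^ 2 * x) = f.eval x := by
    intro f x
    rw [eval_comp, hφ, eval_mul, eval_C, eval_X, hc, inv_mul_cancel_left₀ hw2]
  refine ⟨C (w ^ (2 * u.natDegree)) * u.comp φ, C (w ^ n) * v.comp φ, ?_, ?_, ?_⟩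
  · unfold Monic
    rw [leadingCoeff_mul, leadingCoeff_C, leadingCoeff_comp (by rw [hdeg]; exact one_ne_zero), hlead,
      hu.leadingCoeff, one_mul, hc, inv_pow, ← pow_mul]
    exact mul_inv_cancel₀ (pow_ne_zero _ hw)
  · have h1 : u.comp φ ∣ (∏ i, (X - C ((a i : ℤ) : K)) - v ^ 2).comp φ := by
      obtain ⟨q, hq⟩ := hdv
      exact ⟨q.comp φ, by rw [hq, mul_comp]⟩
    have h2 : (∏ i, (X - C ((a' i : ℤ) : K)) - (C (w ^ n) * v.comp φ) ^ 2 : K[X]) =
        C (w ^ (2 * n)) * (∏ i, (X - C ((a i : ℤ) : K)) - v ^ 2).comp φ := by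
      rw [sub_comp, mul_sub, pow_comp, mul_pow, ← C_pow, ← pow_mul, mul_comm n 2]
      congr 1
      rw [Polynomial.prod_comp]
      have h3 : ∀ i : Fin n, (X - C ((a' i : ℤ) : K) : K[X]) =
          C (w ^ 2) * (X - C ((a i : ℤ) : K)).comp φ := by
        intro i
        rw [sub_comp, X_comp, C_comp, hφ, mul_sub, ← mul_assoc, ← C_mul, ← C_mul, h i, hc,
          mul_inv_cancel₀ hw2, C_1, one_mul]
      rw [Finset.prod_congr rfl fun i _ => h3 i, Finset.prod_mul_distrib, Finset.prod_const,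
        Finset.card_univ, Fintype.card_fin, ← C_pow, ← pow_mul]
    rw [h2]
    have h4 : IsUnit (C (w ^ (2 * u.natDegree)) : K[X]) :=
      isUnit_C.2 (isUnit_iff_ne_zero.2 (pow_ne_zero _ hw))
    exact (h4.mul_left_dvd).2 (h1.mul_left _)
  · intro i
    have h5 : (C (w ^ (2 * u.natDegree)) * u.comp φ).natDegree = u.natDegree := by
      rw [natDegree_C_mul (pow_ne_zero _ hw), natDegree_comp, hdeg, mul_one]
    obtain ⟨h6, h7⟩ := hs i
    rw [h i, eval_mul, eval_C, hev, h5]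
    refine ⟨mul_ne_zero (pow_ne_zero _ hw) h6, ?_⟩
    obtain ⟨r, hr⟩ := h7
    refine ⟨w ^ u.natDegree * r, ?_⟩
    have h8 : (-1) ^ u.natDegree * (w ^ (2 * u.natDegree) * eval ((a i : ℤ) : K) u) * ((d i : ℤ) : K) =
        w ^ (2 * u.natDegree) * ((-1) ^ u.natDegree * eval ((a i : ℤ) : K) u * ((d i : ℤ) : K)) := by
      ring
    rw [h8, hr]
    ring

theorem locJ_tw {K : Type} [Field K] [CharZero K] {n : ℕ} {a d : Fin n → ℤ} {q w : ℤ} (hw : w ≠ 0) :
    LocJ K (tw (q * w ^ 2) a) d ↔ LocJ K (tw q a) d := by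
  have hw' : ((w : ℤ) : K) ≠ 0 := Int.cast_ne_zero.2 hw
  constructor
  · refine locJ_sc (w := ((w : ℤ) : K)⁻¹) (inv_ne_zero hw') fun i => ?_
    show ((q * a i : ℤ) : K) = _ * ((q * w ^ 2 * a i : ℤ) : K)
    push_cast
    field_simp
  · refine locJ_sc (w := ((w : ℤ) : K)) hw' fun i => ?_
    show ((q * w ^ 2 * a i : ℤ) : K) = _ * ((q * a i : ℤ) : K)
    push_cast
    ring

/-- the twists by `q` and by `q w ^ 2` have the same Selmer group -/
theorem selJ_sq {n : ℕ} {a : Fin n → ℤ} {q w : ℤ} (hw : w ≠ 0) :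
    SelJ (tw (q * w ^ 2) a) = SelJ (tw q a) := by
  ext d
  unfold SelJ
  simp only [Set.mem_ofPred_eq]
  rw [locJ_tw hw]
  refine and_congr_right fun _ => and_congr_right fun _ => ?_
  refine forall_congr' fun p => forall_congr' fun hp => ?_
  exact locJ_tw hw

end Q44.LD
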