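import Pool.Agent.Q44.LD.Mix
import Pool.Agent.Q44.LD.Lw

/-!
# Project LD: the laws over all the signed divisors and over the positive divisors
-/

set_option autoImplicit false
set_option linter.unusedSectionVars false
set_option linter.unusedVariables false

open scoped Classical

namespace Q44.LD

open Finset Module Filter Topology
open Q44.JQ hiding cnt
open Q44.JQ.W Q44.JQ.M Q44.JQ.X
open Pool.Agent.Q269.MF (bet)
open Pool.Agent.Q269.SL (law2)
open Pool.Agent.Y723.PT (tw)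

/-! ### Classes with the other sign -/

theorem cls_neg {T : Finset ℕ} (L : LB T) (hLSQ : S_LSQ) (hNEG : S_NEG) {D₀ D : ℤ}
    (h0 : Squarefree D₀) (hD : Squarefree D) (h1 : D * D₀ < 0)
    (h2 : ∀ (l : ℕ) [Fact l.Prime], l ∈ T → IsSquare ((D * D₀ : ℤ) : ℚ_[l])) :
    clD T D = flip (clD T D₀) := by
  obtain ⟨g1, g2, g3⟩ := L.dec hD
  obtain ⟨g1', g2', g3'⟩ := L.dec h0
  obtain ⟨u, hu1, hu2, hu3⟩ := hNEG T L.pr L.two
  have hsg : (ct D : Option T → ZMod 2) = ct D₀ + en T := by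
    funext o
    rw [Pi.add_apply]
    cases o with
    | none =>
      rw [ct_none, ct_none]
      have he : en T none = 1 := Pi.single_eq_same none 1
      rw [he]
      rcases lt_or_gt_of_ne hD.ne_zero with h | h
      · rw [if_pos h, if_neg (by nlinarith)]
        decide
      · rw [if_neg (by omega), if_pos (by nlinarith)]
        decide
    | some t =>
      rw [ct_some, ct_some]
      have he : en T (some t) = 0 := Pi.single_eq_of_ne (by simp) 1
      rw [he, add_zero]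
      have := Fact.mk (L.pr t t.2)
      obtain ⟨r, hr⟩ := h2 t t.2
      have hr0 : r ≠ 0 := by
        rintro rfl
        rw [mul_zero] at hr
        exact (mul_ne_zero hD.ne_zero h0.ne_zero) (Int.cast_eq_zero.1 hr)
      have h3 : Padic.valuation (((D * D₀ : ℤ)) : ℚ_[(t : ℕ)]) = 2 * Padic.valuation r := by
        rw [hr, Padic.valuation_mul hr0 hr0]
        ring
      rw [Padic.valuation_intCast] at h3
      have h4 : padicValInt t (D * D₀) = padicValInt t D + padicValInt t D₀ :=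
        padicValInt.mul hD.ne_zero h0.ne_zero
      have h5 : (((padicValInt t D + padicValInt t D₀ : ℕ)) : ZMod 2) = 0 := by
        rw [← h4]
        have h6 : ∃ k : ℕ, padicValInt t (D * D₀) = 2 * k := by
          obtain ⟨k, hk⟩ : ∃ k : ℕ, (k : ℤ) = Padic.valuation r := by
            refine ⟨(Padic.valuation r).toNat, Int.toNat_of_nonneg ?_⟩
            omega
          exact ⟨k, by omega⟩
        obtain ⟨k, hk⟩ := h6
        rw [hk, Nat.cast_mul]
        have : ((2 : ℕ) : ZMod 2) = 0 := by decide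
        rw [this, zero_mul]
      rw [Nat.cast_add] at h5
      have h7 : ∀ x y : ZMod 2, x + y = 0 → x = y := by decide
      exact h7 _ _ h5
  refine Prod.ext hsg ?_
  show lbl T (nD T D) = lbl T (nD T D₀) + en T
  have hU1 : Uo (ct D : Option T → ZMod 2) = -Uo (ct D₀ : Option T → ZMod 2) := by
    rw [hsg]
    exact uo_en _
  have hc : Cop T (nD T D * u) := L.cop_mul g3 hu1
  have hc2 : Cop T (nD T D * u * nD T D₀) := L.cop_mul hc g3'
  have h3 := hLSQ T L.pr L.two _ hc2 (fun p _ hp => by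
    obtain ⟨r, hr⟩ := h2 p hp
    obtain ⟨w, hw⟩ := hu3 p hp
    have hU : ((Uo (ct D₀ : Option T → ZMod 2) : ℤ) : ℚ_[p]) ≠ 0 := Int.cast_ne_zero.2 (L.U0 _)
    refine isSquare_of_mul_sq hU ⟨r * w, ?_⟩
    have e3 : D * D₀ = -((Uo (ct D₀ : Option T → ZMod 2)) ^ 2 * ((nD T D : ℕ) * (nD T D₀ : ℕ))) := by
      conv_lhs => rw [g1, g1', hU1]
      ring
    have e4 : r * w * (r * w) = (r * r) * (w * w) := by ring
    rw [e4, ← hr, ← hw, e3]
    push_cast
    ring)
  rw [L.add _ _ hc g3', L.add _ _ g3 hu1, hu2] at h3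
  have h7 : ∀ x y z : Option T → ZMod 2, x + y + z = 0 → x = z + y := by
    intro x y z h
    funext o
    have h8 := congrFun h o
    rw [Pi.add_apply, Pi.add_apply, Pi.zero_apply] at h8
    rw [Pi.add_apply]
    have key : ∀ a b c : ZMod 2, a + b + c = 0 → a = c + b := by decide
    exact key _ _ _ h8
  have h8 := h7 _ _ _ h3
  rw [h8]
  rfl

/-- **The parity changes with the sign.** -/
theorem par_neg (H : FactsZ) (HS : FactsS) {a : Fin 3 → ℤ} {S : Finset ℕ} (hv : Vone a S) {d d' : ℤ}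
    (hd : Squarefree d) (hd' : Squarefree d') (h1 : d' * d < 0)
    (h2 : ∀ (l : ℕ) [Fact l.Prime], l ∈ S → IsSquare ((d' * d : ℤ) : ℚ_[l])) :
    ((wr a d' : ℕ) : ZMod 2) = (wr a d : ℕ) + 1 :=
  par_flip H HS hv hd hd' (cls_neg (LB.of H.lbl hv.val1.E.hT) H.lsq HS.neg hd hd' h1 h2)

theorem wv_one (a : Fin 3 → ℤ) (d : ℤ) :
    wv (fun _ : Fin 1 => a) (fun _ => ({0} : Finset (Fin 1))) (fun _ => d) 0 = wr a d := by
  unfold wv
  rw [Finset.prod_singleton]

/-- the parity is constant in a class -/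
theorem par_cls (H : FactsZ) {a : Fin 3 → ℤ} {S : Finset ℕ} (hv : Vone a S) {d d' : ℤ}
    (hd : Squarefree d) (hd' : Squarefree d') (h : clD S d = clD S d') :
    ((wr a d : ℕ) : ZMod 2) = (wr a d' : ℕ) := by
  have L := LB.of H.lbl hv.val1.E.hT
  have h1 := par_all H hv.val1 (t₀ := fun _ => d') (t := fun _ => d) (fun _ => hd') (fun _ => hd)
    (fun _ => (cls_iff L H.lsq hd' hd).1 h) 0
  rw [wv_one, wv_one] at h1
  exact h1

/-! ### Sums over the divisors -/

theorem sd_eq {D : ℕ} (hD : D ≠ 0) : sd D = D.divisors.image (fun d : ℕ => (d : ℤ)) ∪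
    D.divisors.image (fun d : ℕ => -(d : ℤ)) := by
  ext z
  rw [mem_sd hD, Finset.mem_union, Finset.mem_image, Finset.mem_image]
  constructor
  · intro h
    have h1 : z.natAbs ∣ D := Int.natCast_dvd_natCast.1 (Int.natAbs_dvd.2 h)
    rcases Int.natAbs_eq z with h2 | h2
    · exact Or.inl ⟨z.natAbs, Nat.mem_divisors.2 ⟨h1, hD⟩, h2.symm⟩
    · exact Or.inr ⟨z.natAbs, Nat.mem_divisors.2 ⟨h1, hD⟩, h2.symm⟩
  · rintro (⟨d, hd, rfl⟩ | ⟨d, hd, rfl⟩)
    · exact Int.natCast_dvd_natCast.2 (Nat.dvd_of_mem_divisors hd)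
    · exact (neg_dvd).2 (Int.natCast_dvd_natCast.2 (Nat.dvd_of_mem_divisors hd))

theorem sd_disj (D : ℕ) : Disjoint (D.divisors.image (fun d : ℕ => (d : ℤ)))
    (D.divisors.image (fun d : ℕ => -(d : ℤ))) := by
  rw [Finset.disjoint_left]
  intro z hz hz'
  obtain ⟨d, hd, rfl⟩ := Finset.mem_image.1 hz
  obtain ⟨d', hd', h⟩ := Finset.mem_image.1 hz'
  have h1 := Nat.pos_of_mem_divisors hd
  have h2 := Nat.pos_of_mem_divisors hd'
  omega

theorem sd_sum {D : ℕ} (hD : D ≠ 0) {R : Type} [AddCommMonoid R] (g : ℤ → R) :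
    ∑ d ∈ sd D, g d = ∑ d ∈ D.divisors, (g (d : ℤ) + g (-(d : ℤ))) := by
  rw [sd_eq hD, Finset.sum_union (sd_disj D), Finset.sum_add_distrib, Finset.sum_image,
    Finset.sum_image]
  · intro x _ y _ h
    have h' : -(x : ℤ) = -(y : ℤ) := h
    omega
  · intro x _ y _ h
    have h' : (x : ℤ) = (y : ℤ) := h
    omega

theorem card_sd {D : ℕ} (hD : D ≠ 0) : (sd D).card = 2 * D.divisors.card := by
  have h1 := sd_sum hD (R := ℕ) fun _ => 1
  simp only [Finset.sum_const, smul_eq_mul, mul_one] at h1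
  rw [h1]
  ring

theorem div_mul {q D : ℕ} (h : q.Coprime D) {R : Type} [AddCommMonoid R] (g : ℕ → R) :
    ∑ d ∈ (q * D).divisors, g d = ∑ u ∈ q.divisors, ∑ d ∈ D.divisors, g (u * d) := by
  rw [← Finset.sum_product', Nat.divisors_mul, Finset.mul_def,
    Finset.sum_image h.mul_injOn_divisors]

theorem sd_mul {q D : ℕ} (h : q.Coprime D) (hq : q ≠ 0) (hD : D ≠ 0) {R : Type} [AddCommMonoid R]
    (g : ℤ → R) : ∑ d ∈ sd (q * D), g d = ∑ u ∈ q.divisors, ∑ d ∈ sd D, g (u * d) := by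
  rw [sd_sum (mul_ne_zero hq hD), div_mul h (fun d => g (d : ℤ) + g (-(d : ℤ)))]
  refine Finset.sum_congr rfl fun u _ => ?_
  rw [sd_sum hD]
  refine Finset.sum_congr rfl fun d _ => ?_
  rw [Nat.cast_mul, mul_neg]

/-- the radical of a product -/
theorem rad_mul {M N : ℕ} (hM : M ≠ 0) (hN : N ≠ 0) :
    ∃ q : ℕ, q ∣ M ∧ q.Coprime (rad N) ∧ rad (M * N) = q * rad N := by
  refine ⟨∏ p ∈ (M * N).primeFactors \ N.primeFactors, p, ?_, ?_, ?_⟩
  · refine Finset.prod_primes_dvd _ (fun p hp => ?_) fun p hp => ?_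
    · exact (Nat.prime_of_mem_primeFactors (Finset.mem_sdiff.1 hp).1).prime
    · obtain ⟨h1, h2⟩ := Finset.mem_sdiff.1 hp
      have h3 := Nat.prime_of_mem_primeFactors h1
      rcases (Nat.Prime.dvd_mul h3).1 (Nat.dvd_of_mem_primeFactors h1) with h4 | h4
      · exact h4
      · exact absurd (Nat.mem_primeFactors.2 ⟨h3, h4, hN⟩) h2
  · refine Nat.Coprime.prod_left fun p hp => ?_
    obtain ⟨h1, h2⟩ := Finset.mem_sdiff.1 hp
    have h3 := Nat.prime_of_mem_primeFactors h1
    refine (Nat.Prime.coprime_iff_not_dvd h3).2 fun h4 => h2 ?_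
    exact Nat.mem_primeFactors.2 ⟨h3, h4.trans (rad_dvd N), hN⟩
  · unfold rad
    exact (Finset.prod_sdiff (Nat.primeFactors_mono (Dvd.intro_left _ rfl)
      (mul_ne_zero hM hN))).symm

end Q44.LD
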