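import Pool.Agent.Q44.LD.Sd
import Pool.Agent.Q44.LD.One

/-!
# Project LD: the laws over all the signed divisors and over the positive divisors, II
-/

set_option autoImplicit false
set_option linter.unusedSectionVars false
set_option linter.unusedVariables false

open scoped Classical

namespace Q44.LD

open Finset Module Filter Topology
open Q44.JQ hiding cnt
open Q44.JQ.W Q44.JQ.M Q44.JQ.X
open Pool.Agent.Q269.MF (bet)
open Pool.Agent.Q269.SL (law2)
open Pool.Agent.Y723.PT (tw)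

/-- the mean of `f` for the law -/
noncomputable def Mu (f : ℕ → ℝ) : ℝ := ∑' e : ℕ, f e * law2 e

theorem summ_Jc {f : ℕ → ℝ} {C : ℝ} (hC : 0 ≤ C) (hf : ∀ e, |f e| ≤ C ^ (1 + e)) (c : ZMod 2) :
    Summable fun e : ℕ => f e * lawc c e := by
  obtain ⟨j, hj⟩ := pow_unbounded_of_one_lt C (by norm_num : (1 : ℝ) < 2)
  have h1 := (mom_law c j).summable.mul_left C
  refine Summable.of_norm_bounded h1 fun e => ?_
  rw [norm_mul, Real.norm_eq_abs, Real.norm_eq_abs, abs_of_nonneg (lawc_nonneg c e)]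
  have h2 : |f e| ≤ C * ((2 : ℝ) ^ e) ^ j := by
    refine (hf e).trans ?_
    rw [pow_add, pow_one, ← pow_mul, mul_comm e j, pow_mul]
    exact mul_le_mul_of_nonneg_left (pow_le_pow_left₀ hC hj.le e) hC
  calc |f e| * lawc c e ≤ C * ((2 : ℝ) ^ e) ^ j * lawc c e :=
        mul_le_mul_of_nonneg_right h2 (lawc_nonneg c e)
    _ = C * (lawc c e * ((2 : ℝ) ^ e) ^ j) := by ring

theorem law_half (e : ℕ) : (lawc 0 e + lawc 1 e) / 2 = law2 e := by
  unfold lawc
  have hz : ∀ x : ZMod 2, (x = 0 ∧ x ≠ 1) ∨ (x = 1 ∧ x ≠ 0) := by decide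
  rcases hz (e : ZMod 2) with ⟨h, h'⟩ | ⟨h, h'⟩
  · rw [if_pos h, if_neg h']
    ring
  · rw [if_pos h, if_neg h']
    ring

theorem Jc_half {f : ℕ → ℝ} {C : ℝ} (hC : 0 ≤ C) (hf : ∀ e, |f e| ≤ C ^ (1 + e)) :
    (Jc f 0 + Jc f 1) / 2 = Mu f := by
  unfold Jc Mu
  rw [← (summ_Jc hC hf 0).tsum_add (summ_Jc hC hf 1), ← tsum_div_const]
  refine tsum_congr fun e => ?_
  rw [← law_half e]
  ring

/-- the data of one good integer for one curve -/
def Gq (a : Fin 3 → ℤ) (C ε : ℝ) (D : ℕ) : Prop :=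
  ∃ S, Vone a S ∧ Lbd S D ∧ Gd (fun _ : Fin 1 => a) (fun _ => ({0} : Finset (Fin 1))) S C ε D

variable {a : Fin 3 → ℤ} {C ε : ℝ} {D : ℕ} {f : ℕ → ℝ}

/-- the law over the signed divisors -/
theorem Gq.law (H : FactsZ) (HS : FactsS) (hD : Squarefree D) (hG : Gq a C ε D) (hC : 0 ≤ C)
    (hf : ∀ e, |f e| ≤ C ^ (1 + e)) :
    |∑ d ∈ sd D, f (wr a d) - (sd D).card * Mu f| ≤ ε * (sd D).card := by
  obtain ⟨S, hv, hL, hG⟩ := hG
  have L : LB S := LB.of H.lbl hv.val1.E.hT
  have h1 := law_un H L hD hG (fun d d' hd hd' h => par_cls H hv hd hd' h) (fun _ => True) hf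
  have h2 : ∀ inst : DecidablePred fun _ : ℤ => True,
      @Finset.filter ℤ (fun _ => True) inst (sd D) = sd D :=
    fun inst => by
      ext z
      rw [@Finset.mem_filter ℤ _ inst]
      exact and_iff_left trivial
  rw [h2, Finset.sum_sub_distrib, sum_sgn L hD hL (fun d => ((wr a d : ℕ) : ZMod 2))
    (fun d d' hd hd' h => par_cls H hv hd hd' h) (fun d d' hd hd' h => par_flip H HS hv hd hd' h)
    (Jc f), Jc_half hC hf] at h1
  exact h1

/-- exactly half of the signed divisors have an even number -/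
theorem Gq.half (H : FactsZ) (HS : FactsS) (hD : Squarefree D) (hG : Gq a C ε D) :
    2 * ((sd D).filter fun d => Even (wr a d)).card = (sd D).card := by
  obtain ⟨S, hv, hL, hG⟩ := hG
  have L : LB S := LB.of H.lbl hv.val1.E.hT
  have h1 := sum_sgn L hD hL (fun d => ((wr a d : ℕ) : ZMod 2))
    (fun d d' hd hd' h => par_cls H hv hd hd' h) (fun d d' hd hd' h => par_flip H HS hv hd hd' h)
    fun c => if c = 0 then 1 else 0
  have h2 : ∀ d : ℤ, (if ((wr a d : ℕ) : ZMod 2) = 0 then (1 : ℝ) else 0) =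
      if Even (wr a d) then 1 else 0 := by
    intro d
    have h3 := ZMod.natCast_eq_zero_iff_even (n := wr a d)
    by_cases h : Even (wr a d)
    · rw [if_pos h, if_pos (h3.2 h)]
    · rw [if_neg h, if_neg fun h4 => h (h3.1 h4)]
  rw [Finset.sum_congr rfl fun d _ => h2 d, Finset.sum_boole] at h1
  have h3 : (if (0 : ZMod 2) = 0 then (1 : ℝ) else 0) + (if (1 : ZMod 2) = 0 then (1 : ℝ) else 0) = 1 := by
    rw [if_pos rfl, if_neg one_ne_zero, add_zero]
  rw [h3] at h1
  have h4 : (2 : ℝ) * (((sd D).filter fun d => Even (wr a d)).card : ℝ) = (sd D).card := by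
    rw [h1]
    ring
  exact_mod_cast h4

/-- the law over the positive divisors -/
theorem Gq.pos (H : FactsZ) (hD : Squarefree D) (hG : Gq a C ε D)
    (hf : ∀ e, |f e| ≤ C ^ (1 + e)) :
    |∑ d ∈ D.divisors, (f (wr a d) - Jc f ((wr a d : ℕ) : ZMod 2))| ≤ ε * D.divisors.card := by
  obtain ⟨S, hv, hL, hG⟩ := hG
  have L : LB S := LB.of H.lbl hv.val1.E.hT
  have h1 := law_un H L hD hG (fun d d' hd hd' h => par_cls H hv hd hd' h)
    (fun x => x.1 none = 0) hf
  have h2 : ∀ inst : DecidablePred fun d : ℤ => (clD S d).1 none = 0,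
      @Finset.filter ℤ (fun d => (clD S d).1 none = 0) inst (sd D) =
      D.divisors.image fun d : ℕ => (d : ℤ) := by
    intro inst
    ext z
    rw [mem_filter, sd_eq hD.ne_zero, Finset.mem_union]
    have h3 : (clD S z).1 none = 0 ↔ ¬ z < 0 := by
      show (ct z : Option S → ZMod 2) none = 0 ↔ _
      rw [ct_none]
      by_cases h : z < 0
      · rw [if_pos h]
        exact iff_of_false one_ne_zero (not_not_intro h)
      · rw [if_neg h]
        exact iff_of_true rfl h
    constructor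
    · rintro ⟨h4 | h4, h5⟩
      · exact h4
      · obtain ⟨d, hd, rfl⟩ := Finset.mem_image.1 h4
        have := Nat.pos_of_mem_divisors hd
        exact absurd (by omega) (h3.1 h5)
    · intro h4
      refine ⟨Or.inl h4, h3.2 ?_⟩
      obtain ⟨d, hd, rfl⟩ := Finset.mem_image.1 h4
      omega
  have hinj : Function.Injective fun d : ℕ => (d : ℤ) := fun x y h => Int.ofNat.inj h
  rw [h2, Finset.card_image_of_injective _ hinj, Finset.sum_image fun x _ y _ h => hinj h] at h1
  exact h1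

/-! ### Multiples of a good integer -/

theorem tw_one (a : Fin 3 → ℤ) (u d : ℤ) : wr a (u * d) = wr (tw u a) d := by
  unfold wr
  have : tw (u * d) a = tw d (tw u a) := by
    funext i
    show u * d * a i = d * (u * a i)
    ring
  rw [this]

/-- the data of one good integer for one curve and its twists -/
def GM (a : Fin 3 → ℤ) (C ε : ℝ) (M D : ℕ) : Prop := ∀ u ∈ M.divisors, Gq (tw (u : ℤ) a) C ε D

variable {M N : ℕ}

theorem GM.law (H : FactsZ) (HS : FactsS) (hM : M ≠ 0) (hN : N ≠ 0) (hG : GM a C ε M (rad N))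
    (hC : 0 ≤ C) (hf : ∀ e, |f e| ≤ C ^ (1 + e)) :
    |∑ d ∈ sd (rad (M * N)), f (wr a d) - (sd (rad (M * N))).card * Mu f| ≤
      ε * (sd (rad (M * N))).card := by
  obtain ⟨q, h1, h2, h3⟩ := rad_mul hM hN
  have hq : q ≠ 0 := fun h => hM (by rw [h] at h1; exact Nat.eq_zero_of_zero_dvd h1)
  have hR := (rad_pos N).ne'
  have h4 : ((sd (rad (M * N))).card : ℝ) = q.divisors.card * (sd (rad N)).card := by
    have h5 := sd_mul h2 hq hR (R := ℝ) fun _ => 1
    rw [← h3] at h5
    simp only [Finset.sum_const, nsmul_eq_mul, mul_one] at h5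
    exact h5
  have h5 : ∑ d ∈ sd (rad (M * N)), f (wr a d) - (sd (rad (M * N))).card * Mu f =
      ∑ u ∈ q.divisors, (∑ d ∈ sd (rad N), f (wr (tw (u : ℤ) a) d) -
        (sd (rad N)).card * Mu f) := by
    rw [Finset.sum_sub_distrib, Finset.sum_const, nsmul_eq_mul, h4, h3, sd_mul h2 hq hR]
    congr 1
    · refine Finset.sum_congr rfl fun u _ => Finset.sum_congr rfl fun d _ => ?_
      rw [tw_one]
    · ring
  rw [h5, h4]
  refine (Finset.abs_sum_le_sum_abs _ _).trans ?_
  refine (Finset.sum_le_sum fun u hu => (hG u ?_).law H HS (rad_sq N) hC hf).trans (le_of_eq ?_)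
  · exact Nat.mem_divisors.2 ⟨(Nat.dvd_of_mem_divisors hu).trans h1, hM⟩
  · rw [Finset.sum_const, nsmul_eq_mul]
    ring

theorem GM.half (H : FactsZ) (HS : FactsS) (hM : M ≠ 0) (hN : N ≠ 0) (hG : GM a C ε M (rad N)) :
    2 * ((sd (rad (M * N))).filter fun d => Even (wr a d)).card = (sd (rad (M * N))).card := by
  obtain ⟨q, h1, h2, h3⟩ := rad_mul hM hN
  have hq : q ≠ 0 := fun h => hM (by rw [h] at h1; exact Nat.eq_zero_of_zero_dvd h1)
  have hR := (rad_pos N).ne'
  have h4 : (sd (rad (M * N))).card = ∑ u ∈ q.divisors, (sd (rad N)).card := by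
    have h5 := sd_mul h2 hq hR (R := ℕ) fun _ => 1
    rw [← h3] at h5
    simp only [Finset.sum_const, smul_eq_mul, mul_one] at h5
    rw [Finset.sum_const, smul_eq_mul]
    exact h5
  have h5 : ((sd (rad (M * N))).filter fun d => Even (wr a d)).card =
      ∑ u ∈ q.divisors, ((sd (rad N)).filter fun d => Even (wr (tw (u : ℤ) a) d)).card := by
    have h6 := sd_mul h2 hq hR (R := ℕ) fun d => if Even (wr a d) then 1 else 0
    rw [← h3] at h6
    rw [Finset.card_filter, h6]
    refine Finset.sum_congr rfl fun u _ => ?_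
    rw [Finset.card_filter]
    refine Finset.sum_congr rfl fun d _ => ?_
    rw [tw_one]
  rw [h5, h4, Finset.mul_sum]
  refine Finset.sum_congr rfl fun u hu => (hG u ?_).half H HS (rad_sq N)
  exact Nat.mem_divisors.2 ⟨(Nat.dvd_of_mem_divisors hu).trans h1, hM⟩

theorem GM.pos (H : FactsZ) (hM : M ≠ 0) (hN : N ≠ 0) (hG : GM a C ε M (rad N))
    (hf : ∀ e, |f e| ≤ C ^ (1 + e)) :
    |∑ d ∈ (rad (M * N)).divisors, (f (wr a d) - Jc f ((wr a d : ℕ) : ZMod 2))| ≤
      ε * (rad (M * N)).divisors.card := by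
  obtain ⟨q, h1, h2, h3⟩ := rad_mul hM hN
  have hq : q ≠ 0 := fun h => hM (by rw [h] at h1; exact Nat.eq_zero_of_zero_dvd h1)
  have hR := (rad_pos N).ne'
  have h4 : ((rad (M * N)).divisors.card : ℝ) = q.divisors.card * (rad N).divisors.card := by
    have h5 := div_mul h2 (R := ℝ) fun _ => 1
    rw [← h3] at h5
    simp only [Finset.sum_const, nsmul_eq_mul, mul_one] at h5
    exact h5
  rw [h4, h3, div_mul h2 (fun d : ℕ => f (wr a (d : ℤ)) - Jc f ((wr a (d : ℤ) : ℕ) : ZMod 2))]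
  refine (Finset.abs_sum_le_sum_abs _ _).trans ?_
  refine (Finset.sum_le_sum fun u hu => ?_).trans (le_of_eq ?_)
    (b := ∑ u ∈ q.divisors, ε * (rad N).divisors.card)
  · have h6 := (hG u (Nat.mem_divisors.2 ⟨(Nat.dvd_of_mem_divisors hu).trans h1, hM⟩)).pos H
      (rad_sq N) hf
    have h7 : ∀ d : ℕ, wr a ((u * d : ℕ) : ℤ) = wr (tw (u : ℤ) a) (d : ℤ) := by
      intro d
      rw [Nat.cast_mul, tw_one]
    simp only [h7]
    exact h6
  · rw [Finset.sum_const, nsmul_eq_mul]
    ring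

end Q44.LD
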