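import Pool.Agent.Q44.LD.StmD
import Pool.Agent.Q44.LD.Fin

/-!
# Project LD: the parity of the Selmer rank changes with the sign
-/

set_option autoImplicit false
set_option linter.unusedSectionVars false
set_option linter.unusedVariables false

open scoped Classical

namespace Q44.LD

open Finset Module Filter
open Pool.Agent.Y703.CQ (nr)
open Pool.Agent.TH344.JG (LocJ SelJ PR df)
open Pool.Agent.Y723.PT (tw LG locJ_iff)
open Q44.JQ hiding cnt
open Q44.JQ.W Q44.JQ.M Q44.JQ.X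

variable {T : Finset ℕ}

/-- the label of the sign -/
def en (T : Finset ℕ) : Option T → ZMod 2 := Pi.single none 1

theorem single_inst {α : Type} (i1 i2 : DecidableEq α) (a : α) :
    @Pi.single α (fun _ => ZMod 2) _ i1 a 1 = @Pi.single α (fun _ => ZMod 2) _ i2 a 1 := by
  have h : i1 = i2 := Subsingleton.elim _ _
  subst h
  rfl

theorem tf_neg (c : Cr T) (φ : Option T → ZMod 2) {x : Fin (2 * c.g + 1) → ZMod 2}
    (hx : ∑ i, x i = 0) (i : Fin (2 * c.g + 1)) :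
    (negC c).tf φ x i = c.tf φ x i + φ none * x i := by
  show (∑ j ∈ univ.erase i, pr φ (-c.a i - -c.a j) * (x i + x j) + φ none * x i) =
    (∑ j ∈ univ.erase i, pr φ (c.a i - c.a j) * (x i + x j) + φ none * x i) + φ none * x i
  have h1 : ∀ j ∈ univ.erase i, pr φ (-c.a i - -c.a j) * (x i + x j) =
      pr φ (c.a i - c.a j) * (x i + x j) + φ none * (x i + x j) := by
    intro j hj
    have hij : c.a i - c.a j ≠ 0 := sub_ne_zero.2 fun h => (Finset.ne_of_mem_erase hj) (c.inj h).symm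
    have e : -c.a i - -c.a j = -(c.a i - c.a j) := by ring
    rw [e, pr_neg φ hij]
    ring
  have h2 : ∑ j ∈ univ.erase i, (x i + x j) = x i := by
    rw [sum_add_distrib, sum_const, card_erase_of_mem (mem_univ i), card_univ, Fintype.card_fin,
      Nat.add_sub_cancel, nsmul_eq_mul]
    have h3 : ∑ j ∈ univ.erase i, x j = x i := by
      have h4 := Finset.add_sum_erase univ x (mem_univ i)
      rw [hx] at h4
      have key : ∀ a b : ZMod 2, a + b = 0 → b = a := by decide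
      exact key _ _ h4
    rw [h3]
    push_cast
    have key : (2 : ZMod 2) = 0 := by decide
    rw [key, zero_mul, zero_mul, zero_add]
  rw [Finset.sum_congr rfl h1, sum_add_distrib, ← mul_sum, h2]

theorem TT_neg (c : Cr T) (φ : Option T → ZMod 2) (x : c.V) :
    ((negC c).TT φ x : c.V) = c.TT φ x + φ none • x := by
  refine Subtype.ext (funext fun i => ?_)
  exact tf_neg c φ x.2 i

theorem q_neg (hOMV : S_OMV) (c : Cr T)
    (𝓛 : Submodule (ZMod 2) ((Option T → c.V) × (Option T → c.V)))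
    (𝓛' : Submodule (ZMod 2) ((Option T → (negC c).V) × (Option T → (negC c).V)))
    (y : (Option T → c.V) × (Option T → c.V)) : (c.dj 𝓛).q y = ((negC c).dj 𝓛').q y := by
  have hS := (hOMV T c 𝓛).1
  unfold Dj.q
  have h1 : ∀ (t : Option T) (φ : Option T → ZMod 2),
      ((negC c).dj 𝓛').ω (y.2 t) (((negC c).dj 𝓛').T φ (y.2 t)) =
      (c.dj 𝓛).ω (y.2 t) ((c.dj 𝓛).T φ (y.2 t)) := by
    intro t φ
    show (c.dj 𝓛).ω (y.2 t) ((negC c).TT φ (y.2 t) : c.V) = _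
    rw [TT_neg, map_add, map_smul, hS.alt, smul_zero, add_zero]
    rfl
  congr 1
  exact Finset.sum_congr rfl fun t _ => (h1 t _).symm

variable (L : LB T)

include L

theorem lp_neg (hLOCI : S_LOCI) (hNEG : S_NEG) (c : Cr T) (ρ : Option T → ZMod 2)
    (y : (Option T → c.V) × (Option T → c.V)) {p : ℕ} (hp : p ∈ T) :
    c.Lp p ρ y ↔ (negC c).Lp p (ρ + en T) y := by
  obtain ⟨u, hu1, hu2, hu3⟩ := hNEG T L.pr L.two
  obtain ⟨n, hn1, -, hn3, hn4⟩ := L.ex ρ 0
  have hn : Cop T n := (L.toTS.prime_cop hn1).2 hn3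
  choose z hz1 _hz2 hz3 hz4 using fun i => L.ex (fun o => (y.2 o).1 i) 0
  have hz : ∀ i, Cop T (z i) ∧ lbl T (z i) = fun o => (y.2 o).1 i := fun i =>
    ⟨(L.toTS.prime_cop (hz1 i)).2 (hz3 i), hz4 i⟩
  have hcop : Cop T (n * u) := by
    intro q hq hd
    rcases ((L.pr q hq).dvd_mul).1 hd with h | h
    · exact hn q hq h
    · exact hu1 q hq h
  have hlab : lbl T (n * u) = ρ + en T := by
    rw [L.add n u hn hu1, hn4, hu2]
    rfl
  have hfact : Fact p.Prime := ⟨L.pr p hp⟩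
  have h1 := (hLOCI T L.pr L.two c ρ y n z hn hn4 hz).2 p hp
  have h2 := (hLOCI T L.pr L.two (negC c) (ρ + en T) y (n * u) z hcop hlab hz).2 p hp
  have h3 : c.Lp p ρ y ↔ c.Lc ℚ_[p] ρ y := ⟨fun h => h, fun h _ => h⟩
  have h4 : (negC c).Lp p (ρ + en T) y ↔ (negC c).Lc ℚ_[p] (ρ + en T) y :=
    ⟨fun h => h, fun h _ => h⟩
  rw [h3, h4, h1, h2]
  obtain ⟨w, hw⟩ := hu3 p hp
  have hw0 : w ≠ 0 := by
    rintro rfl
    rw [mul_zero, neg_eq_zero] at hw
    have : u = 0 := by exact_mod_cast hw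
    rw [this] at hu1
    exact hu1 2 L.two (dvd_zero 2)
  have e : (fun i => ((tw ((n * u : ℕ) : ℤ) (negC c).a i : ℤ) : ℚ_[p])) =
      fun i => w ^ 2 * ((tw (n : ℤ) c.a i : ℤ) : ℚ_[p]) := by
    funext i
    show ((((n * u : ℕ) : ℤ) * -c.a i : ℤ) : ℚ_[p]) = w ^ 2 * (((n : ℤ) * c.a i : ℤ) : ℚ_[p])
    push_cast
    rw [pow_two, ← hw]
    ring
  rw [locJ_iff, locJ_iff, e]
  constructor
  · intro h
    refine LG.scale (ρ := w⁻¹) (inv_ne_zero hw0) ?_
    have e2 : (fun i => w⁻¹ ^ 2 * (w ^ 2 * ((tw (n : ℤ) c.a i : ℤ) : ℚ_[p]))) =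
        fun i => ((tw (n : ℤ) c.a i : ℤ) : ℚ_[p]) := by
      funext i
      field_simp
    exact (congrArg (fun r => LG r (fun i => ((c.dz y.1 z i : ℤ) : ℚ_[p]))) e2).mpr h
  · intro h
    exact LG.scale hw0 h

/-- **The parity changes.** -/
theorem pm_flip (hLAG3 : S_LAG3) (hRSGN : S_RSGN) (hNEG : S_NEG) (hLOCI : S_LOCI) (hOMV : S_OMV)
    {c c' : Cr T} (h : c' = negC c) (hg : c.g = 1) {ρ : Option T → ZMod 2}
    {𝓛 : Submodule (ZMod 2) ((Option T → c.V) × (Option T → c.V))}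
    {𝓛' : Submodule (ZMod 2) ((Option T → c'.V) × (Option T → c'.V))}
    (hO : (c.dj 𝓛).Ok ρ) (hO' : (c'.dj 𝓛').Ok (ρ + en T))
    (hm : ∀ y, y ∈ 𝓛 ↔ c.Lc ℝ ρ y ∧ ∀ p ∈ T, c.Lp p ρ y)
    (hm' : ∀ y, y ∈ 𝓛' ↔ c'.Lc ℝ (ρ + en T) y ∧ ∀ p ∈ T, c'.Lp p (ρ + en T) y) :
    ((finrank (ZMod 2) (c.dj 𝓛).pm : ℕ) : ZMod 2) =
      ((finrank (ZMod 2) (c'.dj 𝓛').pm : ℕ) : ZMod 2) + 1 := by
  subst h
  obtain ⟨v, v', hv, hv', hvv, h1, h2, ⟨x, hx⟩, h3⟩ := hRSGN T L.pr L.two c hg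
  have h4 : ∀ y ∈ 𝓛, y.1 none = 0 → y ∈ 𝓛' := by
    intro y hy h0
    exact (hm' y).2 ⟨h3 _ y h0, fun p hp => (lp_neg L hLOCI hNEG c ρ y hp).1 (((hm y).1 hy).2 p hp)⟩
  refine hLAG3 (Option T) c.V (c.dj 𝓛) ((negC c).dj 𝓛') ρ (ρ + en T) hO hO' (fun _ _ => rfl)
    (q_neg hOMV c 𝓛 𝓛') ?_ ?_
  · refine ⟨_, hO.tor x, fun h => ?_⟩
    obtain ⟨φ, hφ, h5⟩ : ∃ φ : Option T → ZMod 2, φ = Pi.single none 1 ∧
        (c.TT φ x = 0 ∨ c.TT φ x = v') :=
      ⟨_, single_inst _ _ none, h2 _ _ ((hm' _).1 h).1⟩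
    rw [hφ, hx] at h5
    rcases h5 with h5 | h5
    · exact hv h5
    · exact hvv h5
  · intro y hy y' hy' hn hn'
    refine h4 _ (𝓛.add_mem hy hy') ?_
    have h5 : y.1 none = v := (h1 _ _ ((hm y).1 hy).1).resolve_left fun h => hn (h4 y hy h)
    have h6 : y'.1 none = v := (h1 _ _ ((hm y').1 hy').1).resolve_left fun h => hn' (h4 y' hy' h)
    show y.1 none + y'.1 none = 0
    rw [h5, h6]
    refine Subtype.ext (funext fun i => ?_)
    have key : ∀ a : ZMod 2, a + a = 0 := by decide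
    exact key _

omit L in
theorem uo_en (γ : Option T → ZMod 2) : Uo (γ + en T) = -Uo γ := by
  unfold Uo
  rw [Fintype.prod_option, Fintype.prod_option]
  have h1 : ∀ t : T, (if (γ + en T) (some t) = 0 then (1 : ℤ) else tv (some t : Option T)) =
      if γ (some t) = 0 then 1 else tv (some t : Option T) := by
    intro t
    have h2 : (γ + en T) (some t) = γ (some t) := by
      show γ (some t) + en T (some t) = _
      have : en T (some t) = 0 := by
        unfold en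
        rw [Pi.single_apply, if_neg (by simp)]
      rw [this, add_zero]
    rw [h2]
  rw [Finset.prod_congr rfl fun t _ => h1 t]
  have h3 : (γ + en T) none = γ none + 1 := by
    show γ none + en T none = _
    unfold en
    rw [Pi.single_apply, if_pos rfl]
  rw [h3]
  have key : ∀ x : ZMod 2, (x = 0 ∧ x + 1 ≠ 0) ∨ (x ≠ 0 ∧ x + 1 = 0) := by decide
  have h4 : (tv (none : Option T) : ℤ) = -1 := rfl
  rcases key (γ none) with ⟨h5, h6⟩ | ⟨h5, h6⟩
  · rw [if_neg h6, if_pos h5, h4]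
    ring
  · rw [if_pos h6, if_neg h5, h4]
    ring

omit L in
theorem crmul_neg (c : Cr T) {u u' : ℤ} (h : u' = -u) (hu hs hu' hs') :
    c.mul u' hu' hs' = negC (c.mul u hu hs) := by
  subst h
  unfold Cr.mul negC
  congr 1
  funext i
  show -u * c.a i = -(u * c.a i)
  ring

end Q44.LD
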