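import Pool.Agent.Q44.JQ.StmG
import Pool.Agent.Q44.JQ.StmI

/-!
# Project LD: several forms in the divisors of one integer

A block (`Bk`) with small primes `U` and large primes `ι`, the large primes are coloured by `col : ι → Cc`. A form
`f` has a nonempty set `I f` of colours, different forms have different sets; the large primes of `f` are those
with colour in `I f` (`B f i ↔ col i ∈ I f`), its small primes are given by an arbitrary predicate `A f`. The
system of the form `f` is the system of the restricted block. All the systems contain the same random symbols. The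
statements say that nevertheless the forms are independent in the limit.
-/

set_option autoImplicit false
set_option linter.unusedVariables false

namespace Q44.LD

open Finset Module
open Pool.Agent.Y703.CQ (prs ext)
open Q44.JQ
open scoped Classical

section restriction

variable {s U ι : Type}

/-- the restriction of a block -/
def sb (b : Bk s U ι) (A : U → Prop) (B : ι → Prop) : Bk s {u // A u} {i // B i} where
  A u u' := b.A u u'
  B u i := b.B u i
  C i u := b.C i u
  hU u := b.hU u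
  hJ i := b.hJ i

/-- the restriction of the symbols of the large primes -/
noncomputable def ra [Fintype ι] [LinearOrder ι] (B : ι → Prop)
    (α : prs (univ : Finset ι) → ZMod 2) : prs (univ : Finset {i // B i}) → ZMod 2 :=
  fun e => ext α (e.1.1 : ι) (e.1.2 : ι)

/-- the conditions on a block with coloured large primes: reciprocity; for each colour nondegeneracy and many
large primes of each label -/
structure POk {Cc : Type} [Fintype s] [Fintype U] [Fintype ι] (b : Bk s U ι) (col : ι → Cc) (t₀ : s)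
    (R : ℕ) : Prop where
  rU : ∀ u u', u ≠ u' → b.A u' u = b.A u u' + b.hU u t₀ * b.hU u' t₀
  rJ : ∀ u i, b.B u i = b.C i u + b.hU u t₀ * b.hJ i t₀
  nd : ∀ (c : Cc) (μ : U → ZMod 2), μ ≠ 0 → ∃ i, col i = c ∧ b.hJ i = 0 ∧ ∑ u, μ u * b.C i u ≠ 0
  many : ∀ (c : Cc) (φ : s → ZMod 2), R * (Fintype.card U + 1) ≤
    (univ.filter fun i => col i = c ∧ b.hJ i = φ).card

end restriction

section families

variable {F ι Cc : Type} [Fintype F] {V : F → Type} [∀ f, AddCommGroup (V f)]
  [∀ f, Module (ZMod 2) (V f)]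

/-- the number which controls the coefficient of the symbol of the large primes `i`, `j` -/
noncomputable def lk (ω : ∀ f, V f →ₗ[ZMod 2] V f →ₗ[ZMod 2] ZMod 2) (B : F → ι → Prop)
    (Z : ∀ f, {i // B f i} → V f × V f) (i j : ι) : ZMod 2 :=
  ∑ f, if h : B f i ∧ B f j then
    ω f (Z f ⟨i, h.1⟩ + Z f ⟨j, h.2⟩).2 (Z f ⟨i, h.1⟩ + Z f ⟨j, h.2⟩).1 else 0

/-- the family is unlinked -/
def Unl (ω : ∀ f, V f →ₗ[ZMod 2] V f →ₗ[ZMod 2] ZMod 2) (B : F → ι → Prop)
    (Z : ∀ f, {i // B f i} → V f × V f) : Prop := ∀ i j, lk ω B Z i j = 0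

/-- the values of the family at `i`, for all the forms which contain `i` -/
noncomputable def vl (B : F → ι → Prop) (Z : ∀ f, {i // B f i} → V f × V f) (i : ι) :
    ∀ f, V f × V f := fun f => if h : B f i then Z f ⟨i, h⟩ else 0

/-- the maximal number of the values at the colour `c` of an unlinked family -/
noncomputable def vc (V : F → Type) (I : F → Finset Cc) (c : Cc) : ℕ :=
  ∏ f, if c ∈ I f then Nat.card (V f) else 1

/-- at all the colours the number of the values is maximal -/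
def Full [Fintype ι] (I : F → Finset Cc) (B : F → ι → Prop) (col : ι → Cc)
    (Z : ∀ f, {i // B f i} → V f × V f) : Prop :=
  ∀ c, vc V I c ≤ ((univ.filter fun i => col i = c).image (vl B Z)).card

end families

/-! ### The statements -/

/-- LD-UNL: the unlinked and full families. Proof: for a colour `c` let `V_c` be the direct sum of the
`V f × V f`, `c ∈ I f`, with the quadratic form `Q_c z = ∑ f, ω f (z f).2 (z f).1`, which is nondegenerate of
dimension `2 log_2 (vc V I c)`. The values at `c` are pairwise unlinked, so their differences span a singular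
subspace `Λ_c` (the span of pairwise unlinked vectors: `S_ORT`, theorem `Pool.Agent.Q299.JQ.t_ORT`, for the space
`∀ f : {f // c ∈ I f}, V f` and the form `∑ f, ω f`), of order at most `vc V I c`; since there are at least
`vc V I c` values they fill a coset `z_c + Λ_c`, `#Λ_c = vc V I c`, `Λ_c` is its own orthogonal. Let `c ≠ c'`,
`O = {f : c ∈ I f, c' ∈ I f}`, `Q_O`, `B_O` the partial sums over `O`. For all `a ∈ Λ_c`, `a' ∈ Λ_c'`:
`Q_O (z_c + z_c' + a + a') = 0`. So `B_O (a, a₁) = 0` for `a, a₁ ∈ Λ_c` (second difference), hence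
`a` restricted to `O` (zero outside) is orthogonal to `Λ_c` and so belongs to `Λ_c`; similarly
`B_O (a, a') = 0` for `a ∈ Λ_c`, `a' ∈ Λ_c'`, and `B_O (z_c + z_c', a) = 0` for `a ∈ Λ_c` which is supported in `O`.
If `c ∈ I f ∩ I g`, `f ≠ g`, there is `c'` which belongs to exactly one of `I f`, `I g` (`I` is injective), so
`Λ_c` is stable under a restriction which contains exactly one of `f`, `g`; therefore `Λ_c` is stable under
the projections to the single forms (compositions of restrictions and of their complements), it is the direct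
sum of its components `Λ_c f`, which are singular of order at most `#V f` (`S_ORT` again), hence of
order `#V f` because the product of the orders is `vc V I c`. For `c, c' ∈ I f` the subspaces `Λ_c f` and
`Λ_c' f` are orthogonal, hence equal, and `(z_c + z_c') f` is orthogonal to `Λ_c f`, hence in `Λ_c f`. So
the differences of `Z f` span `Λ_c f` (`I f` is not empty). -/
def S_UNL : Prop := ∀ (F ι Cc : Type) [Fintype F] [Fintype ι] [Fintype Cc] (V : F → Type)
  [∀ f, AddCommGroup (V f)] [∀ f, Module (ZMod 2) (V f)] [∀ f, Finite (V f)]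
  (ω : ∀ f, V f →ₗ[ZMod 2] V f →ₗ[ZMod 2] ZMod 2), (∀ f x, ω f x x = 0) →
  (∀ f x, (∀ y, ω f x y = 0) → x = 0) → ∀ (I : F → Finset Cc), Function.Injective I →
  (∀ f, (I f).Nonempty) → ∀ (col : ι → Cc) (B : F → ι → Prop), (∀ f i, B f i ↔ col i ∈ I f) →
  ∀ Z : ∀ f, {i // B f i} → V f × V f, Unl ω B Z → Full I B col Z →
  ∀ f, (∀ z ∈ dif (Z f), ω f z.2 z.1 = 0) ∧ Nat.card (dif (Z f)) = Nat.card (V f)

/-- LD-NF: the number of the unlinked families which are not full. Proof: the number of the values at `c` of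
an unlinked family is at most `vc V I c` (`S_ORT` as in `S_UNL`); choose the sets of the values (at most
`2 ^ (vc V I c ^ 2)` possibilities for every colour); if the set at `c₀` has less than `vc V I c₀` elements
the number of the families with these sets of values is at most
`∏ c, vc V I c ^ #{i : col i = c} * (1 - 1 / vc V I c₀) ^ #{i : col i = c₀}`, and
`∏ c, vc V I c ^ #{i : col i = c} = ∏ f, #V f ^ #{i : B f i}`. (`K = 2 ^ (∑ c, vc V I c ^ 2)`.) -/
def S_NF : Prop := ∀ (F Cc : Type) [Fintype F] [Fintype Cc] (V : F → Type)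
  [∀ f, AddCommGroup (V f)] [∀ f, Module (ZMod 2) (V f)] [∀ f, Finite (V f)]
  (ω : ∀ f, V f →ₗ[ZMod 2] V f →ₗ[ZMod 2] ZMod 2), (∀ f x, ω f x x = 0) →
  (∀ f x, (∀ y, ω f x y = 0) → x = 0) → ∀ (I : F → Finset Cc), ∃ K : ℝ, 0 ≤ K ∧
  ∀ (ι : Type) [Fintype ι] (col : ι → Cc) (B : F → ι → Prop), (∀ f i, B f i ↔ col i ∈ I f) →
  (Nat.card {Z : ∀ f, {i // B f i} → V f × V f // Unl ω B Z ∧ ¬ Full I B col Z} : ℝ) ≤
    K * (∏ f, (Nat.card (V f) : ℝ) ^ Nat.card {i // B f i}) *
      ∑ c, (1 - 1 / (vc V I c : ℝ)) ^ (univ.filter fun i => col i = c).card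

/-- LD-PROB: the number of the `α` for which all the elements `e f` satisfy the rows of the large primes of their
systems, as a character sum (after `S_PROB`, theorem in `Pool.Agent.Q87.JQ` or its closure): for each `α`
the indicator is `∏ f, #V f ^ (-#{i : B f i}) ∑ W, sg (∑ f, ∑ i, ω f (W f i, row))` and the coefficient of
`α (i, j)` in the exponent is `lk` of `(x f i, W f i)`. -/
def S_PROBF : Prop := ∀ (s U ι F : Type) [Fintype s] [Fintype U] [Fintype ι] [LinearOrder ι]
  [Fintype F] (V : F → Type) [∀ f, AddCommGroup (V f)] [∀ f, Module (ZMod 2) (V f)]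
  [∀ f, Fintype (V f)] (t₀ : s) (D : ∀ f, Dj s (V f)), (∀ f, (D f).s₀ = t₀) → (∀ f, (D f).Sym) →
  (∀ f x, (∀ y, (D f).ω x y = 0) → x = 0) → ∀ (b : Bk s U ι) (A : F → U → Prop) (B : F → ι → Prop)
  (e : ∀ f, (s → V f) × ({u // A f u} ⊕ {i // B f i} → V f)),
  (((univ : Finset (prs (univ : Finset ι) → ZMod 2)).filter fun α => ∀ f, ∀ i : {i // B f i},
      rowL (D f) ((sb b (A f) (B f)).N t₀ (ra (B f) α)) (sb b (A f) (B f)).h (e f)
        (Sum.inr i) = 0).card : ℝ) *
      ∏ f, (Fintype.card (V f) : ℝ) ^ Nat.card {i // B f i} =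
    2 ^ (prs (univ : Finset ι)).card * ∑ W : ∀ f, {i // B f i} → V f,
      if Unl (fun f => (D f).ω) B (fun f i => ((e f).2 (Sum.inr i), W f i)) then
        sg (∑ f, ∑ i, (D f).ω (W f i) (rowL (D f) ((sb b (A f) (B f)).N t₀ 0)
          (sb b (A f) (B f)).h (e f) (Sum.inr i))) else 0

/-- LD-LAM: the mean of the product of the numbers of the solutions. Proof: `S_PROBF` summed over the `e f` in
`EU (D f) (sb b (A f) (B f))` with `Gm f` of the span of the differences; the unlinked families which are not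
full contribute at most (`S_NF`; at most `∏ f, #V f ^ (#s + #U)` possibilities for `δ` and the `x_u`)
`K * (∏ f, #V f) ^ (#s + #U) * ∑ c, (1 - 1 / vc V I c) ^ (R * (#U + 1))`, small for large `R`; by `S_UNL` the unlinked
full families are among the families such that for all `f` the span of the differences of
`Z f = (x_i, W_i)` is singular of order `#V f`, these families are unlinked, and those which are not full are
again negligible. So up to a small error the mean is the product over `f` of the sums over the `Z f` with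
singular span of order `#V f`. Each factor is close to `#V f * #𝒮 f`: this is in the proof of `S_LAM2`
(theorem `Pool.Agent.Q299.JQ.t_LAM2`), or apply `S_LAM2` as a black box to the restricted block
(`(sb b (A f) (B f)).Ok t₀ (ρ f) R` follows from `POk`, a colour in `I f` and the hypothesis on the sum of the
labels) and use `S_PROB` and `S_NMAX` for the sums with span of smaller order (`S_ORT`), see
`Pool.Agent.Q87.JQ`: `cnt_sum`, `tt`, `n0_le`, `tt_le`. All factors are bounded. -/
def S_LAMF : Prop := ∀ (s F Cc : Type) [Fintype s] [Fintype F] [Fintype Cc] (V : F → Type)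
  [∀ f, AddCommGroup (V f)] [∀ f, Module (ZMod 2) (V f)] [∀ f, Finite (V f)] (I : F → Finset Cc),
  Function.Injective I → (∀ f, (I f).Nonempty) → ∀ (t₀ : s) (ρ : F → s → ZMod 2)
  (D : ∀ f, Dj s (V f)), (∀ f, (D f).s₀ = t₀) → (∀ f, (D f).Ok (ρ f)) →
  ∀ (Gm : ∀ f, Submodule (ZMod 2) (V f) → Prop) (𝒮 : ∀ f, Finset (V f →ₗ[ZMod 2] V f)),
  (∀ f, ∀ S ∈ 𝒮 f, (∀ φ x, S ((D f).T φ x) = (D f).T φ (S x)) ∧ (∀ x, (D f).ω (S x) x = 0) ∧
    (∀ y ∈ (D f).𝓛, ((D f).tw S).q y = 0) ∧ Gm f ⊤) →
  (∀ f, ∀ Λ : Submodule (ZMod 2) (V f × V f), (∀ z ∈ Λ, (D f).ω z.2 z.1 = 0) →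
    Nat.card Λ = Nat.card (V f) → Gm f (Λ.map (LinearMap.fst (ZMod 2) (V f) (V f))) →
    (∀ φ : s → ZMod 2, ∀ z ∈ Λ, ((D f).T φ z.1, (D f).T φ z.2) ∈ Λ) →
    ∃ S ∈ 𝒮 f, ∀ z, z ∈ Λ ↔ z.2 = S z.1) →
  ∀ ε : ℝ, 0 < ε → ∃ R : ℕ, 1 ≤ R ∧ ∀ (U ι : Type) [Fintype U] [Fintype ι] [LinearOrder ι]
    (b : Bk s U ι) (col : ι → Cc) (A : F → U → Prop) (B : F → ι → Prop),
    (∀ f i, B f i ↔ col i ∈ I f) → POk b col t₀ R → (∀ f, ∑ p, (sb b (A f) (B f)).h p = ρ f) →
    |(∑ α : prs (univ : Finset ι) → ZMod 2,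
        ∏ f, (cnt (D f) (sb b (A f) (B f)) (Gm f) (ra (B f) α) : ℝ)) /
        2 ^ (prs (univ : Finset ι)).card -
      ∏ f, ((Nat.card (V f) : ℝ) * ((𝒮 f).card : ℝ))| ≤ ε

/-- LD-LAJ: the joint law for several forms and several data for each form. Proof: as `S_LAJ2` (theorem
`Pool.Agent.Q299.JQ.t_LAJ2`, file `Pool/Agent/Q299/JQ/LAJ2.lean`), `S_LAMF` for the data
`DD t₀ (D f) (m f)`, with `S_SS2`, `S_CNT`, `S_PAR0`, `S_TOR`, `S_PI`, and `S_MOM` for the index set
`Σ f, κ f`. (`(sb b (A f) (B f)).Ok t₀ (ρ f) R` follows from `POk` and a colour in `I f`.) -/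
def S_LAJF : Prop := ∀ (s F Cc : Type) [Fintype s] [Fintype F] [Fintype Cc] (κ : F → Type) [∀ f, Fintype (κ f)]
  (V : ∀ f, κ f → Type) [∀ f k, AddCommGroup (V f k)] [∀ f k, Module (ZMod 2) (V f k)]
  [∀ f k, Finite (V f k)] [∀ f k, Nontrivial (V f k)] (I : F → Finset Cc),
  Function.Injective I → (∀ f, (I f).Nonempty) → ∀ (t₀ : s) (ρ : F → s → ZMod 2)
  (D : ∀ f k, Dj s (V f k)), (∀ f k, (D f k).s₀ = t₀) → (∀ f k, (D f k).Ok (ρ f)) →
  (∀ f, Adj2 (D f)) → ∀ (r : ∀ f, κ f → ℕ) (ε : ℝ), 0 < ε → ∃ R : ℕ, 1 ≤ R ∧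
  ∀ (U ι : Type) [Fintype U] [Fintype ι] [LinearOrder ι]
    (b : Bk s U ι) (col : ι → Cc) (A : F → U → Prop) (B : F → ι → Prop),
    (∀ f i, B f i ↔ col i ∈ I f) → POk b col t₀ R → (∀ f, ∑ p, (sb b (A f) (B f)).h p = ρ f) →
    |((univ.filter fun α : prs (univ : Finset ι) → ZMod 2 => ∀ f k,
        finrank (ZMod 2) (Sel (D f k) ((sb b (A f) (B f)).N t₀ (ra (B f) α))
          (sb b (A f) (B f)).h) = finrank (ZMod 2) (V f k) + r f k).card : ℝ) /
        2 ^ (prs (univ : Finset ι)).card -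
      ∏ f, ∏ k, lawc ((finrank (ZMod 2) (D f k).pm : ℕ) : ZMod 2) (r f k)| ≤ ε

/-- the regularity of a block -/
structure Reg {s U ι : Type} [Fintype s] [Fintype U] [Fintype ι] (b : Bk s U ι) (t₀ : s) (A R : ℕ) :
    Prop where
  rU : ∀ u u', u ≠ u' → b.A u' u = b.A u u' + b.hU u t₀ * b.hU u' t₀
  rJ : ∀ u i, b.B u i = b.C i u + b.hU u t₀ * b.hJ i t₀
  nd : ∀ μ : U → ZMod 2, μ ≠ 0 → A * Fintype.card U + R ≤
    (univ.filter fun i => b.hJ i = 0 ∧ ∑ u, μ u * b.C i u ≠ 0).card
  many : ∀ φ : s → ZMod 2, A * Fintype.card U + R ≤ (univ.filter fun i => b.hJ i = φ).card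

/-- LD-COL: almost all colourings of a regular block satisfy the conditions. Proof: let `p = 1 / #Cc`. For given
`c`, `μ` the proportion of the colourings without `i` in `{i : hJ i = 0, ∑ u, μ u * C i u ≠ 0}` of colour `c` is
at most `(1 - p) ^ (A * #U + R)`; there are at most `#Cc * 2 ^ #U` pairs. For given `c`, `φ` the number `X` of
the `i` with `hJ i = φ` and colour `c` has `E 2 ^ (-X) = (1 - p / 2) ^ #{i : hJ i = φ}`, so that
`P (X < k) ≤ 2 ^ k (1 - p / 2) ^ (A * #U + R)`, `k = R' * (#U + 1)`. Choose `A` with `2 (1 - p) ^ A ≤ 1` and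
`2 ^ R' (1 - p / 2) ^ A ≤ 1`, then `R` large. -/
def S_COL : Prop := ∀ (s Cc : Type) [Fintype s] [Fintype Cc] [Nonempty Cc] (t₀ : s) (R' : ℕ) (δ : ℝ),
  0 < δ → ∃ A R : ℕ, ∀ (U ι : Type) [Fintype U] [Fintype ι] (b : Bk s U ι), Reg b t₀ A R →
  (Nat.card {col : ι → Cc // ¬ POk b col t₀ R'} : ℝ) ≤
    δ * (Fintype.card Cc : ℝ) ^ Fintype.card ι

section forms

variable {s N M P : Type} [Fintype N] [Fintype P]

/-- the form `m` contains the prime `p` -/
def act (e : M → N → ZMod 2) (τ : P → N → ZMod 2) (m : M) (p : P) : Prop :=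
  ∑ i, e m i * τ p i ≠ 0

/-- the labels of the divisors -/
def lbs (h : P → s → ZMod 2) (τ : P → N → ZMod 2) (i : N) : s → ZMod 2 := ∑ p, τ p i • h p

/-- the label of a form -/
def lbf (e : M → N → ZMod 2) (ρ : N → s → ZMod 2) (m : M) : s → ZMod 2 := ∑ i, e m i • ρ i

end forms

/-- LD-DIV: for almost all symbols the law over the families of divisors is close to the limit law (second
moment). Proof: let `𝒯` be the set of the `τ` with labels `ρ`, `X τ` the indicator of the event for `τ`,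
`L` the product of the laws. The mean over `α` of `(∑ τ ∈ 𝒯, (X τ - L)) ^ 2` is the sum over the pairs
`(τ, τ') ∈ 𝒯²` of `P (X τ X τ' = 1) - L P (X τ = 1) - L P (X τ' = 1) + L ^ 2`. If the colouring
`i ↦ (τ (inr i), τ' (inr i))`, with values in `N ⊕ N → ZMod 2`, satisfies `POk` (so that also the colourings
`τ` and `τ'` restricted to the large primes do, with colours `N → ZMod 2`), then `S_LAJF` for the forms `M`,
`I m = {c : ∑ i, e m i * c i ≠ 0}` gives `P (X τ = 1) ≈ L`, and `S_LAJF` for the forms `M ⊕ M` of `N ⊕ N`,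
`I (inl m) = {c : ∑ i, e m i * c (inl i) ≠ 0}`, `I (inr m) = {c : ∑ i, e m i * c (inr i) ≠ 0}`, gives
`P (X τ X τ' = 1) ≈ L ^ 2`. (The sum of the labels of the primes of the form `m` is
`∑ p, (∑ i, e m i * τ p i) • h p = ∑ i, e m i • lbs h τ i = lbf e ρ m`.) The other pairs are few by `S_COL`
(with colours `N ⊕ N → ZMod 2`). Chebyshev's inequality. -/
def S_DIV : Prop := ∀ (s N M : Type) [Fintype s] [Fintype N] [Fintype M] (κ : M → Type) [∀ m, Fintype (κ m)]
  (V : ∀ m, κ m → Type) [∀ m k, AddCommGroup (V m k)] [∀ m k, Module (ZMod 2) (V m k)]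
  [∀ m k, Finite (V m k)] [∀ m k, Nontrivial (V m k)] (e : M → N → ZMod 2),
  Function.Injective e → (∀ m, e m ≠ 0) → ∀ (t₀ : s) (ρ : N → s → ZMod 2)
  (D : ∀ m k, Dj s (V m k)), (∀ m k, (D m k).s₀ = t₀) → (∀ m k, (D m k).Ok (lbf e ρ m)) →
  (∀ m, Adj2 (D m)) → ∀ (r : ∀ m, κ m → ℕ) (ε : ℝ), 0 < ε → ∃ A R : ℕ,
  ∀ (U ι : Type) [Fintype U] [Fintype ι] [LinearOrder ι] (b : Bk s U ι), Reg b t₀ A R →
    ∀ (Ev : (prs (univ : Finset ι) → ZMod 2) → (U ⊕ ι → N → ZMod 2) → Prop),
    (∀ α τ, Ev α τ ↔ ∀ m k,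
      finrank (ZMod 2) (Sel (D m k)
        ((sb b (fun u => act e τ m (Sum.inl u)) (fun i => act e τ m (Sum.inr i))).N t₀
          (ra (fun i => act e τ m (Sum.inr i)) α))
        (sb b (fun u => act e τ m (Sum.inl u)) (fun i => act e τ m (Sum.inr i))).h) =
      finrank (ZMod 2) (V m k) + r m k) →
    (((univ : Finset (prs (univ : Finset ι) → ZMod 2)).filter fun α =>
        ε * (2 ^ Fintype.card N : ℝ) ^ (Fintype.card U + Fintype.card ι) <
          |(Nat.card {τ : U ⊕ ι → N → ZMod 2 // lbs b.h τ = ρ ∧ Ev α τ} : ℝ) -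
            (∏ m, ∏ k, lawc ((finrank (ZMod 2) (D m k).pm : ℕ) : ZMod 2) (r m k)) *
              (Nat.card {τ : U ⊕ ι → N → ZMod 2 // lbs b.h τ = ρ} : ℝ)|).card : ℝ) ≤
      ε * 2 ^ (prs (univ : Finset ι)).card

end Q44.LD
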