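import Pool.Agent.Q44.JQ.StmG

/-!
# Project LD: the parity of the Selmer rank changes with the sign of the twist

The twists by two integers of different signs with the same classes in all the fields `ℚ_l`, `l ∈ T`, have
2-Selmer ranks of different parity. Three lemmas.
-/

set_option autoImplicit false
set_option linter.unusedVariables false

namespace Q44.LD

open Finset Module
open Q44.JQ
open scoped Classical

/-- the curve with the roots `- a i` -/
def negC {T : Finset ℕ} (c : Cr T) : Cr T where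
  g := c.g
  hg := c.hg
  a := fun i => -c.a i
  inj := fun i j h => c.inj (neg_injective h)
  supp := fun i j hij p hp hd => c.supp i j hij p hp (by
    have e : -c.a i - -c.a j = -(c.a i - c.a j) := by ring
    rw [e, dvd_neg] at hd
    exact hd)

/-- LD-LAG3 (linear algebra): let `A = D.𝓛 ⊓ D'.𝓛`, of index 2 in both spaces (they have the same order by `Ok.card`),
`Z` the space of the `(δ, 0)`. All three spaces are their own orthogonals for the polar form of `q`
(`sing`, `card`; for `Z` directly: the polar form of `q` at `(δ, 0)`, `(δ', ψ')` is `∑ t, ω (ψ' t) (δ t)`). The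
orthogonal of `A` is `A^⊥ = D.𝓛 + D'.𝓛` (orders), and `q` is not zero at the elements of `A^⊥` outside
`D.𝓛 ∪ D'.𝓛`: such an element is `y + y'` with `y ∈ D.𝓛` outside `D'.𝓛`, `y' ∈ D'.𝓛` outside `D.𝓛`, and
`q (y + y') = b (y, y')`, which is not zero since otherwise `y` would be orthogonal to `D'.𝓛`. So
`Z ⊓ A^⊥` is contained in `D.𝓛 ∪ D'.𝓛`, hence in one of them (a group is not the union of two proper
subgroups), say in `D.𝓛`; then `Z ⊓ D'.𝓛 = Z ⊓ A`, and `#(Z ⊓ D.𝓛) = #(Z ⊓ A^⊥) = 2 * #(Z ⊓ A)` because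
`#(Z ⊓ A^⊥) = #(Z + A)^⊥ = #total / #(Z + A)`. (`D.pm` is isomorphic to `Z ⊓ D.𝓛`; `ω` is not degenerate by
`Ok.nd`, so that the polar form of `q` is not degenerate, see `S_PAR` in Pool/Agent/Q261/JQ/PAR.lean.) -/
def S_LAG3 : Prop := ∀ (s V : Type) [Fintype s] [AddCommGroup V] [Module (ZMod 2) V] [Finite V]
  (D D' : Dj s V) (ρ ρ' : s → ZMod 2), D.Ok ρ → D'.Ok ρ' → (∀ x y, D.ω x y = D'.ω x y) →
  (∀ y, D.q y = D'.q y) → (∃ y ∈ D.𝓛, y ∉ D'.𝓛) →
  (∀ y ∈ D.𝓛, ∀ y' ∈ D.𝓛, y ∉ D'.𝓛 → y' ∉ D'.𝓛 → y + y' ∈ D'.𝓛) →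
  ((finrank (ZMod 2) D.pm : ℕ) : ZMod 2) = ((finrank (ZMod 2) D'.pm : ℕ) : ZMod 2) + 1

/-- LD-RSGN (the real local conditions of an elliptic curve with the roots `a 0`, `a 1`, `a 2`): `y.1 none`
is the vector of the signs of the `c.dz y.1 z i = Uo _ * z i`. If `a i` is the smallest and `a l` the largest root the
real local image consists of the trivial class and of the class with positive sign at `i` and negative signs at
the two others (by `S_LSZ`, hypothesis or theorem `Pool.Agent.Q121.JQ.t_LSZ`, `imJ ℝ a` has `#SC ℝ = 2`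
elements, and the class of the torsion point is in the image), so `v` is the vector of weight 2 which vanishes
at `i`, and `v'` is the one which vanishes at `l`; `v = TT (Pi.single none 1) v` (direct computation with
`Cr.tf`: `pr (Pi.single none 1) z` is 1 if and only if `z < 0`). The last statement: the class is trivial
(`LG.one`, `LG.congr` in Pool/Agent/Y723/PT/Lg.lean; integers with given labels: `S_LBL` (4), theorem
`Pool.Agent.Q24.JQ.t_LBL`). -/
def S_RSGN : Prop := ∀ T : Finset ℕ, (∀ p ∈ T, p.Prime) → 2 ∈ T → ∀ c : Cr T, c.g = 1 →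
  ∃ v v' : c.V, v ≠ 0 ∧ v' ≠ 0 ∧ v ≠ v' ∧
    (∀ ρ (y : (Option T → c.V) × (Option T → c.V)), c.Lc ℝ ρ y → y.1 none = 0 ∨ y.1 none = v) ∧
    (∀ ρ (y : (Option T → c.V) × (Option T → c.V)), (negC c).Lc ℝ ρ y → y.1 none = 0 ∨ y.1 none = v') ∧
    (∃ x : c.V, c.TT (Pi.single none 1) x = v) ∧
    (∀ ρ (y : (Option T → c.V) × (Option T → c.V)), y.1 none = 0 → (negC c).Lc ℝ ρ y)

/-- LD-NEG: for `u = 8 * ∏ p ∈ T, p - 1` the number `-u` is a square in `ℚ_p` for all `p` in `T` and the label of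
`u` is that of the sign: `jv (-1) u = 1`, `jv t u = 0` for `t ∈ T` (`jv z n` is the additive Jacobi
symbol of `z` modulo `n`; quadratic reciprocity: `u = -1` modulo `8 t`. Compare `S_LSQ`, theorem of helper285 in
Pool/Agent/Q285/JQ/LSQ.lean, `S_LBL`, theorem of helper24 in Pool/Agent/Q24/JQ/LBL.lean, Pool/Agent/Q44/JQ/Lab.lean;
any other `u` is fine). -/
def S_NEG : Prop := ∀ T : Finset ℕ, (∀ p ∈ T, p.Prime) → 2 ∈ T →
  ∃ u : ℕ, Cop T u ∧ lbl T u = Pi.single none 1 ∧
    ∀ (p : ℕ) [Fact p.Prime], p ∈ T → IsSquare (-(u : ℚ_[p]))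

end Q44.LD
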