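import Pool.Agent.Q44.LD.Sc
import Pool.Agent.Q44.LD.Stm
import Pool.Agent.Q44.JQ.Dec

/-!
# Project LD: products of divisors modulo squares
-/

set_option autoImplicit false
set_option linter.unusedSectionVars false
set_option linter.unusedVariables false

open scoped Classical

namespace Q44.LD

open Finset Module
open Q44.JQ

variable {T : Finset ℕ}

theorem pz_mul (v v' : ZMod 2) (z : ℤ) : (if v = 0 then 1 else z) * (if v' = 0 then 1 else z) =
    (if v + v' = 0 then 1 else z) * (if v ≠ 0 ∧ v' ≠ 0 then z else 1) ^ 2 := by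
  have h01 : ∀ x : ZMod 2, x = 0 ∨ x = 1 := by decide
  rcases h01 v with rfl | rfl <;> rcases h01 v' with rfl | rfl
  · simp
  · simp
  · simp
  · rw [if_neg one_ne_zero, if_pos (by decide), if_pos (by simp), one_mul, pow_two]

theorem prod_pz_mul {P : Type} [Fintype P] (z : P → ℤ) (hz : ∀ p, z p ≠ 0) (σ σ' : P → ZMod 2) :
    ∃ w : ℤ, w ≠ 0 ∧ (∏ p, if σ p = 0 then 1 else z p) * (∏ p, if σ' p = 0 then 1 else z p) =
      (∏ p, if σ p + σ' p = 0 then 1 else z p) * w ^ 2 := by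
  refine ⟨∏ p, if σ p ≠ 0 ∧ σ' p ≠ 0 then z p else 1, ?_, ?_⟩
  · refine Finset.prod_ne_zero_iff.2 fun p _ => ?_
    split_ifs
    · exact hz p
    · exact one_ne_zero
  · rw [← Finset.prod_mul_distrib, ← Finset.prod_pow, ← Finset.prod_mul_distrib]
    exact Finset.prod_congr rfl fun p _ => pz_mul _ _ _

/-- the integer with class `γ` at `T` and divisible by the primes `p` of `S` with `σ p = 1` -/
noncomputable def tt (γ : Option T → ZMod 2) {S : Finset ℕ} (σ : S → ZMod 2) : ℤ :=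
  Uo γ * ∏ p : S, if σ p = 0 then 1 else ((p : ℕ) : ℤ)

theorem tv_ne (L : LB T) (o : Option T) : tv o ≠ 0 := by
  cases o with
  | none => exact neg_ne_zero.2 one_ne_zero
  | some t => exact Int.natCast_ne_zero.2 (L.pr t t.2).ne_zero

theorem tt_mul (L : LB T) {S : Finset ℕ} (hS : ∀ p ∈ S, p.Prime) (γ γ' : Option T → ZMod 2)
    (σ σ' : S → ZMod 2) :
    ∃ w : ℤ, w ≠ 0 ∧ tt γ σ * tt γ' σ' = tt (γ + γ') (σ + σ') * w ^ 2 := by
  obtain ⟨w, hw, h1⟩ := prod_pz_mul (fun o : Option T => tv o) (tv_ne L) γ γ'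
  obtain ⟨w', hw', h2⟩ := prod_pz_mul (fun p : S => ((p : ℕ) : ℤ))
    (fun p => Int.natCast_ne_zero.2 (hS p p.2).ne_zero) σ σ'
  refine ⟨w * w', mul_ne_zero hw hw', ?_⟩
  have h1' : Uo γ * Uo γ' = Uo (γ + γ') * w ^ 2 := h1
  have h2' : (∏ p : S, if σ p = 0 then 1 else ((p : ℕ) : ℤ)) *
      (∏ p : S, if σ' p = 0 then 1 else ((p : ℕ) : ℤ)) =
      (∏ p : S, if (σ + σ') p = 0 then 1 else ((p : ℕ) : ℤ)) * w' ^ 2 := h2
  unfold tt
  calc _ = (Uo γ * Uo γ') * ((∏ p : S, if σ p = 0 then 1 else ((p : ℕ) : ℤ)) *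
      (∏ p : S, if σ' p = 0 then 1 else ((p : ℕ) : ℤ))) := by ring
    _ = _ := by
      rw [h1', h2']
      ring

theorem Uo_zero' : Uo (0 : Option T → ZMod 2) = 1 := by
  unfold Uo
  exact Finset.prod_eq_one fun o _ => if_pos rfl

theorem tt_zero {S : Finset ℕ} : tt (0 : Option T → ZMod 2) (0 : S → ZMod 2) = 1 := by
  unfold tt
  rw [Uo_zero', one_mul]
  exact Finset.prod_eq_one fun p _ => if_pos rfl

/-- the product over a form -/
theorem tt_prod (L : LB T) {S : Finset ℕ} (hS : ∀ p ∈ S, p.Prime) {N : Type} (s : Finset N)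
    (J : N → ZMod 2) (γ : N → Option T → ZMod 2) (τ : S → N → ZMod 2) :
    ∃ w : ℤ, w ≠ 0 ∧ (∏ i ∈ s, if J i = 0 then 1 else tt (γ i) fun p => τ p i) =
      tt (∑ i ∈ s, J i • γ i) (fun p => ∑ i ∈ s, J i * τ p i) * w ^ 2 := by
  induction s using Finset.induction_on with
  | empty =>
    refine ⟨1, one_ne_zero, ?_⟩
    rw [Finset.prod_empty, Finset.sum_empty]
    have : (fun p : S => ∑ i ∈ (∅ : Finset N), J i * τ p i) = 0 := by
      funext p
      rw [Finset.sum_empty]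
      rfl
    rw [this, tt_zero]
    norm_num
  | @insert a s ha ih =>
    obtain ⟨w, hw, ih⟩ := ih
    rw [Finset.prod_insert ha, ih, Finset.sum_insert ha]
    have h01 : J a = 0 ∨ J a = 1 := by
      generalize J a = x
      revert x
      decide
    rcases h01 with h | h
    · refine ⟨w, hw, ?_⟩
      rw [h, if_pos rfl, one_mul, zero_smul, zero_add]
      congr 2
      funext p
      rw [Finset.sum_insert ha, h, zero_mul, zero_add]
    · obtain ⟨w', hw', h2⟩ := tt_mul L hS (γ a) (∑ i ∈ s, J i • γ i) (fun p => τ p a)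
        (fun p => ∑ i ∈ s, J i * τ p i)
      refine ⟨w' * w, mul_ne_zero hw' hw, ?_⟩
      rw [h, if_neg one_ne_zero, ← mul_assoc, h2, one_smul]
      have : (fun p : S => ∑ i ∈ insert a s, J i * τ p i) =
          (fun p => τ p a) + (fun p => ∑ i ∈ s, J i * τ p i) := by
        funext p
        rw [Finset.sum_insert ha, h, one_mul]
        rfl
      rw [this]
      ring

/-- the set of the active primes -/
noncomputable def acS {S : Finset ℕ} (σ : S → ZMod 2) : Finset ℕ :=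
  (univ.filter fun p : S => σ p ≠ 0).image Subtype.val

theorem mem_acS {S : Finset ℕ} {σ : S → ZMod 2} {p : ℕ} : p ∈ acS σ ↔ ∃ h : p ∈ S, σ ⟨p, h⟩ ≠ 0 := by
  unfold acS
  rw [Finset.mem_image]
  constructor
  · rintro ⟨x, hx, rfl⟩
    exact ⟨x.2, (mem_filter.1 hx).2⟩
  · rintro ⟨h, h'⟩
    exact ⟨⟨p, h⟩, mem_filter.2 ⟨mem_univ _, h'⟩, rfl⟩

theorem tt_eq (γ : Option T → ZMod 2) {S : Finset ℕ} (σ : S → ZMod 2) :
    tt γ σ = Uo γ * ((∏ p ∈ acS σ, p : ℕ) : ℤ) := by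
  unfold tt acS
  congr 1
  rw [Finset.prod_image fun a _ b _ h => Subtype.ext h]
  push_cast
  rw [Finset.prod_filter]
  refine Finset.prod_congr rfl fun p _ => ?_
  by_cases h : σ p = 0
  · rw [if_pos h, if_neg (not_not.2 h)]
  · rw [if_neg h, if_pos h]

/-- the active primes -/
noncomputable def eqAc {S : Finset ℕ} (σ : S → ZMod 2) : {x : S // σ x ≠ 0} ≃ acS σ where
  toFun x := ⟨x.1, mem_acS.2 ⟨x.1.2, x.2⟩⟩
  invFun p := ⟨⟨p, (mem_acS.1 p.2).1⟩, (mem_acS.1 p.2).2⟩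
  left_inv _ := rfl
  right_inv _ := rfl

theorem acS_sq {S : Finset ℕ} (hS : ∀ p ∈ S, p.Prime ∧ p ∉ T) (σ : S → ZMod 2) (L : LB T) :
    Squarefree (∏ p ∈ acS σ, p) ∧ Cop T (∏ p ∈ acS σ, p) ∧ (∏ p ∈ acS σ, p).primeFactors = acS σ := by
  have hp : ∀ p ∈ acS σ, p.Prime ∧ p ∉ T := fun p h => hS p (mem_acS.1 h).1
  refine ⟨?_, ?_, Nat.primeFactors_prod fun p h => (hp p h).1⟩
  · refine Finset.squarefree_prod_of_pairwise_isCoprime ?_ fun p h => (hp p h).1.prime.squarefree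
    intro p h q h' hne
    exact Nat.coprime_iff_isRelPrime.1 ((Nat.coprime_primes (hp p h).1 (hp q h').1).2 hne)
  · intro t ht hd
    obtain ⟨p, h, hd'⟩ := (Prime.dvd_finsetProd_iff (L.pr t ht).prime _).1 hd
    have := (Nat.prime_dvd_prime_iff_eq (L.pr t ht) (hp p h).1).1 hd'
    exact (hp p h).2 (this ▸ ht)

end Q44.LD
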