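import Pool.Agent.Q44.LD.Key

/-!
# Project LD: tuples of divisors and families of subsets
-/

set_option autoImplicit false
set_option linter.unusedSectionVars false
set_option linter.unusedVariables false

open scoped Classical

namespace Q44.LD

open Finset Module Filter
open Pool.Agent.Y703.CQ (nr)
open Q44.JQ hiding cnt

variable {T : Finset ℕ} {N : Type} [Fintype N] (L : LB T)

/-- the tuple `t` of divisors of `D` is in the class `x` -/
def InC (T : Finset ℕ) (x : N → Cl T) (D : ℤ) (t : N → ℤ) : Prop := ∀ i, t i ∣ D ∧ clD T (t i) = x i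

include L

/-- the class of the integer of a family -/
theorem cl_tt {S : Finset ℕ} (hS : ∀ p ∈ S, p.Prime ∧ p ∉ T) (γ : Option T → ZMod 2)
    (σ : S → ZMod 2) : Squarefree (tt γ σ) ∧ nD T (tt γ σ) = ∏ p ∈ acS σ, p ∧
      clD T (tt γ σ) = (γ, ∑ p, σ p • lbl T p) := by
  obtain ⟨h1, h2, -⟩ := acS_sq hS σ L
  obtain ⟨g1, g2, g3⟩ := L.uni γ h1 h2
  rw [tt_eq]
  refine ⟨g1, g3, ?_⟩
  unfold clD
  rw [g2, g3]
  refine Prod.ext rfl ?_
  show lbl T (∏ p ∈ acS σ, p) = _
  rw [(L.lbl_prod (acS σ) fun p hp => (L.toTS.prime_cop (hS p (mem_acS.1 hp).1).1).2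
    (hS p (mem_acS.1 hp).1).2).2]
  unfold acS
  rw [Finset.sum_image fun a _ b _ h => Subtype.ext h, Finset.sum_filter]
  refine Finset.sum_congr rfl fun p _ => ?_
  have h01 : σ p = 0 ∨ σ p = 1 := by
    generalize σ p = x
    revert x
    decide
  rcases h01 with h | h
  · rw [h, if_neg (by simp), zero_smul]
  · rw [h, if_pos one_ne_zero, one_smul]

theorem pf_S {D : ℕ} (hD : Squarefree D) : ∀ p ∈ (nD T (D : ℤ)).primeFactors, p.Prime ∧ p ∉ T := by
  intro p hp
  obtain ⟨g1, g2, g3⟩ := L.dec (Int.squarefree_natCast.2 hD)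
  exact ⟨Nat.prime_of_mem_primeFactors hp, fun h => g3 p h (Nat.dvd_of_mem_primeFactors hp)⟩

/-- the integers of the families divide `D` -/
theorem tt_dvd {D : ℕ} (hD : Squarefree D) {γ : Option T → ZMod 2} (hγ : Uo γ ∣ (D : ℤ))
    (σ : (nD T (D : ℤ)).primeFactors → ZMod 2) : tt γ σ ∣ (D : ℤ) := by
  obtain ⟨g1, g2, g3⟩ := L.dec (Int.squarefree_natCast.2 hD)
  obtain ⟨h1, h2, h3⟩ := acS_sq (pf_S L hD) σ L
  have h4 : (∏ p ∈ acS σ, p) ∣ nD T (D : ℤ) := by
    have h5 := Finset.prod_dvd_prod_of_subset (acS σ) (nD T (D : ℤ)).primeFactors (fun p : ℕ => p)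
      fun p hp => (mem_acS.1 hp).1
    rwa [Nat.prod_primeFactors_of_squarefree g2] at h5
  have h5 : ((∏ p ∈ acS σ, p : ℕ) : ℤ) ∣ (D : ℤ) :=
    (Int.natCast_dvd_natCast.2 h4).trans (Dvd.intro_left _ g1.symm)
  rw [tt_eq]
  refine IsCoprime.mul_dvd ?_ hγ h5
  rw [Int.isCoprime_iff_gcd_eq_one]
  show Nat.gcd (Uo γ).natAbs ((∏ p ∈ acS σ, p : ℕ) : ℤ).natAbs = 1
  rw [Int.natAbs_natCast]
  refine Nat.coprime_of_dvd fun k hk h6 h7 => ?_
  obtain ⟨-, u2, -⟩ := L.uo γ
  exact h2 k (u2 k hk (Int.natCast_dvd.2 h6)) h7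

theorem tt_inj {S : Finset ℕ} (hS : ∀ p ∈ S, p.Prime ∧ p ∉ T) {γ : Option T → ZMod 2}
    {σ σ' : S → ZMod 2} (h : tt γ σ = tt γ σ') : σ = σ' := by
  have h1 : acS σ = acS σ' := by
    rw [← (acS_sq hS σ L).2.2, ← (acS_sq hS σ' L).2.2, ← (cl_tt L hS γ σ).2.1,
      ← (cl_tt L hS γ σ').2.1, h]
  funext p
  have h2 : (σ p ≠ 0) ↔ (σ' p ≠ 0) := by
    have a1 : (p : ℕ) ∈ acS σ ↔ σ p ≠ 0 := ⟨fun h => (mem_acS.1 h).2, fun h => mem_acS.2 ⟨p.2, h⟩⟩
    have a2 : (p : ℕ) ∈ acS σ' ↔ σ' p ≠ 0 := ⟨fun h => (mem_acS.1 h).2, fun h => mem_acS.2 ⟨p.2, h⟩⟩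
    rw [← a1, ← a2, h1]
  generalize σ p = a at h2
  generalize σ' p = b at h2
  revert a b
  decide

/-- every divisor of the class comes from a family -/
theorem tt_sur {D : ℕ} (hD : Squarefree D) {t : ℤ} (ht : t ∣ (D : ℤ)) :
    ∃ σ : (nD T (D : ℤ)).primeFactors → ZMod 2, tt (ct t : Option T → ZMod 2) σ = t ∧
      (clD T t).2 = ∑ p, σ p • lbl T p ∧ Uo (ct t : Option T → ZMod 2) ∣ (D : ℤ) := by
  have hDz : Squarefree (D : ℤ) := Int.squarefree_natCast.2 hD
  obtain ⟨g1, g2, g3⟩ := L.dec hDz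
  have htz : Squarefree t := hDz.squarefree_of_dvd ht
  obtain ⟨t1, t2, t3⟩ := L.dec htz
  have hsub : (nD T t).primeFactors ⊆ (nD T (D : ℤ)).primeFactors := by
    intro p hp
    have hp' := Nat.prime_of_mem_primeFactors hp
    have hpd := Nat.dvd_of_mem_primeFactors hp
    refine Nat.mem_primeFactors.2 ⟨hp', ?_, g2.ne_zero⟩
    have h1 : (p : ℤ) ∣ (D : ℤ) := by
      refine dvd_trans ?_ ht
      rw [t1]
      exact (Int.natCast_dvd_natCast.2 hpd).mul_left _
    rw [g1] at h1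
    rcases (Nat.prime_iff_prime_int.1 hp').dvd_or_dvd h1 with h2 | h2
    · exact absurd hpd (t3 p ((L.uo (ct (D : ℤ))).2.1 p hp' h2))
    · exact Int.natCast_dvd_natCast.1 h2
  set σ : (nD T (D : ℤ)).primeFactors → ZMod 2 := fun p => if (p : ℕ) ∈ (nD T t).primeFactors
    then 1 else 0 with hσ
  have h1 : acS σ = (nD T t).primeFactors := by
    ext p
    rw [mem_acS]
    constructor
    · rintro ⟨h, h'⟩
      by_contra hc
      exact h' (if_neg hc)
    · intro h
      refine ⟨hsub h, ?_⟩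
      show (if p ∈ (nD T t).primeFactors then (1 : ZMod 2) else 0) ≠ 0
      rw [if_pos h]
      exact one_ne_zero
  have h2 : tt (ct t : Option T → ZMod 2) σ = t := by
    rw [tt_eq, h1, Nat.prod_primeFactors_of_squarefree t2]
    exact t1.symm
  refine ⟨σ, h2, ?_, ?_⟩
  · have h3 := (cl_tt L (pf_S L hD) (ct t) σ).2.2
    rw [h2] at h3
    rw [h3]
  · refine dvd_trans ?_ ht
    exact Dvd.intro _ t1.symm

/-- the tuples of the class are the families with the given labels -/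
theorem card_tup {D : ℕ} (hD : Squarefree D) (x : N → Cl T)
    (hx : ∀ i, Uo (x i).1 ∣ (D : ℤ)) (Q : (N → ℤ) → Prop) :
    Nat.card {t : N → ℤ // InC T x (D : ℤ) t ∧ Q t} =
      Nat.card {τ : (nD T (D : ℤ)).primeFactors → N → ZMod 2 //
        lbs (fun p : (nD T (D : ℤ)).primeFactors => lbl T p) τ = (fun i => (x i).2) ∧
        Q fun i => tt (x i).1 fun p => τ p i} := by
  symm
  refine Nat.card_eq_of_bijective (fun τ => ⟨fun i => tt (x i).1 fun p => τ.1 p i, ?_, τ.2.2⟩) ⟨?_, ?_⟩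
  · intro i
    refine ⟨tt_dvd L hD (hx i) _, ?_⟩
    rw [(cl_tt L (pf_S L hD) (x i).1 fun p => τ.1 p i).2.2]
    exact Prod.ext rfl (congrFun τ.2.1 i)
  · intro τ τ' h
    refine Subtype.ext (funext fun p => funext fun i => ?_)
    have h1 := congrFun (congrArg Subtype.val h) i
    exact congrFun (tt_inj L (pf_S L hD) h1) p
  · rintro ⟨t, ht, hQ⟩
    have h1 := fun i => tt_sur L hD (ht i).1
    choose σ h2 h3 _h4 using h1
    have h5 : ∀ i, (ct (t i) : Option T → ZMod 2) = (x i).1 := fun i => congrArg Prod.fst (ht i).2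
    have h6 : (fun i => tt (x i).1 fun p => σ i p) = t := by
      funext i
      have := h2 i
      rw [h5 i] at this
      exact this
    refine ⟨⟨fun p i => σ i p, ?_, ?_⟩, Subtype.ext h6⟩
    · funext i
      show ∑ p, σ i p • lbl T p = (x i).2
      rw [← h3 i, (ht i).2]
    · rw [h6]
      exact hQ

theorem no_tup {D : ℕ} (hD : Squarefree D) (x : N → Cl T)
    (hx : ¬ ∀ i, Uo (x i).1 ∣ (D : ℤ)) (t : N → ℤ) : ¬ InC T x (D : ℤ) t := by
  intro h
  refine hx fun i => ?_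
  obtain ⟨σ, -, -, h4⟩ := tt_sur L hD (h i).1
  have h5 : (ct (t i) : Option T → ZMod 2) = (x i).1 := congrArg Prod.fst (h i).2
  rwa [h5] at h4

omit L in
/-- the families with given labels are a positive proportion -/
theorem card_lbs {S : Finset ℕ} (hφ : ∀ φ : Option T → ZMod 2, ∃ p ∈ S, lbl T p = φ)
    (ρ : N → Option T → ZMod 2) :
    ((2 : ℝ) ^ Fintype.card N) ^ S.card ≤ (Fintype.card (N → Option T → ZMod 2) : ℝ) *
      Nat.card {τ : S → N → ZMod 2 // lbs (fun p : S => lbl T p) τ = ρ} := by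
  have hadd : ∀ τ τ' : S → N → ZMod 2, lbs (fun p : S => lbl T p) (τ + τ') =
      lbs (fun p : S => lbl T p) τ + lbs (fun p : S => lbl T p) τ' := by
    intro τ τ'
    funext i
    show ∑ p : S, (τ p i + τ' p i) • lbl T p = ∑ p : S, τ p i • lbl T p + ∑ p : S, τ' p i • lbl T p
    rw [← Finset.sum_add_distrib]
    exact Finset.sum_congr rfl fun p _ => add_smul _ _ _
  have hsur : ∀ ρ' : N → Option T → ZMod 2, ∃ τ : S → N → ZMod 2,
      lbs (fun p : S => lbl T p) τ = ρ' := by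
    intro ρ'
    choose p hp hl using fun i => hφ (ρ' i)
    refine ⟨fun q i => if (q : ℕ) = p i then 1 else 0, funext fun i => ?_⟩
    show ∑ q : S, (if (q : ℕ) = p i then (1 : ZMod 2) else 0) • lbl T q = ρ' i
    rw [Finset.sum_eq_single (⟨p i, hp i⟩ : S)]
    · rw [if_pos rfl, one_smul]
      exact hl i
    · intro q _ hq
      rw [if_neg fun h => hq (Subtype.ext h), zero_smul]
    · intro h
      exact absurd (mem_univ _) h
  have h1 : Fintype.card (S → N → ZMod 2) = (2 ^ Fintype.card N) ^ S.card := by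
    rw [Fintype.card_fun, Fintype.card_fun, ZMod.card, Fintype.card_coe]
  have h2 : (univ : Finset (S → N → ZMod 2)).card ≤
      (univ : Finset (N → Option T → ZMod 2)).card *
        (univ.filter fun τ : S → N → ZMod 2 => lbs (fun p : S => lbl T p) τ = ρ).card := by
    rw [Finset.card_eq_sum_card_fiberwise (f := fun τ : S → N → ZMod 2 =>
      lbs (fun p : S => lbl T p) τ) (t := univ) (fun _ _ => Finset.mem_coe.2 (mem_univ _)), ← smul_eq_mul]
    refine Finset.sum_le_card_nsmul _ _ _ fun ρ' _ => ?_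
    obtain ⟨τ₀, h3⟩ := hsur (ρ - ρ')
    refine Finset.card_le_card_of_injOn (fun τ => τ + τ₀) ?_ (fun a _ b _ h => add_right_cancel h)
    intro τ hτ
    have h4 := (mem_filter.1 hτ).2
    refine mem_filter.2 ⟨mem_univ _, ?_⟩
    rw [hadd, h4, h3]
    abel
  have h3 : Nat.card {τ : S → N → ZMod 2 // lbs (fun p : S => lbl T p) τ = ρ} =
      (univ.filter fun τ : S → N → ZMod 2 => lbs (fun p : S => lbl T p) τ = ρ).card := by
    rw [Nat.card_eq_fintype_card, Fintype.card_subtype]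
  rw [h3]
  rw [card_univ, card_univ, h1] at h2
  exact_mod_cast h2

end Q44.LD
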