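import Pool.Agent.Q44.LD.KN

/-!
# Project LD: one set of integers for all the curves and all the multiples; the uniform bound
-/

set_option autoImplicit false
set_option linter.unusedSectionVars false
set_option linter.unusedVariables false

open scoped Classical

namespace Q44.LD

open Finset Module Filter Topology
open Q44.JQ hiding cnt
open Q44.JQ.W Q44.JQ.M Q44.JQ.X
open Pool.Agent.Q269.MF (bet)
open Pool.Agent.Q269.SL (law2)
open Pool.Agent.TH841.NF (EF Gen)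
open Pool.Agent.TH841.NF.D (HasDiv rk crk Sha)
open Pool.Agent.Y723.PT (tw)
open Q155.NL (Alm)
open Pool.Agent.TH344.JG (SelJ)

/-- the curves -/
structure Mdl (a : Fin 3 → ℤ) : Prop where
  ha : Function.Injective a
  h0 : a 0 + a 1 + a 2 = 0
  c4 : ∀ i j l, i ≠ j → i ≠ l → j ≠ l → ∀ s : ℤ, (a i - a j) * (a i - a l) ≠ s ^ 2

theorem Mdl.ex {a : Fin 3 → ℤ} (h : Mdl a) : ∃ S, Vone a S := by
  set z : ℕ := 2 * ((a 0 - a 1) * (a 0 - a 2) * (a 1 - a 2)).natAbs with hz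
  have h1 : ∀ i j, i ≠ j → a i - a j ≠ 0 := fun i j hij =>
    sub_ne_zero.2 fun h' => hij (h.ha h')
  have hz0 : z ≠ 0 := by
    rw [hz]
    refine mul_ne_zero two_ne_zero (Int.natAbs_ne_zero.2 ?_)
    exact mul_ne_zero (mul_ne_zero (h1 0 1 (by decide)) (h1 0 2 (by decide))) (h1 1 2 (by decide))
  refine ⟨z.primeFactors, h.ha, h.h0, h.c4,
    fun p hp => Nat.prime_of_mem_primeFactors hp,
    Nat.mem_primeFactors.2 ⟨Nat.prime_two, Dvd.intro _ rfl, hz0⟩, fun i j hij p hp hd => ?_⟩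
  refine Nat.mem_primeFactors.2 ⟨hp, ?_, hz0⟩
  have h2 : a i - a j ∣ (a 0 - a 1) * (a 0 - a 2) * (a 1 - a 2) := by
    have h3 : ∀ i : Fin 3, i = 0 ∨ i = 1 ∨ i = 2 := by decide
    rcases h3 i with rfl | rfl | rfl <;> rcases h3 j with rfl | rfl | rfl
    · exact absurd rfl hij
    · exact ⟨(a 0 - a 2) * (a 1 - a 2), by ring⟩
    · exact ⟨(a 0 - a 1) * (a 1 - a 2), by ring⟩
    · exact ⟨-((a 0 - a 2) * (a 1 - a 2)), by ring⟩
    · exact absurd rfl hij
    · exact ⟨(a 0 - a 1) * (a 0 - a 2), by ring⟩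
    · exact ⟨-((a 0 - a 1) * (a 1 - a 2)), by ring⟩
    · exact ⟨-((a 0 - a 1) * (a 0 - a 2)), by ring⟩
    · exact absurd rfl hij
  have h3 : p ∣ ((a 0 - a 1) * (a 0 - a 2) * (a 1 - a 2)).natAbs :=
    Int.natCast_dvd.1 (hd.trans h2)
  exact h3.mul_left 2

/-- the twists -/
theorem Mdl.tw {a : Fin 3 → ℤ} (h : Mdl a) {u : ℤ} (hu : u ≠ 0) : Mdl (tw u a) where
  ha := Pool.Agent.Y723.PT.tw_inj hu h.ha
  h0 := tw_sum h.h0 u
  c4 := by
    intro i j l hij hil hjl s hs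
    have e : (Pool.Agent.Y723.PT.tw u a i - Pool.Agent.Y723.PT.tw u a j) *
        (Pool.Agent.Y723.PT.tw u a i - Pool.Agent.Y723.PT.tw u a l) =
        u ^ 2 * ((a i - a j) * (a i - a l)) := by
      show (u * a i - u * a j) * (u * a i - u * a l) = _
      ring
    rw [e] at hs
    have h1 : u ^ 2 ∣ s ^ 2 := ⟨_, hs.symm⟩
    obtain ⟨w, rfl⟩ := (Int.pow_dvd_pow_iff two_ne_zero).1 h1
    rw [mul_pow] at hs
    exact h.c4 i j l hij hil hjl w (mul_left_cancel₀ (pow_ne_zero 2 hu) hs)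

theorem lbd_card {S : Finset ℕ} {D : ℕ} (hD : D ≠ 0) (h : Lbd S D) (hS : nD S (D : ℤ) ∣ D) :
    S.card ≤ D.primeFactors.card := by
  choose p hp hl using h
  have h1 : Function.Injective p := fun x y hxy => by rw [← hl x, ← hl y, hxy]
  have h2 := Finset.card_le_card_of_injOn (s := (univ : Finset (Option S → ZMod 2)))
    (t := D.primeFactors) p (fun x _ => Nat.primeFactors_mono hS hD (hp x)) fun x _ y _ h => h1 h
  refine le_trans ?_ h2
  rw [card_univ, Fintype.card_fun, Fintype.card_option, Fintype.card_coe]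
  have h3 : Fintype.card (ZMod 2) = 2 := ZMod.card 2
  rw [h3]
  have h4 := Nat.lt_two_pow_self (n := S.card + 1)
  omega

theorem nD_dvd {S : Finset ℕ} (L : LB S) {D : ℕ} (hD : Squarefree D) : nD S (D : ℤ) ∣ D := by
  obtain ⟨h1, -, -⟩ := L.dec (Int.squarefree_natCast.2 hD)
  have h2 : ((nD S (D : ℤ) : ℕ) : ℤ) ∣ (D : ℤ) := Dvd.intro_left _ h1.symm
  exact Int.natCast_dvd_natCast.1 h2

/-- **One set of integers.** -/
theorem one_GM (H : FactsZ) : ∃ 𝒟 : ℕ → Prop, Alm (fun _ => True) 𝒟 ∧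
    (∀ B : ℕ, ∀ᶠ N in atTop, 𝒟 N → B ≤ N.primeFactors.card) ∧
    ∀ a, Mdl a → ∀ M ≠ 0, ∀ C ε : ℝ, 0 ≤ C → 0 < ε → ∀ᶠ N in atTop, 𝒟 N → GM a C ε M (rad N) := by
  obtain ⟨𝒟, h1, h2⟩ := one_setN H
  refine ⟨𝒟, h1, fun B => ?_, fun a ha M hM C ε hC hε => ?_⟩
  · obtain ⟨t, ht, htc⟩ := Nat.infinite_setOfPred_prime.exists_subset_card_eq B
    have hpr : ∀ p ∈ insert 2 t, p.Prime := by
      intro p hp
      rcases Finset.mem_insert.1 hp with rfl | hp
      · exact Nat.prime_two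
      · exact ht hp
    have hv : Val (n := 0) (fun k : Fin 0 => (k.elim0 : Fin 3 → ℤ))
        (fun k => (k.elim0 : Finset (Fin 0))) (insert 2 t) :=
      ⟨fun k => k.elim0, fun k => k.elim0, fun k => k.elim0, fun k => k.elim0, fun k => k.elim0,
        hpr, Finset.mem_insert_self _ _, fun k => k.elim0⟩
    have L : LB (insert 2 t) := LB.of H.lbl hv.E.hT
    filter_upwards [h2 0 0 _ _ _ hv 1 1 zero_le_one one_pos] with N h3 hN
    have h4 := lbd_card (rad_pos N).ne' (h3 hN).1 (nD_dvd L (rad_sq N))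
    rw [rad_pf] at h4
    refine le_trans ?_ h4
    rw [← htc]
    exact Finset.card_le_card (Finset.subset_insert _ _)
  · have h3 : ∀ u ∈ M.divisors, ∀ᶠ N in atTop, 𝒟 N → Gq (Pool.Agent.Y723.PT.tw (u : ℤ) a) C ε (rad N) := by
      intro u hu
      have hu0 : ((u : ℕ) : ℤ) ≠ 0 := by exact_mod_cast (Nat.pos_of_mem_divisors hu).ne'
      obtain ⟨S, hv⟩ := (ha.tw hu0).ex
      filter_upwards [h2 _ _ _ _ S hv.val1 C ε hC hε] with N h4 hN
      exact ⟨S, hv, (h4 hN).1, (h4 hN).2⟩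
    filter_upwards [(Filter.eventually_all_finset _).2 h3] with N h4 hN u hu
    exact h4 u hu hN

/-! ### Invariance under squares -/

theorem wr_sq (H : FactsZ) {a : Fin 3 → ℤ} (ha : Mdl a) {q w : ℤ} (hq : q ≠ 0) (hw : w ≠ 0) :
    wr a (q * w ^ 2) = wr a q := by
  obtain ⟨S, hv⟩ := ha.ex
  have L := LB.of H.lbl hv.val1.E.hT
  obtain ⟨P⟩ := (hv.val1.E.Gx H.irrB L).exLo L H.arxe
  have h1 := (fct P H.ell 0 (q * w ^ 2) (mul_ne_zero hq (pow_ne_zero 2 hw))).1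
  have h2 := (fct P H.ell 0 q hq).1
  have h3 : SelJ (Pool.Agent.Y723.PT.tw (q * w ^ 2) (hv.val1.E.a 0)) =
      SelJ (Pool.Agent.Y723.PT.tw q (hv.val1.E.a 0)) := selJ_sq hw
  rw [h3, h2] at h1
  have h4 := Nat.pow_right_injective le_rfl h1
  have h5 : 2 + wr a q = 2 + wr a (q * w ^ 2) := h4
  omega

/-! ### The uniform bound -/

theorem exp_bd {C : ℝ} {j : ℕ} (hj : (2 : ℝ) ^ j ≤ C) (e : ℕ) : |(2 : ℝ) ^ (j * e)| ≤ C ^ (1 + e) := by
  have hj1 : (1 : ℝ) ≤ 2 ^ j := one_le_pow₀ (by norm_num)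
  rw [abs_of_pos (by positivity), pow_mul]
  refine (pow_le_pow_right₀ hj1 (Nat.le_add_left e 1)).trans ?_
  exact pow_le_pow_left₀ (by positivity) hj _

/-- the numbers for all the divisors are bounded by a small multiple of the number of the prime divisors -/
theorem ub (H : FactsZ) (HS : FactsS) {a : Fin 3 → ℤ} {M N j K : ℕ} (hM : M ≠ 0) (hN : N ≠ 0)
    (hG : GM a (2 ^ j) 1 M (rad N))
    (hK : (Mu (fun e => (2 : ℝ) ^ (j * e)) + 1) * 2 * 2 ^ M.primeFactors.card ≤ 2 ^ K) {d : ℤ}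
    (hd : d ∈ sd (rad (M * N))) : j * wr a d ≤ K + N.primeFactors.card := by
  have h1 := hG.law H HS hM hN (by positivity) fun e => exp_bd le_rfl e
  have h2 := (abs_le.1 h1).2
  have h3 : (2 : ℝ) ^ (j * wr a d) ≤ ∑ d ∈ sd (rad (M * N)), (2 : ℝ) ^ (j * wr a d) :=
    Finset.single_le_sum (f := fun d => (2 : ℝ) ^ (j * wr a d)) (fun _ _ => by positivity) hd
  have h4 : ((sd (rad (M * N))).card : ℝ) ≤ 2 * (2 ^ M.primeFactors.card * 2 ^ N.primeFactors.card) := by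
    rw [card_sd (rad_pos _).ne', card_div (rad_sq _), rad_pf]
    have h5 : (M * N).primeFactors.card ≤ M.primeFactors.card + N.primeFactors.card := by
      rw [Nat.primeFactors_mul hM hN]
      exact Finset.card_union_le _ _
    have h6 : 2 * 2 ^ (M * N).primeFactors.card ≤
        2 * (2 ^ M.primeFactors.card * 2 ^ N.primeFactors.card) := by
      rw [← pow_add]
      exact Nat.mul_le_mul_left 2 (Nat.pow_le_pow_right (by norm_num) h5)
    exact_mod_cast h6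
  have hmu : 0 ≤ Mu (fun e => (2 : ℝ) ^ (j * e)) := by
    refine tsum_nonneg fun e => mul_nonneg (by positivity) ?_
    rw [← law_half]
    have h5 := lawc_nonneg 0 e
    have h6 := lawc_nonneg 1 e
    linarith
  have h5 : (2 : ℝ) ^ (j * wr a d) ≤ 2 ^ K * 2 ^ N.primeFactors.card := by
    calc (2 : ℝ) ^ (j * wr a d)
        ≤ (Mu (fun e => (2 : ℝ) ^ (j * e)) + 1) * ((sd (rad (M * N))).card : ℝ) := by linarith
      _ ≤ (Mu (fun e => (2 : ℝ) ^ (j * e)) + 1) *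
          (2 * (2 ^ M.primeFactors.card * 2 ^ N.primeFactors.card)) :=
          mul_le_mul_of_nonneg_left h4 (by linarith)
      _ = (Mu (fun e => (2 : ℝ) ^ (j * e)) + 1) * 2 * 2 ^ M.primeFactors.card *
          2 ^ N.primeFactors.card := by ring
      _ ≤ 2 ^ K * 2 ^ N.primeFactors.card := mul_le_mul_of_nonneg_right hK (by positivity)
  rw [← pow_add] at h5
  exact (pow_le_pow_iff_right₀ (by norm_num : (1 : ℝ) < 2)).1 h5

/-- **The uniform bound for all the divisors.** -/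
theorem ub_all (H : FactsZ) (HS : FactsS) {𝒟 : ℕ → Prop}
    (h1 : ∀ B : ℕ, ∀ᶠ N in atTop, 𝒟 N → B ≤ N.primeFactors.card)
    (h2 : ∀ a, Mdl a → ∀ M ≠ 0, ∀ C ε : ℝ, 0 ≤ C → 0 < ε → ∀ᶠ N in atTop, 𝒟 N → GM a C ε M (rad N))
    {a : Fin 3 → ℤ} (ha : Mdl a) {M : ℕ} (hM : M ≠ 0) {ε : ℝ} (hε : 0 < ε) :
    ∀ᶠ N in atTop, 𝒟 N → ∀ d ∈ sd (rad (M * N)), (wr a d : ℝ) ≤ ε * N.primeFactors.card := by
  obtain ⟨j, hj⟩ := exists_nat_gt (2 / ε)
  have hj0 : (0 : ℝ) < j := (by positivity : (0 : ℝ) < 2 / ε).trans hj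
  obtain ⟨K, hK⟩ := pow_unbounded_of_one_lt
    ((Mu (fun e => (2 : ℝ) ^ (j * e)) + 1) * 2 * 2 ^ M.primeFactors.card) (by norm_num : (1 : ℝ) < 2)
  filter_upwards [h1 K, h2 a ha M hM (2 ^ j) 1 (by positivity) one_pos, eventually_ne_atTop 0]
    with N h3 h4 hN hD d hd
  have h5 := ub H HS hM hN (h4 hD) hK.le hd
  have h6 : (j : ℝ) * wr a d ≤ 2 * N.primeFactors.card := by
    have h7 : j * wr a d ≤ 2 * N.primeFactors.card := by
      have := h3 hD
      omega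
    exact_mod_cast h7
  rw [div_lt_iff₀ hε] at hj
  have hw : (0 : ℝ) ≤ N.primeFactors.card := Nat.cast_nonneg _
  have h8 : (j : ℝ) * wr a d ≤ j * (ε * N.primeFactors.card) := by
    calc (j : ℝ) * wr a d ≤ 2 * N.primeFactors.card := h6
      _ ≤ (j * ε) * N.primeFactors.card := mul_le_mul_of_nonneg_right hj.le hw
      _ = j * (ε * N.primeFactors.card) := by ring
  exact le_of_mul_le_mul_left h8 hj0

end Q44.LD
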